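import Pool.Agent.Lib.EXS.Defs

/-!
# MP_663568_nt, exceptional sets: row ALG (the shift by `h`)
-/

set_option autoImplicit false
open Finset Polynomial

namespace Pool.Agent.EXS

open Pool.Agent.Lib.MP_663568_nt Pool.Agent.Lib.MP_663568_nt.Katai
  Pool.Agent.Lib.MP_663568_nt.Nul Pool.Agent.Lib.MP_663568_nt.Nul.EqA
  Pool.Agent.Lib.MP_663568_nt.H6 Pool.Agent.TU

namespace ALGx

lemma coeff_shift (t : ℕ) (G : ℝ[X]) (hG : G.natDegree ≤ t) (a : ℝ) (l : ℕ) :
    (taylor a G).coeff l = ∑ k ∈ range (t + 1), ((k + l).choose l : ℝ) * G.coeff (k + l) * a ^ k := by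
  rw [taylor_coeff, eval_eq_sum_range' (n := t + 1)]
  · refine Finset.sum_congr rfl fun k _ => ?_
    rw [hasseDeriv_coeff]
  · exact lt_of_le_of_lt (natDegree_hasseDeriv_le G l) (by omega)

lemma eval_shift (t : ℕ) (F : ℝ[X]) (hF : F.natDegree ≤ t) (r a : ℝ) :
    F.eval (r + a) = F.eval r + ∑ i : Fin t, (taylor r F).coeff (i.val + 1) * a ^ (i.val + 1) := by
  have h1 : F.eval (r + a) = (taylor r F).eval a := by
    rw [taylor_eval, add_comm]
  have h2 : (taylor r F).natDegree < t + 1 := by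
    rw [natDegree_taylor]; omega
  rw [h1, eval_eq_sum_range' h2, Finset.sum_range_succ', add_comm,
    Fin.sum_univ_eq_sum_range (fun i => (taylor r F).coeff (i + 1) * a ^ (i + 1)) t]
  congr 1
  rw [taylor_coeff_zero]
  simp

lemma sum_shift (t : ℕ) (G : ℝ[X]) (hG : G.natDegree ≤ t) (m h : ℝ) (j : Fin t) :
    m ^ (j.val + 1) * ∑ k ∈ range (t + 1), ((k + (j.val + 1)).choose (j.val + 1) : ℝ) *
      G.coeff (k + (j.val + 1)) * (-(m * h)) ^ k =
    ∑ i : Fin t, if j ≤ i then ((i.val + 1).choose (j.val + 1) : ℝ) * (-h) ^ (i.val - j.val) *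
      (m ^ (i.val + 1) * G.coeff (i.val + 1)) else 0 := by
  set g : ℕ → ℝ := fun i => ((i + 1).choose (j.val + 1) : ℝ) * (-h) ^ (i - j.val) *
    (m ^ (i + 1) * G.coeff (i + 1)) with hg
  have e1 : (∑ i : Fin t, if j ≤ i then ((i.val + 1).choose (j.val + 1) : ℝ) *
      (-h) ^ (i.val - j.val) * (m ^ (i.val + 1) * G.coeff (i.val + 1)) else 0) =
      ∑ i ∈ range t, if j.val ≤ i then g i else 0 := by
    rw [← Fin.sum_univ_eq_sum_range (fun i => if j.val ≤ i then g i else 0) t]
    rfl
  have e2 : (∑ i ∈ range t, if j.val ≤ i then g i else 0) = ∑ i ∈ Ico j.val t, g i := by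
    rw [← Finset.sum_filter]
    refine Finset.sum_congr ?_ fun _ _ => rfl
    ext i
    simp only [mem_filter, mem_range, mem_Ico]
    tauto
  rw [e1, e2, Finset.sum_Ico_eq_sum_range, Finset.mul_sum]
  have e3 : ∑ k ∈ range (t - j.val), g (j.val + k) = ∑ k ∈ range (t + 1), g (j.val + k) := by
    refine Finset.sum_subset (by intro k hk; simp only [mem_range] at hk ⊢; omega) ?_
    intro k _ hk
    simp only [mem_range, not_lt] at hk
    have : G.coeff (j.val + k + 1) = 0 := coeff_eq_zero_of_natDegree_lt (by omega)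
    simp only [hg, this]
    ring
  rw [e3]
  refine Finset.sum_congr rfl fun k _ => ?_
  simp only [hg]
  have h1 : j.val + k - j.val = k := by omega
  have h2 : k + (j.val + 1) = j.val + k + 1 := by omega
  have h3 : (-(m * h)) ^ k = m ^ k * (-h) ^ k := by rw [← mul_neg, mul_pow]
  rw [h1, h2, h3]
  ring

lemma sum_fin_le (n : ℕ) (i : Fin n) (f : ℕ → ℤ) :
    (∑ j : Fin n, if j ≤ i then f j.val else 0) = ∑ j ∈ range (i.val + 1), f j := by
  have e1 : (∑ j : Fin n, if j ≤ i then f j.val else 0) = ∑ j ∈ range n, if j ≤ i.val then f j else 0 := by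
    rw [← Fin.sum_univ_eq_sum_range (fun j => if j ≤ i.val then f j else 0) n]
    rfl
  rw [e1, ← Finset.sum_filter]
  refine Finset.sum_congr ?_ fun _ _ => rfl
  ext j
  simp only [mem_filter, mem_range]
  have := i.isLt
  omega

lemma wv_hv (t h : ℕ) : wv h (hv t h) = 0 := by
  funext i
  have e := sum_fin_le t i fun j =>
    ((i.val + 1).choose (j + 1) : ℤ) * (-(h : ℤ)) ^ (i.val - j) * (h : ℤ) ^ (j + 1)
  have h1 : wv h (hv t h) i = (-(h : ℤ)) ^ (i.val + 1) + ∑ j ∈ range (i.val + 1),
      ((i.val + 1).choose (j + 1) : ℤ) * (-(h : ℤ)) ^ (i.val - j) * (h : ℤ) ^ (j + 1) := by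
    rw [← e]
    rfl
  rw [h1]
  have h2 := add_pow (h : ℤ) (-(h : ℤ)) (i.val + 1)
  rw [add_neg_cancel, zero_pow (Nat.succ_ne_zero _), Finset.sum_range_succ'] at h2
  simp only [Nat.choose_zero_right, pow_zero, one_mul, Nat.sub_zero, Nat.cast_one, mul_one] at h2
  show _ = (0 : ℤ)
  rw [h2, add_comm]
  congr 1
  refine Finset.sum_congr rfl fun j _ => ?_
  have : i.val + 1 - (j + 1) = i.val - j := by omega
  rw [this]
  ring

lemma wv_inj {t h : ℕ} {l l' : Fin t → ℤ} (e : wv h l = wv h l') : l = l' := by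
  have key : ∀ n : ℕ, ∀ i : Fin t, i.val = n → l i = l' i := by
    intro n
    induction n using Nat.strong_induction_on with
    | _ n ih =>
      intro i hi
      have h1 := congrFun e i
      simp only [wv, add_right_inj] at h1
      rw [← Finset.add_sum_erase _ _ (mem_univ i), ← Finset.add_sum_erase _ _ (mem_univ i)] at h1
      have h2 : (∑ x ∈ univ.erase i, if x ≤ i then ((i.val + 1).choose (x.val + 1) : ℤ) *
          (-(h : ℤ)) ^ (i.val - x.val) * l x else 0) =
          ∑ x ∈ univ.erase i, if x ≤ i then ((i.val + 1).choose (x.val + 1) : ℤ) *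
          (-(h : ℤ)) ^ (i.val - x.val) * l' x else 0 := by
        refine Finset.sum_congr rfl fun x hx => ?_
        split_ifs with hxi
        · have hne : x ≠ i := (mem_erase.1 hx).1
          have hlt : x.val < n := by
            have : x < i := lt_of_le_of_ne hxi hne
            rw [← hi]
            exact this
          rw [ih x.val hlt x rfl]
        · rfl
      rw [h2, add_left_inj] at h1
      simpa using h1
  funext i
  exact key i.val i rfl

end ALGx

open ALGx in
theorem alg : ALG_stmt := by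
  intro t
  refine ⟨fun h l F hF m r => ?_, fun h l => ?_, fun l => ?_, fun H₀ N => ?_⟩
  · -- the shift
    set G : ℝ[X] := taylor r F with hG
    have hGd : G.natDegree ≤ t := by rw [hG, natDegree_taylor]; exact hF
    have e1 : F.eval (r - m * h) = F.eval r + ∑ i : Fin t, G.coeff (i.val + 1) *
        (-(m * h)) ^ (i.val + 1) := by
      rw [sub_eq_add_neg, eval_shift t F hF r]
    have e2 : ∀ i : Fin t, zv t F m (r - m * h) i = ∑ i' : Fin t, if i ≤ i' then
        ((i'.val + 1).choose (i.val + 1) : ℝ) * (-(h : ℝ)) ^ (i'.val - i.val) *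
          (m ^ (i'.val + 1) * G.coeff (i'.val + 1)) else 0 := by
      intro i
      rw [← sum_shift t G hGd m h i]
      simp only [zv, tv]
      congr 1
      have : taylor (r - m * h) F = taylor (-(m * h)) G := by
        rw [hG, taylor_taylor]
        congr 2
        ring
      rw [this, coeff_shift t G hGd]
    have e3 : psi (wv h l) F m r = ∑ i : Fin t, ((-(h : ℝ)) ^ (i.val + 1) + ∑ j : Fin t, if j ≤ i then
        ((i.val + 1).choose (j.val + 1) : ℝ) * (-(h : ℝ)) ^ (i.val - j.val) * l j else 0) *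
          (m ^ (i.val + 1) * G.coeff (i.val + 1)) := by
      simp only [psi, zv, tv, wv]
      refine Finset.sum_congr rfl fun i _ => ?_
      congr 1
      push_cast
      rfl
    rw [e1, e3, add_assoc]
    congr 1
    simp_rw [e2, add_mul, Finset.sum_add_distrib]
    congr 1
    · refine Finset.sum_congr rfl fun i _ => ?_
      rw [← mul_neg, mul_pow]
      ring
    · simp_rw [Finset.mul_sum, Finset.sum_mul]
      rw [Finset.sum_comm]
      refine Finset.sum_congr rfl fun i _ => Finset.sum_congr rfl fun j _ => ?_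
      split_ifs
      · ring
      · simp
  · constructor
    · intro e
      exact wv_inj (e.trans (wv_hv t h).symm)
    · rintro rfl
      exact wv_hv t h
  · funext i
    simp only [wv]
    rw [← Finset.add_sum_erase _ _ (mem_univ i)]
    have : (∑ x ∈ univ.erase i, if x ≤ i then ((i.val + 1).choose (x.val + 1) : ℤ) *
        (-((0 : ℕ) : ℤ)) ^ (i.val - x.val) * l x else 0) = 0 := by
      refine Finset.sum_eq_zero fun x hx => ?_
      split_ifs with hxi
      · have hne : x ≠ i := (mem_erase.1 hx).1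
        have hlt : x.val < i.val := lt_of_le_of_ne hxi fun hv => hne (Fin.ext hv)
        have : i.val - x.val ≠ 0 := by omega
        simp [this]
      · rfl
    rw [this]
    simp
  · refine ⟨(H₀ + 1) ^ t + t * (2 ^ t * (H₀ + 1) ^ t * N), fun h hh l hl i => ?_⟩
    have hH : (1 : ℤ) ≤ (H₀ : ℤ) + 1 := by omega
    have hhH : |(-(h : ℤ))| ≤ (H₀ : ℤ) + 1 := by
      rw [abs_neg, abs_of_nonneg (by positivity)]
      have : (h : ℤ) ≤ H₀ := by exact_mod_cast hh
      linarith
    have hpow : ∀ k : ℕ, k ≤ t → |(-(h : ℤ)) ^ k| ≤ ((H₀ : ℤ) + 1) ^ t := by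
      intro k hk
      rw [abs_pow]
      exact (pow_le_pow_left₀ (abs_nonneg _) hhH k).trans (pow_le_pow_right₀ hH hk)
    have h1 : |(-(h : ℤ)) ^ (i.val + 1)| ≤ ((H₀ : ℤ) + 1) ^ t := hpow _ (by have := i.isLt; omega)
    have h2 : ∀ j : Fin t, |if j ≤ i then ((i.val + 1).choose (j.val + 1) : ℤ) *
        (-(h : ℤ)) ^ (i.val - j.val) * l j else 0| ≤ 2 ^ t * ((H₀ : ℤ) + 1) ^ t * N := by
      intro j
      split_ifs
      · rw [abs_mul, abs_mul]
        have h3 : |(((i.val + 1).choose (j.val + 1) : ℕ) : ℤ)| ≤ 2 ^ t := by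
          rw [abs_of_nonneg (by positivity)]
          have h4 : (i.val + 1).choose (j.val + 1) ≤ 2 ^ (i.val + 1) := Nat.choose_le_two_pow _ _
          have h5 : 2 ^ (i.val + 1) ≤ 2 ^ t := Nat.pow_le_pow_right (by norm_num) (by have := i.isLt; omega)
          exact_mod_cast h4.trans h5
        have h6 := hpow (i.val - j.val) (by have := i.isLt; omega)
        exact mul_le_mul (mul_le_mul h3 h6 (abs_nonneg _) (by positivity)) (hl j) (abs_nonneg _)
          (by positivity)
      · rw [abs_zero]; positivity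
    simp only [wv]
    push_cast
    calc _ ≤ |(-(h : ℤ)) ^ (i.val + 1)| + |∑ j : Fin t, if j ≤ i then
          ((i.val + 1).choose (j.val + 1) : ℤ) * (-(h : ℤ)) ^ (i.val - j.val) * l j else 0| :=
          abs_add_le _ _
      _ ≤ ((H₀ : ℤ) + 1) ^ t + ∑ j : Fin t, 2 ^ t * ((H₀ : ℤ) + 1) ^ t * N :=
          add_le_add h1 ((Finset.abs_sum_le_sum_abs _ _).trans (Finset.sum_le_sum fun j _ => h2 j))
      _ = _ := by simp

end Pool.Agent.EXS
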