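import Mathlib
import Pool.Agent.Lib.TU.Defs
import Pool.Agent.Lib.MP_663568_h6.BadQ

/-!
# Exceptional sets (MP_663568_nt): definitions and row statements

Paper proof: the note tt8_MP_663568_nt_h99. Every row is a theorem with the name in lower case in
the file `Lib/EXS/<ROW>.lean`, namespace `Pool.Agent.EXS`; the hypotheses are other `_stmt`s.
-/

set_option autoImplicit false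
open Finset Polynomial

namespace Pool.Agent.EXS

open Pool.Agent.Lib.MP_663568_nt Pool.Agent.Lib.MP_663568_nt.Katai
  Pool.Agent.Lib.MP_663568_nt.Nul Pool.Agent.Lib.MP_663568_nt.Nul.EqA
  Pool.Agent.Lib.MP_663568_nt.H6 Pool.Agent.TU

/-- The product of a pair, as a real number. -/
def mr (z : ℕ × ℕ) : ℝ := (z.1 : ℝ) * z.2

/-- `z_i = m^i F_i(r)`: the Taylor coefficients of degree `1, …, t` of `x ↦ F(r + m x)`. -/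
noncomputable def zv (t : ℕ) (F : ℝ[X]) (m r : ℝ) : Fin t → ℝ :=
  fun i => m ^ (i.val + 1) * tv t F r i

/-- The phase `∑ w_i m^i F_i(r)`. -/
noncomputable def psi {t : ℕ} (w : Fin t → ℤ) (F : ℝ[X]) (m r : ℝ) : ℝ :=
  ∑ i, (w i : ℝ) * zv t F m r i

/-- The sum of the phases over the pairs of primes whose product divides `n + r`. -/
noncomputable def dsum (P P' : Finset ℕ) {t : ℕ} (w : Fin t → ℤ) (F : ℝ[X]) (n r : ℕ) : ℂ :=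
  ∑ z ∈ (P ×ˢ P').filter (fun z : ℕ × ℕ => z.1 * z.2 ∣ n + r), ee (psi w F (mr z) (r : ℝ))

/-- The number of pairs whose product divides `n + r`. -/
noncomputable def cnt (P P' : Finset ℕ) (n r : ℕ) : ℝ :=
  (((P ×ˢ P').filter (fun z : ℕ × ℕ => z.1 * z.2 ∣ n + r)).card : ℝ)

/-- The frequencies after the shift by `h`:
`w_i = (-h)^i + ∑_{1 ≤ j ≤ i} C(i, j) (-h)^(i - j) l_j`. -/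
def wv {t : ℕ} (h : ℕ) (l : Fin t → ℤ) : Fin t → ℤ := fun i =>
  (-(h : ℤ)) ^ (i.val + 1) + ∑ j : Fin t, if j ≤ i then
    ((i.val + 1).choose (j.val + 1) : ℤ) * (-(h : ℤ)) ^ (i.val - j.val) * l j else 0

/-- The vector `(h, h², …, h^t)`. -/
def hv (t h : ℕ) : Fin t → ℤ := fun i => (h : ℤ) ^ (i.val + 1)

/-- The size of the kernel. -/
noncomputable def CKn (t H₀ M : ℕ) : ℝ := ((M : ℝ) * t) ^ t * (H₀ : ℝ) ^ (t * (t + 1) / 2)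

/-- The short sum `∑_{h ≤ H₀} μ(j + h) e(b₁ h + … + b_t h^t)`. -/
noncomputable def Ab {t : ℕ} (b : Fin t → ℝ) (H₀ j : ℕ) : ℂ :=
  ∑ h ∈ Icc 1 H₀, muC (j + h) * ee (ph b (h : ℝ))

open Classical in
/-- The logarithmic weight of the `j ≤ N` with a large short sum. -/
noncomputable def EB {t : ℕ} (b : Fin t → ℝ) (κ : ℝ) (H₀ N : ℕ) : ℝ :=
  ∑ j ∈ (Icc 1 N).filter (fun j => κ * H₀ ≤ ‖Ab b H₀ j‖), (1 / (j : ℝ))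

/-- The polynomials of degree `≤ t` with top coefficient outside of the major arcs. -/
def Mn (t : ℕ) (Q δ : ℝ) : Set ℝ[X] := {F | F.natDegree ≤ t ∧ Sq Q δ (F.coeff t)}

/-- The supremum over a class of polynomials. -/
noncomputable def US (S : Set ℝ[X]) (L n : ℕ) : ℝ :=
  ⨆ F : S, ‖∑ r ∈ Icc 1 L, muC (n + r) * ee ((F : ℝ[X]).eval (r : ℝ))‖

/-- The logarithmic average of the supremum over all phases of degree `≤ t`. -/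
noncomputable def SS (t N H : ℕ) : ℝ :=
  ∑ n ∈ Icc 1 N, (1 / (n : ℝ)) * ⨆ α : Fin t → ℝ,
    ‖∑ h ∈ Icc 1 H, muC (n + h) * ee (ph α (h : ℝ))‖

/-! ### Pairs of primes and the second moment -/

/-- Row BL: bilinear sums; `Q` does not depend on `δ`. -/
def BL_stmt : Prop := ∀ (T : ℕ) (η : ℝ), 1 ≤ T → 0 < η → ∃ A₀ : ℕ, ∀ a₀ b₀ : ℕ, A₀ ≤ a₀ →
  a₀ ≤ b₀ → 1 ≤ WW (blk a₀ b₀) → ∃ Q : ℝ, 1 ≤ Q ∧ ∀ δ : ℝ, 0 < δ → δ ≤ 1 → ∃ A₁ : ℕ,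
  ∀ a₁ b₁ : ℕ, A₁ ≤ a₁ → a₁ ≤ b₁ → ∀ s : ℕ, 1 ≤ s → s ≤ T → ∀ S : ℝ[X], S.natDegree ≤ s →
  Sq Q δ (S.coeff s) →
    ‖∑ z ∈ blk a₀ b₀ ×ˢ blk a₁ b₁, ((1 / mr z : ℝ) : ℂ) * ee (S.eval (mr z))‖
      ≤ η * (WW (blk a₀ b₀) * WW (blk a₁ b₁))

open Classical in
/-- Row PR: pairs of pairs (`τ` depends only on `t`, `η`; `Q` does not depend on `δ`). -/
def PR_stmt : Prop := ∀ (t : ℕ) (η : ℝ), 1 ≤ t → 0 < η → ∃ τ : ℝ, 0 < τ ∧ ∃ A₀ : ℕ,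
  ∀ a₀ b₀ : ℕ, A₀ ≤ a₀ → a₀ ≤ b₀ → 1 ≤ WW (blk a₀ b₀) → ∃ Q : ℝ, 1 ≤ Q ∧
  ∀ δ : ℝ, 0 < δ → δ ≤ 1 → ∃ A₁ : ℕ, ∀ a₁ b₁ : ℕ, A₁ ≤ a₁ → a₁ ≤ b₁ →
  ∀ u : ℕ, 1 ≤ u → u < t → ∀ β : ℝ, Sq Q δ β →
    ∑ x ∈ ((blk a₀ b₀ ×ˢ blk a₁ b₁) ×ˢ (blk a₀ b₀ ×ˢ blk a₁ b₁)).filter (fun x =>
      nd (β * (mr x.1 ^ t * mr x.2 ^ u - mr x.1 ^ u * mr x.2 ^ t)) ≤ τ), 1 / (mr x.1 * mr x.2)
    ≤ η * (WW (blk a₀ b₀) * WW (blk a₁ b₁)) ^ 2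

open Classical in
/-- Row EX: expansion of the second moment into the coprime pairs, and the weight of the pairs
which are not coprime. -/
def EX_stmt : Prop := ∀ P P' : Finset ℕ, (∀ p ∈ P, p.Prime) → (∀ p ∈ P', p.Prime) →
  Disjoint P P' → (∀ (Φ : ℕ × ℕ → ℕ → ℝ) (L n : ℕ),
    ‖((∑ r ∈ Icc 1 L, ‖∑ z ∈ (P ×ˢ P').filter (fun z : ℕ × ℕ => z.1 * z.2 ∣ n + r),
        ee (Φ z r)‖ ^ 2 : ℝ) : ℂ) -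
      ∑ x ∈ ((P ×ˢ P') ×ˢ (P ×ˢ P')).filter (fun x =>
        Nat.Coprime (x.1.1 * x.1.2) (x.2.1 * x.2.2)),
        ∑ r ∈ (Icc 1 L).filter (fun r => (x.1.1 * x.1.2) * (x.2.1 * x.2.2) ∣ n + r),
          ee (Φ x.1 r - Φ x.2 r)‖
    ≤ L * (WW P * WW P' ^ 2 + WW P ^ 2 * WW P' + WW P * WW P') + ((#P : ℝ) * #P') ^ 2) ∧
  ∑ x ∈ ((P ×ˢ P') ×ˢ (P ×ˢ P')).filter (fun x =>
    ¬ Nat.Coprime (x.1.1 * x.1.2) (x.2.1 * x.2.2)), 1 / (mr x.1 * mr x.2)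
    ≤ WW P * WW P' ^ 2 + WW P ^ 2 * WW P' + WW P * WW P'

/-- Row PH: the difference of two phases is a polynomial in `x` of degree `≤ t - i₀` (degrees
from 1) with known top coefficient. -/
def PH_stmt : Prop := ∀ (t : ℕ) (w : Fin t → ℤ) (i₀ : Fin t), (∀ i : Fin t, i < i₀ → w i = 0) →
  ∀ F : ℝ[X], F.natDegree ≤ t → ∀ m₁ m₂ c : ℝ, ∃ G : ℝ[X],
    G.natDegree ≤ t - (i₀.val + 1) ∧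
    G.coeff (t - (i₀.val + 1)) = (w i₀ : ℝ) * (t.choose (i₀.val + 1) : ℝ) * F.coeff t *
      (m₁ ^ (i₀.val + 1) - m₂ ^ (i₀.val + 1)) * (m₁ * m₂) ^ (t - (i₀.val + 1)) ∧
    ∀ x : ℝ, psi w F m₁ (c + m₁ * m₂ * x) - psi w F m₂ (c + m₁ * m₂ * x) = G.eval x

/-- Row WE: Weyl sums over a residue class (`R` depends only on `t`, `ρ`). -/
def WE_stmt : Prop := ∀ (t : ℕ) (ρ : ℝ), 0 < ρ → ρ ≤ 1 / 2 → ∃ R : ℕ, 1 ≤ R ∧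
  ∀ (τ : ℝ) (D : ℕ), 0 < τ → 1 ≤ D → ∃ L₀ : ℕ, ∀ L n : ℕ, L₀ ≤ L →
  ∀ u : ℕ, 1 ≤ u → u ≤ t → ∀ (γ : ℝ) (g : ℝ → ℝ),
  (∀ c : ℝ, ∃ G : ℝ[X], G.natDegree ≤ u ∧ G.coeff u = γ ∧ ∀ x : ℝ, g (c + D * x) = G.eval x) →
  ‖∑ r ∈ (Icc 1 L).filter (fun r => D ∣ n + r), ee (g (r : ℝ))‖ ≤ ρ * ((L : ℝ) / D + 1) ∨
    ∃ q : ℕ, 1 ≤ q ∧ q ≤ R ∧ nd ((q : ℝ) * γ) ≤ τ

/-- Row TK: the second moment of the number of pairs (Turán and Kubilius). -/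
def TK_stmt : Prop := ∀ η : ℝ, 0 < η → ∃ W₀ : ℝ, ∀ P P' : Finset ℕ, (∀ p ∈ P, p.Prime) →
  (∀ p ∈ P', p.Prime) → Disjoint P P' → W₀ ≤ WW P → W₀ ≤ WW P' →
  ∃ H₁ : ℕ, ∀ L n : ℕ, H₁ ≤ L →
    ∑ r ∈ Icc 1 L, |cnt P P' n r - WW P * WW P'| ^ 2 ≤ η * (WW P * WW P') ^ 2 * L

/-- The second moment of the sums of phases, for the frequencies of a class. -/
def SMC (C : ∀ t : ℕ, (Fin t → ℤ) → Prop) : Prop := ∀ (t V : ℕ) (η : ℝ), 1 ≤ t → 0 < η →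
  ∃ (A₀ : ℕ) (W₀ : ℝ), ∀ a₀ b₀ : ℕ, A₀ ≤ a₀ → a₀ ≤ b₀ → W₀ ≤ WW (blk a₀ b₀) →
  ∃ Q : ℝ, 1 ≤ Q ∧ ∀ δ : ℝ, 0 < δ → δ ≤ 1 → ∃ A₁ : ℕ, ∀ a₁ b₁ : ℕ, A₁ ≤ a₁ → a₁ ≤ b₁ →
  W₀ ≤ WW (blk a₁ b₁) → ∃ H₁ : ℕ, ∀ L n : ℕ, H₁ ≤ L → ∀ F : ℝ[X], F.natDegree ≤ t →
  Sq Q δ (F.coeff t) → ∀ w : Fin t → ℤ, C t w → (∀ i, |w i| ≤ (V : ℤ)) →
    ∑ r ∈ Icc 1 L, ‖dsum (blk a₀ b₀) (blk a₁ b₁) w F n r‖ ^ 2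
      ≤ η * (WW (blk a₀ b₀) * WW (blk a₁ b₁)) ^ 2 * L

/-- Row SMU: the first frequency which is not zero is not the last one. -/
def SMU_stmt : Prop := SMC fun t w => ∃ i₀ : Fin t, i₀.val + 1 < t ∧
  (∀ i : Fin t, i < i₀ → w i = 0) ∧ w i₀ ≠ 0

/-- Row SMZ: only the last frequency is not zero. -/
def SMZ_stmt : Prop := SMC fun t w => ∃ i₀ : Fin t, i₀.val + 1 = t ∧
  (∀ i : Fin t, i < i₀ → w i = 0) ∧ w i₀ ≠ 0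

/-- Good pairs of sets of primes. -/
structure Good (t V P₀ : ℕ) (W₀ η Q δ : ℝ) (P P' : Finset ℕ) (H₁ : ℕ) : Prop where
  prime : ∀ p ∈ P, p.Prime
  prime' : ∀ p ∈ P', p.Prime
  large : ∀ p ∈ P, P₀ ≤ p
  large' : ∀ p ∈ P', P₀ ≤ p
  disj : Disjoint P P'
  hW : W₀ ≤ WW P
  hW' : W₀ ≤ WW P'
  tk : ∀ L n : ℕ, H₁ ≤ L →
    ∑ r ∈ Icc 1 L, |cnt P P' n r - WW P * WW P'| ^ 2 ≤ η * (WW P * WW P') ^ 2 * L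
  sm : ∀ L n : ℕ, H₁ ≤ L → ∀ F : ℝ[X], F.natDegree ≤ t → Sq Q δ (F.coeff t) →
    ∀ w : Fin t → ℤ, w ≠ 0 → (∀ i, |w i| ≤ (V : ℤ)) →
    ∑ r ∈ Icc 1 L, ‖dsum P P' w F n r‖ ^ 2 ≤ η * (WW P * WW P') ^ 2 * L

/-- Row GD: good sets exist. -/
def GD_stmt : Prop := ∀ (t V P₀ : ℕ) (W₀ η : ℝ), 1 ≤ t → 0 < η → ∃ Q : ℝ, 1 ≤ Q ∧
  ∀ δ : ℝ, 0 < δ → δ ≤ 1 → ∃ (P P' : Finset ℕ) (H₁ : ℕ), Good t V P₀ W₀ η Q δ P P' H₁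

/-! ### One window -/

/-- Row ALG: the shift by `h`. -/
def ALG_stmt : Prop := ∀ t : ℕ,
  (∀ (h : ℕ) (l : Fin t → ℤ) (F : ℝ[X]), F.natDegree ≤ t → ∀ m r : ℝ,
    F.eval (r - m * h) + ∑ i, (l i : ℝ) * zv t F m (r - m * h) i =
      F.eval r + psi (wv h l) F m r) ∧
  (∀ (h : ℕ) (l : Fin t → ℤ), wv h l = 0 ↔ l = hv t h) ∧
  (∀ l : Fin t → ℤ, wv 0 l = l) ∧
  (∀ H₀ N : ℕ, ∃ V : ℕ, ∀ h : ℕ, h ≤ H₀ → ∀ l : Fin t → ℤ, (∀ i, |l i| ≤ (N : ℤ)) →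
    ∀ i, |wv h l i| ≤ (V : ℤ))

/-- The kernel: a product of Fejér kernels. -/
structure Ker (t H₀ M : ℕ) (Λ : Finset (Fin t → ℤ)) (c : (Fin t → ℤ) → ℝ)
    (K : (Fin t → ℝ) → ℝ) : Prop where
  nonneg : ∀ z, 0 ≤ K z
  le : ∀ z, K z ≤ CKn t H₀ M
  eq : ∀ z, ((K z : ℝ) : ℂ) = ∑ l ∈ Λ, ((c l : ℝ) : ℂ) * ee (∑ i, (l i : ℝ) * z i)
  c0 : ∀ l, 0 ≤ c l
  c1 : ∀ l, c l ≤ 1
  zero : (0 : Fin t → ℤ) ∈ Λ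
  czero : c 0 = 1
  sum : ∑ l ∈ Λ, c l ≤ CKn t H₀ M
  hv_mem : ∀ h : ℕ, 1 ≤ h → h ≤ H₀ → hv t h ∈ Λ
  hv_ge : ∀ h : ℕ, 1 ≤ h → h ≤ H₀ → 1 - 1 / (M : ℝ) ≤ c (hv t h)

/-- Row KER: existence. -/
def KER_stmt : Prop := ∀ t H₀ M : ℕ, 1 ≤ t → 1 ≤ H₀ → 1 ≤ M →
  ∃ (Λ : Finset (Fin t → ℤ)) (c : (Fin t → ℤ) → ℝ) (K : (Fin t → ℝ) → ℝ), Ker t H₀ M Λ c K

/-- Row SHM: shift by `h` and multiplicativity, for one pair. -/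
def SHM_stmt : Prop := ∀ p p' P₀ : ℕ, p.Prime → p'.Prime → p ≠ p' → 1 ≤ P₀ → P₀ ≤ p → P₀ ≤ p' →
  ∀ (n L h : ℕ) (g : ℝ → ℂ) (B : ℝ), (∀ x, ‖g x‖ ≤ B) →
  ‖∑ j ∈ Ioc (n / (p * p')) ((n + L) / (p * p')), muC (j + h) * g ((p : ℝ) * p' * j - n) -
    ∑ r ∈ (Icc 1 L).filter (fun r => p * p' ∣ n + r),
      muC (n + r) * g ((r : ℝ) - (p : ℝ) * p' * h)‖
    ≤ B * (2 * h + 4 + 2 * (L : ℝ) / ((p : ℝ) * p' * P₀))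

/-- Row FOU: the main term, for one shift. -/
def FOU_stmt : Prop := ∀ (t H₀ M V P₀ : ℕ) (W₀ η Q δ : ℝ) (P P' : Finset ℕ) (H₁ : ℕ)
  (Λ : Finset (Fin t → ℤ)) (c : (Fin t → ℤ) → ℝ) (K : (Fin t → ℝ) → ℝ), 1 ≤ t → 0 < η →
  Ker t H₀ M Λ c K → Good t V P₀ W₀ η Q δ P P' H₁ →
  (∀ l ∈ Λ, ∀ h : ℕ, h ≤ H₀ → ∀ i, |wv h l i| ≤ (V : ℤ)) →
  ∀ L n : ℕ, H₁ ≤ L → ∀ F : ℝ[X], F.natDegree ≤ t → Sq Q δ (F.coeff t) →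
  ∀ (b : Fin t → ℝ) (h : ℕ), 1 ≤ h → h ≤ H₀ →
  ‖∑ z ∈ P ×ˢ P', ∑ r ∈ (Icc 1 L).filter (fun r => z.1 * z.2 ∣ n + r),
      muC (n + r) * (ee (ph b (h : ℝ)) * (ee (F.eval ((r : ℝ) - mr z * h)) *
        ((K (fun i => zv t F (mr z) ((r : ℝ) - mr z * h) i - b i) : ℝ) : ℂ))) -
    ((c (hv t h) * (WW P * WW P') : ℝ) : ℂ) *
      ∑ r ∈ Icc 1 L, muC (n + r) * ee (F.eval (r : ℝ))‖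
    ≤ (1 + CKn t H₀ M) * √η * (WW P * WW P') * L

/-- Row UPK: the mass of the kernel. -/
def UPK_stmt : Prop := ∀ (t H₀ M V P₀ : ℕ) (W₀ η Q δ : ℝ) (P P' : Finset ℕ) (H₁ : ℕ)
  (Λ : Finset (Fin t → ℤ)) (c : (Fin t → ℤ) → ℝ) (K : (Fin t → ℝ) → ℝ), 1 ≤ t → 0 < η →
  Ker t H₀ M Λ c K → Good t V P₀ W₀ η Q δ P P' H₁ →
  (∀ l ∈ Λ, ∀ i, |l i| ≤ (V : ℤ)) →
  ∀ L n : ℕ, H₁ ≤ L → ∀ F : ℝ[X], F.natDegree ≤ t → Sq Q δ (F.coeff t) →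
  ∀ b : Fin t → ℝ,
  ∑ z ∈ P ×ˢ P', ∑ r ∈ (Icc 1 L).filter (fun r => z.1 * z.2 ∣ n + r),
      K (fun i => zv t F (mr z) (r : ℝ) i - b i)
    ≤ (1 + (1 + CKn t H₀ M) * √η) * (WW P * WW P') * L

open Classical in
/-- Row WIN: the window inequality. -/
def WIN_stmt : Prop := ∀ (t H₀ : ℕ) (ε : ℝ), 1 ≤ t → 1 ≤ H₀ → 0 < ε → ε ≤ 1 →
  ∃ (V P₀ : ℕ) (η : ℝ), 0 < η ∧ ∀ (Q δ : ℝ) (P P' : Finset ℕ) (H₁ : ℕ),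
  Good t V P₀ 1 η Q δ P P' H₁ → ∃ L₀ : ℕ, ∀ L n : ℕ, L₀ ≤ L → ∀ F : ℝ[X], F.natDegree ≤ t →
  Sq Q δ (F.coeff t) → ∀ (b : Fin t → ℝ) (κ : ℝ), 0 ≤ κ →
  WW P * WW P' * ‖∑ r ∈ Icc 1 L, muC (n + r) * ee (F.eval (r : ℝ))‖
    ≤ (κ + ε) * (WW P * WW P') * L + 2 * CKn t H₀ ⌈8 / ε⌉₊ * ∑ z ∈ P ×ˢ P',
      (((Ioc (n / (z.1 * z.2)) ((n + L) / (z.1 * z.2))).filter
        (fun j => κ * H₀ ≤ ‖Ab b H₀ j‖)).card : ℝ)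

/-! ### All windows -/

open Classical in
/-- Row AVG: the sum over the windows. -/
def AVG_stmt : Prop := ∀ (E : ℕ → Prop) (m L N : ℕ), 2 ≤ m → L ≤ N →
  ∑ n ∈ Icc 1 N, (1 / (n : ℝ)) * (((Ioc (n / m) ((n + L) / m)).filter E).card : ℝ)
    ≤ 2 * ((L : ℝ) / m) * ∑ j ∈ (Icc 1 N).filter E, (1 / (j : ℝ)) + 6 * (L : ℝ) ^ 2

/-- Row FIX: one fixed length of the windows. -/
def FIX_stmt : Prop := ∀ (t H₀ : ℕ) (ε : ℝ), 1 ≤ t → 1 ≤ H₀ → 0 < ε → ε ≤ 1 →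
  ∃ Q : ℝ, 1 ≤ Q ∧ ∀ δ : ℝ, 0 < δ → δ ≤ 1 → ∃ L : ℕ, 1 ≤ L ∧ ∃ N₁ : ℕ, ∀ N : ℕ, N₁ ≤ N →
  ∀ (b : Fin t → ℝ) (κ : ℝ), 0 ≤ κ →
  ∑ n ∈ Icc 1 N, (1 / (n : ℝ)) * US (Mn t Q δ) L n
    ≤ L * ((κ + ε) * Real.log N + 4 * CKn t H₀ ⌈16 / ε⌉₊ * EB b κ H₀ N)

/-- Row UPX: from a fixed length to all lengths. -/
def UPX_stmt : Prop := ∀ (t : ℕ) (Q δ : ℝ) (L₁ : ℕ) (ε : ℝ), 1 ≤ L₁ → 0 < ε →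
  ∃ L₂ : ℕ, ∀ L N : ℕ, L₂ ≤ L → L ≤ N →
  ∑ n ∈ Icc 1 N, (1 / (n : ℝ)) * US (Mn t Q δ) L n
    ≤ (L : ℝ) / L₁ * ∑ n ∈ Icc 1 N, (1 / (n : ℝ)) * US (Mn t Q δ) L₁ n + ε * L * Real.log N

/-- Row X1: the inequality, uniformly for `N ≥ L ≥ L₀`. -/
def X1_stmt : Prop := ∀ (t H₀ : ℕ) (ε : ℝ), 1 ≤ t → 1 ≤ H₀ → 0 < ε → ε ≤ 1 →
  ∃ Q : ℝ, 1 ≤ Q ∧ ∀ δ : ℝ, 0 < δ → δ ≤ 1 → ∃ L₀ : ℕ, ∀ L N : ℕ, L₀ ≤ L → L ≤ N →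
  ∀ (b : Fin t → ℝ) (κ : ℝ), 0 ≤ κ →
  ∑ n ∈ Icc 1 N, (1 / (n : ℝ)) * US (Mn t Q δ) L n
    ≤ L * ((κ + ε) * Real.log N + 4 * CKn t H₀ ⌈32 / ε⌉₊ * EB b κ H₀ N)

/-- Row CL: the classification for all the phases; the linear major arcs are removed too. -/
def CL_stmt : Prop := ∀ t : ℕ, 1 ≤ t →
  (∀ ε : ℝ, 0 < ε → ∃ H₀ : ℕ, ∀ H N : ℕ, H₀ ≤ H → H ≤ N → SS t N H ≤ ε * H * Real.log N) ∨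
  ∃ s : ℕ, 1 ≤ s ∧ s ≤ t ∧ ∃ ε : ℝ, 0 < ε ∧ ∀ Q : ℝ, ∃ δ : ℝ, 0 < δ ∧ δ ≤ 1 ∧
    ∀ H₀ : ℕ, ∃ H N : ℕ, H₀ ≤ H ∧ H ≤ N ∧
      ε * H * Real.log N < ∑ n ∈ Icc 1 N, (1 / (n : ℝ)) * US (Mn s Q δ) H n

/-- Row T1: linear phases, no major arcs removed. -/
def T1_stmt : Prop := ∀ (H₀ : ℕ) (ε : ℝ), 1 ≤ H₀ → 0 < ε → ε ≤ 1 →
  ∃ L₀ : ℕ, ∀ L N : ℕ, L₀ ≤ L → L ≤ N → ∀ (b : Fin 1 → ℝ) (κ : ℝ), 0 ≤ κ →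
  SS 1 N L ≤ L * ((κ + ε) * Real.log N + 4 * CKn 1 H₀ ⌈64 / ε⌉₊ * EB b κ H₀ N)

/-- Row FIN: the dichotomy. -/
def FIN_stmt : Prop := ∀ t : ℕ, 1 ≤ t →
  (∀ ε : ℝ, 0 < ε → ∃ H₀ : ℕ, ∀ H N : ℕ, H₀ ≤ H → H ≤ N → SS t N H ≤ ε * H * Real.log N) ∨
  ∃ s : ℕ, 1 ≤ s ∧ s ≤ t ∧ ∃ c : ℝ, 0 < c ∧ ∀ H₀ N₀ : ℕ, 1 ≤ H₀ → ∃ N : ℕ, N₀ ≤ N ∧
    ∀ b : Fin s → ℝ, c / (H₀ : ℝ) ^ (s * (s + 1) / 2) * Real.log N ≤ EB b c H₀ N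

end Pool.Agent.EXS
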