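import Mathlib
import Pool.Agent.Lib.EXS.Defs

/-!
# Exceptional sets: row AVG, the sum over the windows
-/

set_option autoImplicit false
open Finset Polynomial

namespace Pool.Agent.EXS

open Pool.Agent.Lib.MP_663568_nt Pool.Agent.Lib.MP_663568_nt.Katai
  Pool.Agent.Lib.MP_663568_nt.Nul Pool.Agent.Lib.MP_663568_nt.Nul.EqA
  Pool.Agent.Lib.MP_663568_nt.H6 Pool.Agent.TU

namespace AVGx

lemma card_le (m L n : ℕ) (hm : 2 ≤ m) : (Ioc (n / m) ((n + L) / m)).card ≤ L := by
  rw [Nat.card_Ioc]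
  rcases Nat.eq_zero_or_pos L with h | h
  · subst h; simp
  · have h1 : (n + L) / m ≤ n / m + L / m + 1 := by
      rw [Nat.add_div (by omega)]
      split_ifs <;> simp
    have h2 : L / m < L := Nat.div_lt_self h (by omega)
    generalize (n + L) / m = a at *
    generalize n / m = b at *
    generalize L / m = c at *
    omega

lemma pt_le (E : ℕ → Prop) [DecidablePred E] (m L N n : ℕ) (hm : 2 ≤ m) (hL : L ≤ N)
    (hn1 : 1 ≤ n) (hn : n ≤ N) :
    (1 / (n : ℝ)) * (((Ioc (n / m) ((n + L) / m)).filter E).card : ℝ) ≤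
      (if n ≤ 2 * L then (L : ℝ) else 0) + ∑ j ∈ (Icc 1 N).filter E,
        (if n < m * j ∧ m * j ≤ n + L then 2 / ((m : ℝ) * j) else 0) := by
  have hs0 : 0 ≤ ∑ j ∈ (Icc 1 N).filter E,
      (if n < m * j ∧ m * j ≤ n + L then 2 / ((m : ℝ) * j) else 0) :=
    sum_nonneg fun j _ => by split_ifs <;> positivity
  have hn0 : (1 : ℝ) ≤ n := by exact_mod_cast hn1
  by_cases h : n ≤ 2 * L
  · rw [if_pos h]
    have h1 : (((Ioc (n / m) ((n + L) / m)).filter E).card : ℝ) ≤ L := by
      exact_mod_cast (card_le_card (filter_subset _ _)).trans (card_le m L n hm)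
    have h2 : (1 / (n : ℝ)) ≤ 1 := by
      rw [div_le_one (by linarith)]; exact hn0
    have h3 : (1 / (n : ℝ)) * (((Ioc (n / m) ((n + L) / m)).filter E).card : ℝ) ≤ 1 * L :=
      mul_le_mul h2 h1 (by positivity) zero_le_one
    linarith
  · rw [if_neg h, zero_add]
    push Not at h
    have hm0 : 0 < m := by omega
    have key : ∀ j ∈ (Ioc (n / m) ((n + L) / m)).filter E, n < m * j ∧ m * j ≤ n + L ∧ E j := by
      intro j hj
      rw [mem_filter, mem_Ioc] at hj
      refine ⟨?_, ?_, hj.2⟩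
      · have := (Nat.div_lt_iff_lt_mul hm0).1 hj.1.1
        rwa [mul_comm] at this
      · have := (Nat.le_div_iff_mul_le hm0).1 hj.1.2
        rwa [mul_comm] at this
    have h1 : (1 / (n : ℝ)) * (((Ioc (n / m) ((n + L) / m)).filter E).card : ℝ) ≤
        ∑ j ∈ (Ioc (n / m) ((n + L) / m)).filter E, 2 / ((m : ℝ) * j) := by
      rw [mul_comm, ← nsmul_eq_mul, ← sum_const]
      refine sum_le_sum fun j hj => ?_
      obtain ⟨h1, h2, _⟩ := key j hj
      have h3 : ((m * j : ℕ) : ℝ) ≤ 2 * n := by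
        have : m * j ≤ 2 * n := by omega
        exact_mod_cast this
      have h4 : (0 : ℝ) < ((m * j : ℕ) : ℝ) := by
        have : 0 < m * j := by omega
        exact_mod_cast this
      rw [Nat.cast_mul] at h3 h4
      rw [div_le_div_iff₀ (by linarith) h4]
      linarith
    refine h1.trans ?_
    rw [← sum_filter]
    refine sum_le_sum_of_subset_of_nonneg ?_ fun j _ _ => by positivity
    intro j hj
    obtain ⟨h1, h2, h3⟩ := key j hj
    rw [mem_filter, mem_filter, mem_Icc]
    have hj1 : 1 ≤ j := by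
      rcases Nat.eq_zero_or_pos j with h | h
      · subst h; omega
      · exact h
    have hj2 : 2 * j ≤ m * j := Nat.mul_le_mul_right j hm
    exact ⟨⟨⟨hj1, by omega⟩, h3⟩, h1, h2⟩

end AVGx

open AVGx

theorem avg : AVG_stmt := by
  classical
  intro E m L N hm hL
  have h1 : ∑ n ∈ Icc 1 N, (1 / (n : ℝ)) *
      (((Ioc (n / m) ((n + L) / m)).filter E).card : ℝ) ≤
      ∑ n ∈ Icc 1 N, ((if n ≤ 2 * L then (L : ℝ) else 0) + ∑ j ∈ (Icc 1 N).filter E,
        (if n < m * j ∧ m * j ≤ n + L then 2 / ((m : ℝ) * j) else 0)) := by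
    refine sum_le_sum fun n hn => ?_
    rw [mem_Icc] at hn
    exact pt_le E m L N n hm hL hn.1 hn.2
  refine h1.trans ?_
  rw [sum_add_distrib, sum_comm]
  have h2 : ∑ n ∈ Icc 1 N, (if n ≤ 2 * L then (L : ℝ) else 0) ≤ 2 * (L : ℝ) ^ 2 := by
    rw [← sum_filter, sum_const, nsmul_eq_mul]
    have h3 : ((Icc 1 N).filter (fun n => n ≤ 2 * L)).card ≤ 2 * L := by
      calc _ ≤ (Icc 1 (2 * L)).card := card_le_card (by
              intro n hn
              rw [mem_filter, mem_Icc] at hn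
              rw [mem_Icc]; exact ⟨hn.1.1, hn.2⟩)
        _ = 2 * L := by rw [Nat.card_Icc]; omega
    have h4 : ((((Icc 1 N).filter (fun n => n ≤ 2 * L)).card : ℕ) : ℝ) ≤ 2 * L := by
      exact_mod_cast h3
    calc _ ≤ (2 * L : ℝ) * L := mul_le_mul_of_nonneg_right h4 (by positivity)
      _ = _ := by ring
  have h5 : ∀ j ∈ (Icc 1 N).filter E, ∑ n ∈ Icc 1 N,
      (if n < m * j ∧ m * j ≤ n + L then 2 / ((m : ℝ) * j) else 0) ≤
      2 * ((L : ℝ) / m) * (1 / (j : ℝ)) := by
    intro j hj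
    rw [← sum_filter, sum_const, nsmul_eq_mul]
    have h3 : ((Icc 1 N).filter (fun n => n < m * j ∧ m * j ≤ n + L)).card ≤ L := by
      calc _ ≤ (Ico (m * j - L) (m * j)).card := card_le_card (by
              intro n hn
              rw [mem_filter] at hn
              rw [mem_Ico]; omega)
        _ ≤ L := by rw [Nat.card_Ico]; omega
    have h4 : ((((Icc 1 N).filter (fun n => n < m * j ∧ m * j ≤ n + L)).card : ℕ) : ℝ) ≤ L := by
      exact_mod_cast h3
    have hm0 : (m : ℝ) ≠ 0 := by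
      have : m ≠ 0 := by omega
      exact_mod_cast this
    have hj0 : (j : ℝ) ≠ 0 := by
      rw [mem_filter, mem_Icc] at hj
      have : j ≠ 0 := by omega
      exact_mod_cast this
    calc _ ≤ (L : ℝ) * (2 / ((m : ℝ) * j)) := mul_le_mul_of_nonneg_right h4 (by positivity)
      _ = _ := by field_simp
  have h6 := sum_le_sum h5
  rw [← mul_sum] at h6
  have h7 : (0 : ℝ) ≤ (L : ℝ) ^ 2 := by positivity
  linarith

end Pool.Agent.EXS
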