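import Mathlib
import Pool.Agent.Lib.EXS.Defs
import Pool.Agent.Lib.TUK.FinalE2
import Pool.Agent.Lib.TUK.E4
import Pool.Agent.Lib.TUK.E5
import Pool.Agent.Lib.TUK.E8
import Pool.Agent.Lib.TUK.E10
import Pool.Agent.Lib.WC86.Major
import Pool.Agent.Lib.WC86.Short

/-!
# Exceptional sets (MP_663568_nt), row CL: the classification for all phases
-/

set_option autoImplicit false
open Finset Polynomial

namespace Pool.Agent.EXS

open Pool.Agent.Lib.MP_663568_nt Pool.Agent.Lib.MP_663568_nt.Katai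
  Pool.Agent.Lib.MP_663568_nt.Nul Pool.Agent.Lib.MP_663568_nt.Nul.EqA
  Pool.Agent.Lib.MP_663568_nt.H6 Pool.Agent.TU

namespace CLx

lemma norm_muC_le' (n : ℕ) : ‖muC n‖ ≤ 1 := by
  rw [muC, Complex.norm_intCast]
  exact_mod_cast ArithmeticFunction.abs_moebius_le_one

lemma norm_win (L n : ℕ) (p : ℕ → ℝ) : ‖∑ r ∈ Icc 1 L, muC (n + r) * ee (p r)‖ ≤ L := by
  calc _ ≤ ∑ r ∈ Icc 1 L, ‖muC (n + r) * ee (p r)‖ := norm_sum_le _ _
    _ ≤ ∑ r ∈ Icc 1 L, (1 : ℝ) := by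
        apply sum_le_sum
        intro r _
        rw [norm_mul, norm_ee, mul_one]
        exact norm_muC_le' _
    _ = L := by simp

lemma le_US {S : Set ℝ[X]} {F : ℝ[X]} (hF : F ∈ S) (L n : ℕ) :
    ‖∑ r ∈ Icc 1 L, muC (n + r) * ee (F.eval (r : ℝ))‖ ≤ US S L n := by
  have hb : BddAbove (Set.range fun F : S =>
      ‖∑ r ∈ Icc 1 L, muC (n + r) * ee ((F : ℝ[X]).eval (r : ℝ))‖) := by
    refine ⟨L, ?_⟩
    rintro _ ⟨G, rfl⟩
    exact norm_win L n _
  exact le_ciSup hb (⟨F, hF⟩ : S)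

lemma US_nonneg (S : Set ℝ[X]) (L n : ℕ) : 0 ≤ US S L n := Real.iSup_nonneg fun _ => norm_nonneg _

/-- The polynomial with the coefficients `α`. -/
noncomputable def pv {s : ℕ} (α : Fin s → ℝ) : ℝ[X] := ∑ i, C (α i) * X ^ (i.val + 1)

lemma pv_natDegree {s : ℕ} (α : Fin s → ℝ) : (pv α).natDegree ≤ s := by
  unfold pv
  apply natDegree_sum_le_of_forall_le
  intro i _
  exact (natDegree_C_mul_X_pow_le _ _).trans i.2

lemma pv_eval {s : ℕ} (α : Fin s → ℝ) (x : ℝ) : (pv α).eval x = ph α x := by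
  unfold pv TU.ph
  rw [eval_finsetSum]
  simp

lemma pv_coeff {s : ℕ} (α : Fin s → ℝ) (i : Fin s) (hi : i.val + 1 = s) :
    (pv α).coeff s = α i := by
  unfold pv
  rw [finsetSum_coeff, Finset.sum_eq_single i]
  · rw [coeff_C_mul, coeff_X_pow, if_pos hi.symm, mul_one]
  · intro j _ hj
    rw [coeff_C_mul, coeff_X_pow, if_neg, mul_zero]
    intro h
    apply hj
    apply Fin.ext
    omega
  · intro h
    exact absurd (mem_univ _) h

lemma mem_Mn {s : ℕ} (hs : 1 ≤ s) (Q δ : ℝ) (α : Fin s → ℝ)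
    (h : ∀ q : ℕ, 1 ≤ q → (q : ℝ) ≤ Q → ∀ b : ℤ,
      δ ≤ |(q : ℝ) * α ⟨s - 1, by omega⟩ - b|) : pv α ∈ Mn s Q δ := by
  refine ⟨pv_natDegree α, ?_⟩
  rw [pv_coeff α ⟨s - 1, by omega⟩ (by simp; omega)]
  intro q hq hqQ
  exact h q hq hqQ _

lemma maj_le (Q d : ℝ) (y : ℝ) (hy : y ∈ WC86.Maj Q d) (H n : ℕ) :
    ‖∑ h ∈ Icc 1 H, muC (n + h) * ee (y * h)‖ ≤ GS WC86.lin WC86.mu (WC86.Maj Q d) H n := by
  have h1 := ws_le_GS WC86.lin WC86.mu (fun i n => (norm_ee _).le) (fun n => norm_muC_le' n)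
    (WC86.Maj Q d) H n y hy
  refine le_trans (le_of_eq ?_) h1
  unfold ws
  have h2 : ∑ h ∈ Icc 1 H, WC86.lin y (n + h) * WC86.mu (n + h) =
      ee (y * n) * ∑ h ∈ Icc 1 H, muC (n + h) * ee (y * h) := by
    rw [mul_sum]
    refine sum_congr rfl fun h _ => ?_
    rw [WC86.lin, WC86.mu, muC]
    push_cast
    rw [mul_add, ee_add]
    ring
  rw [h2, norm_mul, norm_ee, one_mul]

end CLx

open CLx

theorem cl : CL_stmt := by
  intro t ht
  have key := Pool.Agent.TUK.classification2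
    (Pool.Agent.TUK.rowEK2 (Pool.Agent.TUK.rowEK
      (Pool.Agent.TUK.rowE8 (Pool.Agent.TUK.rowAK Pool.Agent.TUK.rowAK2))
      (Pool.Agent.TUK.rowE9
        (Pool.Agent.TUK.rowE6 Pool.Agent.TUK.rowE1 (Pool.Agent.TU.rowD Pool.Agent.TU.rowA)
          Pool.Agent.TU.rowE Pool.Agent.TUK.rowE2 Pool.Agent.TUK.rowE4 Pool.Agent.TUK.rowE5
          Pool.Agent.TUK.rowE11
          (Pool.Agent.TUK.rowE6b Pool.Agent.TUK.rowE1 Pool.Agent.TU.rowE Pool.Agent.TUK.rowE2))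
        Pool.Agent.TUK.rowE7
        (Pool.Agent.TUK.rowB2K (Pool.Agent.TUK.rowAK Pool.Agent.TUK.rowAK2)
          Pool.Agent.TU.rowB1))))
    Pool.Agent.TUK.rowE10 (G := PUnit) 0 t (by omega) (fun _ => ⊤)
    (fun _ _ _ => le_rfl) (fun i j => le_top) rfl (Subsingleton.elim _ _) ⊤ isClosed_univ
    (fun i => ⟨Set.univ, isCompact_univ, fun _ _ => Subgroup.mem_top _,
      fun x _ => ⟨x, trivial, 1, Subgroup.one_mem _, (mul_one x).symm⟩⟩)
    (fun _ => (1 : ℂ)) continuous_const (Set.univ : Set (Fin t → ℝ)) (fun _ _ _ _ => trivial)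
  have hiff := key.out 0 2
  by_cases hA : Pool.Agent.TUK.SmA (⊤ : Subgroup PUnit) (fun _ => (1 : ℂ))
      (Set.univ : Set (Fin t → ℝ))
  · left
    intro ε hε
    obtain ⟨H₀, hH₀⟩ := hA ε hε
    refine ⟨H₀, fun H N hH hHN => le_trans ?_ (hH₀ H N hH hHN)⟩
    unfold SS Pool.Agent.TUK.AvgN
    refine sum_le_sum fun n _ => mul_le_mul_of_nonneg_left ?_ (by positivity)
    refine Real.iSup_le (fun α => ?_) (Real.iSup_nonneg fun _ => norm_nonneg _)
    have hb : BddAbove (Set.range fun i : {i : (PUnit × PUnit) × (Fin t → ℝ) //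
        i.2 ∈ (Set.univ : Set (Fin t → ℝ))} =>
        Pool.Agent.TUK.wd (⊤ : Subgroup PUnit) (fun _ => (1 : ℂ)) H n i.1) := by
      refine ⟨H, ?_⟩
      rintro _ ⟨i, rfl⟩
      simp only [Pool.Agent.TUK.wd, one_mul]
      exact norm_win H n _
    refine le_trans (le_of_eq ?_) (le_ciSup hb ⟨((1, 1), α), trivial⟩)
    simp only [Pool.Agent.TUK.wd, one_mul]
  · right
    have hL : ¬ Pool.Agent.TUK.SmL (⊤ : Subgroup PUnit) (fun _ => (1 : ℂ)) (max 0 1)
        (Pool.Agent.TUK.Hul (Set.univ : Set (Fin t → ℝ))) := fun h => hA (hiff.2 h)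
    unfold Pool.Agent.TUK.SmL at hL
    push Not at hL
    obtain ⟨s, hs1, hst, _, hsU⟩ := hL
    have hs1' : 1 ≤ s := by simpa using hs1
    refine ⟨s, hs1', hst, ?_⟩
    unfold Pool.Agent.TUK.SmU at hsU
    push Not at hsU
    obtain ⟨ε, hε, hQ⟩ := hsU
    refine ⟨ε / 2, by linarith, fun Q => ?_⟩
    -- the comparison of one window
    have hwd : ∀ (H n : ℕ) (i : (PUnit × PUnit) × (Fin s → ℝ)),
        Pool.Agent.TUK.wd (⊤ : Subgroup PUnit) (fun _ => (1 : ℂ)) H n i =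
          ‖∑ r ∈ Icc 1 H, muC (n + r) * ee ((pv i.2).eval (r : ℝ))‖ := by
      intro H n i
      simp only [Pool.Agent.TUK.wd, one_mul, pv_eval]
    rcases Nat.lt_or_ge 1 s with hs2 | hs2
    · obtain ⟨δ, hδ, hH⟩ := hQ ⌈Q⌉₊
      refine ⟨min δ 1, lt_min hδ one_pos, min_le_right _ _, fun H₀ => ?_⟩
      obtain ⟨H, N, hH₀, hHN, hlt⟩ := hH H₀
      refine ⟨H, N, hH₀, hHN, ?_⟩
      have hlog : 0 ≤ Real.log N := Real.log_natCast_nonneg N
      have h1 : ε / 2 * H * Real.log N ≤ ε * H * Real.log N := by gcongr; linarith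
      refine lt_of_le_of_lt h1 (lt_of_lt_of_le hlt ?_)
      unfold Pool.Agent.TUK.AvgN
      refine sum_le_sum fun n _ => mul_le_mul_of_nonneg_left ?_ (by positivity)
      refine Real.iSup_le (fun i => ?_) (US_nonneg _ _ _)
      rw [hwd]
      refine le_US (mem_Mn hs1' Q (min δ 1) i.1.2 fun q hq hqQ b => ?_) H n
      refine (min_le_left _ _).trans (i.2 (by simpa using hs2) _ (by simp; omega) q hq ?_ b)
      have : (q : ℝ) ≤ ⌈Q⌉₊ := hqQ.trans (Nat.le_ceil Q)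
      exact_mod_cast this
    · have hs : s = 1 := by omega
      subst hs
      obtain ⟨d, hd, hd1, H0, hmaj⟩ := Pool.Agent.WC86.major Pool.Agent.WC86.muAP_top (ε / 2) Q
        (by linarith)
      refine ⟨d, hd, hd1, fun H₀ => ?_⟩
      obtain ⟨δ, _, hH⟩ := hQ 0
      obtain ⟨H, N, hH₀, hHN, hlt⟩ := hH (max H₀ H0)
      refine ⟨H, N, (le_max_left _ _).trans hH₀, hHN, ?_⟩
      have h1 := hmaj H N ((le_max_right _ _).trans hH₀) hHN
      have h2 : Pool.Agent.TUK.AvgN (⊤ : Subgroup PUnit) (fun _ => (1 : ℂ))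
          (Pool.Agent.TUK.Mb (max 0 1) 1 0 δ) N H ≤
          ∑ n ∈ Icc 1 N, (1 / (n : ℝ)) * GS WC86.lin WC86.mu (WC86.Maj Q d) H n +
            ∑ n ∈ Icc 1 N, (1 / (n : ℝ)) * US (Mn 1 Q d) H n := by
        rw [← sum_add_distrib]
        unfold Pool.Agent.TUK.AvgN
        refine sum_le_sum fun n _ => ?_
        rw [← mul_add]
        refine mul_le_mul_of_nonneg_left ?_ (by positivity)
        refine Real.iSup_le (fun i => ?_) (add_nonneg (GS_nonneg _ _ _ _ _) (US_nonneg _ _ _))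
        by_cases hy : i.1.2 ⟨1 - 1, by omega⟩ ∈ WC86.Maj Q d
        · refine le_trans ?_ (le_add_of_nonneg_right (US_nonneg _ _ _))
          refine le_trans (le_of_eq ?_) (maj_le Q d _ hy H n)
          simp [Pool.Agent.TUK.wd, TU.ph]
        · refine le_trans ?_ (le_add_of_nonneg_left (GS_nonneg _ _ _ _ _))
          rw [hwd]
          refine le_US (mem_Mn le_rfl Q d i.1.2 fun q hq hqQ b => ?_) H n
          by_contra hlt'
          push Not at hlt'
          exact hy ⟨q, hq, hqQ, b, hlt'⟩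
      linarith

end Pool.Agent.EXS
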