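import Mathlib
import Pool.Agent.Lib.EXS.CL

/-!
# Exceptional sets (MP_663568_nt): the classification for every set of phases

`UU s`: the average over the phases of degree `≤ s` with minor top coefficient is small. For every
set `B` of phases the average is small iff `UU s` for the degrees `s` of the non-null rational
sections.
-/

set_option autoImplicit false
open Finset Polynomial

namespace Pool.Agent.EXS

open Pool.Agent.Lib.MP_663568_nt Pool.Agent.Lib.MP_663568_nt.Katai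
  Pool.Agent.Lib.MP_663568_nt.Nul Pool.Agent.Lib.MP_663568_nt.Nul.EqA
  Pool.Agent.Lib.MP_663568_nt.H6 Pool.Agent.TU

/-- The average over the phases of degree `≤ s` with minor top coefficient is small. -/
def UU (s : ℕ) : Prop := ∀ ε : ℝ, 0 < ε → ∃ Q : ℕ, ∀ δ : ℝ, 0 < δ → ∃ H₀ : ℕ, ∀ H N : ℕ,
  H₀ ≤ H → H ≤ N → ∑ n ∈ Icc 1 N, (1 / (n : ℝ)) * US (Mn s Q δ) H n ≤ ε * H * Real.log N

/-- The average for the phases of the set `B`. -/
noncomputable def SB {t : ℕ} (B : Set (Fin t → ℝ)) (N H : ℕ) : ℝ :=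
  ∑ n ∈ Icc 1 N, (1 / (n : ℝ)) * ⨆ α : {α : Fin t → ℝ // α ∈ B},
    ‖∑ h ∈ Icc 1 H, muC (n + h) * ee (TU.ph (α : Fin t → ℝ) (h : ℝ))‖

/-- The average for the set `B` is small. -/
def SmB {t : ℕ} (B : Set (Fin t → ℝ)) : Prop := ∀ ε : ℝ, 0 < ε → ∃ H₀ : ℕ, ∀ H N : ℕ,
  H₀ ≤ H → H ≤ N → SB B N H ≤ ε * H * Real.log N

namespace AllBx

open CLx

lemma avg_eq {t : ℕ} (B : Set (Fin t → ℝ)) (N H : ℕ) :
    Pool.Agent.TUK.AvgN (⊤ : Subgroup PUnit) (fun _ => (1 : ℂ)) B N H = SB B N H := by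
  unfold Pool.Agent.TUK.AvgN SB
  refine sum_congr rfl fun n _ => ?_
  congr 1
  have hwd : ∀ i : (PUnit × PUnit) × (Fin t → ℝ),
      Pool.Agent.TUK.wd (⊤ : Subgroup PUnit) (fun _ => (1 : ℂ)) H n i =
        ‖∑ h ∈ Icc 1 H, muC (n + h) * ee (TU.ph i.2 (h : ℝ))‖ := by
    intro i
    simp only [Pool.Agent.TUK.wd, one_mul]
  apply le_antisymm
  · refine Real.iSup_le (fun i => ?_) (Real.iSup_nonneg fun _ => norm_nonneg _)
    rw [hwd]
    have hb : BddAbove (Set.range fun α : {α : Fin t → ℝ // α ∈ B} =>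
        ‖∑ h ∈ Icc 1 H, muC (n + h) * ee (TU.ph (α : Fin t → ℝ) (h : ℝ))‖) := by
      refine ⟨H, ?_⟩
      rintro _ ⟨α, rfl⟩
      exact norm_win H n _
    exact le_ciSup hb ⟨i.1.2, i.2⟩
  · refine Real.iSup_le (fun α => ?_) (Real.iSup_nonneg fun _ => norm_nonneg _)
    have hb : BddAbove (Set.range fun i : {i : (PUnit × PUnit) × (Fin t → ℝ) // i.2 ∈ B} =>
        Pool.Agent.TUK.wd (⊤ : Subgroup PUnit) (fun _ => (1 : ℂ)) H n i.1) := by
      refine ⟨H, ?_⟩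
      rintro _ ⟨i, rfl⟩
      simp only [hwd]
      exact norm_win H n _
    refine le_trans (le_of_eq ?_) (le_ciSup hb ⟨((1, 1), α.1), α.2⟩)
    rw [hwd]

/-- a minor polynomial is a phase of the set `Mb` up to a constant -/
lemma US_le_SB {s : ℕ} (_hs : 1 ≤ s) (b Q : ℕ) (δ : ℝ) (H n : ℕ) :
    US (Mn s Q δ) H n ≤ ⨆ α : {α : Fin s → ℝ // α ∈ Pool.Agent.TUK.Mb b s Q δ},
      ‖∑ h ∈ Icc 1 H, muC (n + h) * ee (TU.ph (α : Fin s → ℝ) (h : ℝ))‖ := by
  refine Real.iSup_le (fun F => ?_) (Real.iSup_nonneg fun _ => norm_nonneg _)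
  obtain ⟨F, hF, hSq⟩ := F
  have hb : BddAbove (Set.range fun α : {α : Fin s → ℝ // α ∈ Pool.Agent.TUK.Mb b s Q δ} =>
      ‖∑ h ∈ Icc 1 H, muC (n + h) * ee (TU.ph (α : Fin s → ℝ) (h : ℝ))‖) := by
    refine ⟨H, ?_⟩
    rintro _ ⟨α, rfl⟩
    exact norm_win H n _
  have hmem : (fun i : Fin s => F.coeff (i.val + 1)) ∈ Pool.Agent.TUK.Mb b s Q δ := by
    intro _ i hi q hq hqQ z
    simp only [hi]
    refine (hSq q hq (by exact_mod_cast hqQ)).trans ?_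
    unfold nd
    exact round_le _ _
  refine le_trans (le_of_eq ?_) (le_ciSup hb ⟨_, hmem⟩)
  have h1 : ∀ x : ℝ, F.eval x = F.coeff 0 + TU.ph (fun i : Fin s => F.coeff (i.val + 1)) x := by
    intro x
    rw [eval_eq_sum_range' (n := s + 1) (by omega), Finset.sum_range_succ']
    unfold TU.ph
    rw [Finset.sum_range]
    simp
    ring
  have h2 : ∑ h ∈ Icc 1 H, muC (n + h) * ee (F.eval (h : ℝ)) =
      ee (F.coeff 0) * ∑ h ∈ Icc 1 H, muC (n + h) *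
        ee (TU.ph (fun i : Fin s => F.coeff (i.val + 1)) (h : ℝ)) := by
    rw [mul_sum]
    refine sum_congr rfl fun h _ => ?_
    rw [h1, ee_add]
    ring
  change ‖∑ h ∈ Icc 1 H, muC (n + h) * ee (F.eval (h : ℝ))‖ = _
  rw [h2, norm_mul, norm_ee, one_mul]

lemma sum_US_le {s : ℕ} (hs : 1 ≤ s) (b Q : ℕ) (δ : ℝ) (N H : ℕ) :
    ∑ n ∈ Icc 1 N, (1 / (n : ℝ)) * US (Mn s Q δ) H n ≤ SB (Pool.Agent.TUK.Mb b s Q δ) N H :=
  sum_le_sum fun n _ => mul_le_mul_of_nonneg_left (US_le_SB hs b Q δ H n) (by positivity)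

/-- for `s > b` the phases of `Mb` are minor -/
lemma SB_le_US {s b : ℕ} (hs : b < s) (Q : ℕ) (δ : ℝ) (N H : ℕ) :
    SB (Pool.Agent.TUK.Mb b s Q δ) N H ≤ ∑ n ∈ Icc 1 N, (1 / (n : ℝ)) * US (Mn s Q δ) H n := by
  refine sum_le_sum fun n _ => mul_le_mul_of_nonneg_left ?_ (by positivity)
  refine Real.iSup_le (fun α => ?_) (US_nonneg _ _ _)
  have h1 : pv α.1 ∈ Mn s Q δ := by
    refine mem_Mn (by omega) Q δ α.1 fun q hq hqQ z => ?_
    exact α.2 hs ⟨s - 1, by omega⟩ (by simp; omega) q hq (by exact_mod_cast hqQ) z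
  have h2 := le_US h1 H n
  simp only [pv_eval] at h2
  exact h2

/-- linear phases: the major arcs -/
lemma SB_le_major (Q : ℕ) (δ d : ℝ) (N H : ℕ) (b Q' : ℕ) :
    SB (Pool.Agent.TUK.Mb b 1 Q' δ) N H ≤
      ∑ n ∈ Icc 1 N, (1 / (n : ℝ)) * GS WC86.lin WC86.mu (WC86.Maj Q d) H n +
        ∑ n ∈ Icc 1 N, (1 / (n : ℝ)) * US (Mn 1 Q d) H n := by
  rw [← sum_add_distrib]
  refine sum_le_sum fun n _ => ?_
  rw [← mul_add]
  refine mul_le_mul_of_nonneg_left ?_ (by positivity)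
  refine Real.iSup_le (fun α => ?_) (add_nonneg (GS_nonneg _ _ _ _ _) (US_nonneg _ _ _))
  by_cases hy : α.1 ⟨1 - 1, by omega⟩ ∈ WC86.Maj Q d
  · refine le_trans ?_ (le_add_of_nonneg_right (US_nonneg _ _ _))
    refine le_trans (le_of_eq ?_) (maj_le Q d _ hy H n)
    simp [TU.ph]
  · refine le_trans ?_ (le_add_of_nonneg_left (GS_nonneg _ _ _ _ _))
    have h1 : pv α.1 ∈ Mn 1 Q d := by
      refine mem_Mn le_rfl Q d α.1 fun q hq hqQ z => ?_
      by_contra hlt'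
      push Not at hlt'
      exact hy ⟨q, hq, hqQ, z, hlt'⟩
    have h2 := le_US h1 H n
    simp only [pv_eval] at h2
    exact h2

lemma smU_iff {s : ℕ} (hs : 1 ≤ s) :
    Pool.Agent.TUK.SmU (⊤ : Subgroup PUnit) (fun _ => (1 : ℂ)) (max 0 1) s ↔ UU s := by
  unfold Pool.Agent.TUK.SmU UU
  simp only [avg_eq]
  constructor
  · intro h ε hε
    obtain ⟨Q, hQ⟩ := h ε hε
    refine ⟨Q, fun δ hδ => ?_⟩
    obtain ⟨H₀, hH⟩ := hQ δ hδ
    exact ⟨H₀, fun H N h1 h2 => (sum_US_le hs _ Q δ N H).trans (hH H N h1 h2)⟩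
  · intro h ε hε
    rcases Nat.lt_or_ge 1 s with hs2 | hs2
    · obtain ⟨Q, hQ⟩ := h ε hε
      refine ⟨Q, fun δ hδ => ?_⟩
      obtain ⟨H₀, hH⟩ := hQ δ hδ
      exact ⟨H₀, fun H N h1 h2 => (SB_le_US (by simpa using hs2) Q δ N H).trans (hH H N h1 h2)⟩
    · have hs1 : s = 1 := by omega
      subst hs1
      obtain ⟨Q, hQ⟩ := h (ε / 2) (by linarith)
      obtain ⟨d, hd, hd1, H0, hmaj⟩ := Pool.Agent.WC86.major Pool.Agent.WC86.muAP_top (ε / 2) Q
        (by linarith)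
      obtain ⟨H₀, hH⟩ := hQ d hd
      refine ⟨0, fun δ _ => ⟨max H₀ H0, fun H N h1 h2 => ?_⟩⟩
      have h3 := hH H N ((le_max_left _ _).trans h1) h2
      have h4 := hmaj H N ((le_max_right _ _).trans h1) h2
      have h5 := SB_le_major Q δ d N H (max 0 1) 0
      linarith

end AllBx

open AllBx

/-- **The classification for every set of phases.** -/
theorem clB (t : ℕ) (ht : 1 ≤ t) (B : Set (Fin t → ℝ)) : SmB B ↔
    ∀ s : ℕ, 1 ≤ s → s ≤ t → (∃ r : Fin t → ℚ, MeasureTheory.volume {y : Fin s → ℝ |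
      TU.glue s y (fun i => ((r i : ℚ) : ℝ)) ∈ Pool.Agent.TUK.Hul B} ≠ 0) → UU s := by
  have key := Pool.Agent.TUK.classification2
    (Pool.Agent.TUK.rowEK2 (Pool.Agent.TUK.rowEK
      (Pool.Agent.TUK.rowE8 (Pool.Agent.TUK.rowAK Pool.Agent.TUK.rowAK2))
      (Pool.Agent.TUK.rowE9
        (Pool.Agent.TUK.rowE6 Pool.Agent.TUK.rowE1 (Pool.Agent.TU.rowD Pool.Agent.TU.rowA)
          Pool.Agent.TU.rowE Pool.Agent.TUK.rowE2 Pool.Agent.TUK.rowE4 Pool.Agent.TUK.rowE5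
          Pool.Agent.TUK.rowE11
          (Pool.Agent.TUK.rowE6b Pool.Agent.TUK.rowE1 Pool.Agent.TU.rowE Pool.Agent.TUK.rowE2))
        Pool.Agent.TUK.rowE7
        (Pool.Agent.TUK.rowB2K (Pool.Agent.TUK.rowAK Pool.Agent.TUK.rowAK2)
          Pool.Agent.TU.rowB1))))
    Pool.Agent.TUK.rowE10 (G := PUnit) 0 t (by omega) (fun _ => ⊤)
    (fun _ _ _ => le_rfl) (fun i j => le_top) rfl (Subsingleton.elim _ _) ⊤ isClosed_univ
    (fun i => ⟨Set.univ, isCompact_univ, fun _ _ => Subgroup.mem_top _,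
      fun x _ => ⟨x, trivial, 1, Subgroup.one_mem _, (mul_one x).symm⟩⟩)
    (fun _ => (1 : ℂ)) continuous_const B (fun α hα β hβ => by
      have : β = α := funext fun i => hβ i (Nat.zero_le _)
      rw [this]
      exact hα)
  have hiff := key.out 0 2
  have h1 : Pool.Agent.TUK.SmA (⊤ : Subgroup PUnit) (fun _ => (1 : ℂ)) B ↔ SmB B := by
    unfold Pool.Agent.TUK.SmA SmB
    simp only [avg_eq]
  rw [← h1, hiff]
  unfold Pool.Agent.TUK.SmL
  constructor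
  · intro h s hs hst hr
    exact (smU_iff hs).1 (h s (by simpa using hs) hst hr)
  · intro h s hs hst hr
    have hs1 : 1 ≤ s := by simpa using hs
    exact (smU_iff hs1).2 (h s hs1 hst hr)

end Pool.Agent.EXS
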