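import Mathlib
import Pool.Agent.Lib.EXS.Defs
import Pool.Agent.Lib.MP_663568_h6.MainQ

/-!
# Exceptional sets (MP_663568_nt), row BL: bilinear sums over two blocks of primes
-/

set_option autoImplicit false
open Finset Polynomial

namespace Pool.Agent.EXS

open Pool.Agent.Lib.MP_663568_nt Pool.Agent.Lib.MP_663568_nt.Katai
  Pool.Agent.Lib.MP_663568_nt.Nul Pool.Agent.Lib.MP_663568_nt.Nul.EqA
  Pool.Agent.Lib.MP_663568_nt.H6 Pool.Agent.TU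

theorem bl : BL_stmt := by
  intro T η _ hη
  obtain ⟨D, C, A, hD, hC, hA, hsc⟩ := scaleT T
  -- the parameter `s`
  obtain ⟨s, hs1, hs⟩ : ∃ s : ℕ, 1 ≤ s ∧ C * (2 * D * (1 / 4 : ℝ) ^ s) ≤ η ^ 2 := by
    have h1 : Filter.Tendsto (fun s : ℕ => C * (2 * D * (1 / 4 : ℝ) ^ s)) Filter.atTop
        (nhds (C * (2 * D * 0))) :=
      ((tendsto_pow_atTop_nhds_zero_of_lt_one (by norm_num) (by norm_num)).const_mul _).const_mul _
    have h2 : C * (2 * D * 0) < η ^ 2 := by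
      have : 0 < η ^ 2 := by positivity
      simpa using this
    obtain ⟨s, hs, hs'⟩ := ((h1.eventually (gt_mem_nhds h2)).and
      (Filter.eventually_ge_atTop 1)).exists
    exact ⟨s, hs', hs.le⟩
  refine ⟨D * s + 7, fun a₀ b₀ ha₀ hab₀ hW₀ => ?_⟩
  refine ⟨max 1 ((A : ℝ) * ((4 : ℝ) ^ b₀) ^ A), le_max_left _ _, fun δ hδ hδ1 => ?_⟩
  obtain ⟨a', ha'⟩ : ∃ a' : ℕ, (A : ℝ) * ((4 : ℝ) ^ b₀ / δ) ^ A ≤ (4 : ℝ) ^ a' := by
    obtain ⟨k, hk⟩ := pow_unbounded_of_one_lt ((A : ℝ) * ((4 : ℝ) ^ b₀ / δ) ^ A)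
      (show (1 : ℝ) < 4 by norm_num)
    exact ⟨k, hk.le⟩
  refine ⟨max 7 a', fun a₁ b₁ ha₁ hab₁ t ht1 htT S hS hβ => ?_⟩
  have e1 : ∑ z ∈ blk a₀ b₀ ×ˢ blk a₁ b₁, ((1 / mr z : ℝ) : ℂ) * ee (S.eval (mr z))
      = ∑ p ∈ blk a₀ b₀, ((1 / (p : ℝ) : ℝ) : ℂ) *
        ∑ p' ∈ blk a₁ b₁, ((1 / (p' : ℝ) : ℝ) : ℂ) * ee (S.eval ((p : ℝ) * p')) := by
    rw [sum_product]
    apply sum_congr rfl; intro p _
    rw [mul_sum]
    apply sum_congr rfl; intro p' _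
    have e2 : ((1 / mr (p, p') : ℝ) : ℂ) = ((1 / (p : ℝ) : ℝ) : ℂ) * ((1 / (p' : ℝ) : ℝ) : ℂ) := by
      rw [← Complex.ofReal_mul, mr]
      congr 1
      field_simp
    rw [e2, mul_assoc, mr]
  rw [e1]
  refine main_auxq D s b₀ hD C η hC hη (by omega) hs (blk a₀ b₀) ?_ _ rfl hW₀ _ (WW_nonneg _)
    (fun m : ℕ => ∑ p' ∈ blk a₁ b₁, ((1 / (p' : ℝ) : ℝ) : ℂ) * ee (S.eval ((m : ℝ) * p'))) ?_
  · intro p hp
    rw [mem_blk] at hp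
    have h3 : (2 : ℕ) ^ (2 * (D * s)) ≤ 4 ^ a₀ := by
      rw [pow_mul, show (2 : ℕ) ^ 2 = 4 by norm_num]
      exact Nat.pow_le_pow_right (by norm_num) (by omega)
    have h4 : (4 : ℕ) ^ b₀ = 2 ^ (2 * b₀) := by rw [pow_mul]; norm_num
    have h5 : 0 < 2 ^ (2 * b₀) := by positivity
    rw [mem_Ico, pow_succ]
    omega
  · intro i hi
    rw [mem_Ico] at hi
    have hDi : D ≤ i := by
      have : D ≤ D * s := Nat.le_mul_of_pos_right _ (by omega)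
      omega
    have h2i : (2 : ℝ) ^ i ≤ (4 : ℝ) ^ b₀ := by
      have : (4 : ℝ) ^ b₀ = 2 ^ (2 * b₀) := by rw [pow_mul]; norm_num
      rw [this]
      exact pow_le_pow_right₀ (by norm_num) (by omega)
    refine hsc t ht1 htT i hDi δ hδ hδ1 S hS (hβ.mono ?_ le_rfl) a₁ b₁ (by omega) ?_ hab₁
    · refine le_trans ?_ (le_max_right _ _)
      gcongr
    · have h1 : (A : ℝ) * ((2 : ℝ) ^ i / δ) ^ A ≤ A * ((4 : ℝ) ^ b₀ / δ) ^ A := by gcongr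
      refine h1.trans (ha'.trans ?_)
      exact pow_le_pow_right₀ (by norm_num) (by omega)

end Pool.Agent.EXS
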