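import Mathlib
import Pool.Agent.Lib.EXS.Defs
import Pool.Agent.Lib.XS.T1f
import Pool.Agent.Lib.XS.Conv2

/-!
# Exceptional sets: the equivalence, and the inequality for linear phases
-/

set_option autoImplicit false
open Finset Polynomial

namespace Pool.Agent.EXS

open Pool.Agent.Lib.MP_663568_nt Pool.Agent.Lib.MP_663568_nt.Katai
  Pool.Agent.Lib.MP_663568_nt.Nul Pool.Agent.Lib.MP_663568_nt.Nul.EqA
  Pool.Agent.Lib.MP_663568_nt.H6

namespace EQVx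

lemma phs_eq {t : ℕ} (b : Fin t → ℝ) (h : ℕ) : XS.phs b h = TU.ph b (h : ℝ) := rfl

lemma blkT_eq {t : ℕ} (b : Fin t → ℝ) (H n : ℕ) : XS.blkT b H n = ‖Ab b H n‖ := rfl

lemma ST_eq (t N H : ℕ) : XS.ST t N H = SS t N H := rfl

lemma ExcT_eq {t : ℕ} (b : Fin t → ℝ) (c : ℝ) (H N : ℕ) : XS.ExcT b c H N = EB b c H N := by
  unfold XS.ExcT EB
  rw [sum_filter]
  exact sum_congr rfl fun n _ => by rw [blkT_eq]

/-- linear phases -/
lemma lin_eq (b : Fin 1 → ℝ) (H n : ℕ) : XS.blkT b H n =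
    ‖∑ h ∈ Icc 1 H, ((ArithmeticFunction.moebius (n + h) : ℤ) : ℂ) *
      Complex.exp (2 * Real.pi * Complex.I * (b 0 : ℝ) * h)‖ := by
  unfold XS.blkT
  congr 1
  refine sum_congr rfl fun h _ => ?_
  congr 1
  unfold XS.phs ee
  rw [Fin.sum_univ_one]
  congr 1
  push_cast
  simp
  ring

lemma exc_le (b : Fin 1 → ℝ) (c : ℝ) (H N : ℕ) : XS.Exc (b 0) c H N ≤ EB b c H N := by
  rw [← ExcT_eq]
  unfold XS.Exc XS.ExcT
  refine sum_le_sum fun n _ => ?_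
  rw [lin_eq]
  split_ifs with h1 h2
  · exact le_rfl
  · exact absurd h1.le h2
  · positivity
  · exact le_rfl

lemma SR_eq (N H : ℕ) : XS.SR N H = SS 1 N H := by
  rw [← ST_eq]
  unfold XS.SR XS.ST
  refine sum_congr rfl fun n _ => ?_
  congr 1
  apply le_antisymm
  · have hb : BddAbove (Set.range fun b : Fin 1 → ℝ => XS.blkT b H n) :=
      ⟨H, by rintro _ ⟨b, rfl⟩; exact XS.blkT_le b H n⟩
    apply ciSup_le
    intro α
    have h1 := le_ciSup hb (fun _ : Fin 1 => α)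
    simp only [lin_eq] at h1
    refine le_trans h1 (le_of_eq ?_)
    exact iSup_congr fun b => (lin_eq b H n).symm
  · apply ciSup_le
    intro b
    rw [lin_eq]
    have hb : BddAbove (Set.range fun α : ℝ => ‖∑ h ∈ Icc 1 H,
        ((ArithmeticFunction.moebius (n + h) : ℤ) : ℂ) *
          Complex.exp (2 * Real.pi * Complex.I * α * h)‖) := by
      refine ⟨H, ?_⟩
      rintro _ ⟨α, rfl⟩
      have := XS.blkT_le (fun _ : Fin 1 => α) H n
      rw [lin_eq] at this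
      exact this
    exact le_ciSup hb (b 0)

/-- fewer phases -/
lemma SS_mono (s t N H : ℕ) (hst : s ≤ t) : SS s N H ≤ SS t N H := by
  rw [← ST_eq, ← ST_eq]
  unfold XS.ST
  refine sum_le_sum fun n _ => mul_le_mul_of_nonneg_left ?_ (by positivity)
  apply ciSup_le
  intro b
  obtain ⟨b', hb'⟩ : ∃ b' : Fin t → ℝ, b' = fun i => if h : i.val < s then b ⟨i.val, h⟩ else 0 :=
    ⟨_, rfl⟩
  have h1 : XS.blkT b H n = XS.blkT b' H n := by
    unfold XS.blkT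
    congr 1
    refine sum_congr rfl fun h _ => ?_
    congr 2
    unfold XS.phs
    have e1 : ∀ (m : ℕ) (f : Fin m → ℝ), ∑ i : Fin m, f i =
        ∑ i ∈ range m, if hi : i < m then f ⟨i, hi⟩ else 0 := by
      intro m f
      rw [← Fin.sum_univ_eq_sum_range (fun i => if hi : i < m then f ⟨i, hi⟩ else 0) m]
      exact sum_congr rfl fun i _ => by rw [dif_pos i.isLt]
    rw [e1 s, e1 t]
    have e2 : ∑ i ∈ range s, (if hi : i < s then
        b ⟨i, hi⟩ * (h : ℝ) ^ ((⟨i, hi⟩ : Fin s).val + 1) else 0) =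
        ∑ i ∈ range t, (if hi : i < s then
          b ⟨i, hi⟩ * (h : ℝ) ^ ((⟨i, hi⟩ : Fin s).val + 1) else 0) := by
      apply sum_subset (range_mono hst)
      intro i _ hi'
      rw [mem_range] at hi'
      rw [dif_neg hi']
    rw [e2]
    refine sum_congr rfl fun i hi => ?_
    rw [mem_range] at hi
    rw [dif_pos hi, hb']
    by_cases h2 : i < s
    · rw [dif_pos h2]
      simp only [dif_pos h2]
    · rw [dif_neg h2]
      simp only [dif_neg h2, zero_mul]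
  rw [h1]
  exact XS.blkT_le_sup b' H n

end EQVx

open EQVx

/-- The inequality for linear phases. -/
theorem ineq_one (ε : ℝ) (hε : 0 < ε) (H : ℕ) (hH : 1 ≤ H) :
    ∃ H₀ : ℕ, ∀ N H₁ : ℕ, H₀ ≤ H₁ → H₁ ≤ N → ∀ (b : Fin 1 → ℝ) (κ : ℝ), 0 ≤ κ →
      SS 1 N H₁ ≤ (κ + √(Real.pi * H * (EB b κ H N / Real.log N)) + ε) * H₁ * Real.log N := by
  obtain ⟨H₀, h⟩ := XS.inequality ε hε H hH
  refine ⟨H₀ + 1, fun N H₁ hH₁ hN b κ hκ => ?_⟩
  have h1 := h N H₁ (by omega) hN (b 0) κ hκ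
  rw [SR_eq] at h1
  refine h1.trans ?_
  have hN1 : (1 : ℝ) ≤ N := by
    have : 1 ≤ N := by omega
    exact_mod_cast this
  have hl := Real.log_nonneg hN1
  have h2 := exc_le b κ H N
  gcongr

/-- The converse. -/
theorem conv_EB (t : ℕ) (ht : 1 ≤ t) (h : ∀ ε : ℝ, 0 < ε → ∃ H₀ : ℕ, ∀ H N : ℕ, H₀ ≤ H →
    H ≤ N → SS t N H ≤ ε * H * Real.log N) (c : ℝ) (hc : 0 < c) :
    ∃ H N₀ : ℕ, 1 ≤ H ∧ ∀ N : ℕ, N₀ ≤ N → ∃ b : Fin t → ℝ,
      (H : ℝ) ^ (t * (t + 1) / 2) * EB b c H N < c * Real.log N := by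
  have h' : ∀ ε : ℝ, 0 < ε → ∃ H₀ : ℕ, ∀ N H : ℕ, H₀ ≤ H → H ≤ N →
      XS.ST t N H ≤ ε * H * Real.log N := by
    intro ε hε
    obtain ⟨H₀, h⟩ := h ε hε
    exact ⟨H₀, fun N H h1 h2 => h H N h1 h2⟩
  obtain ⟨H, N₀, hH, h1⟩ := XS.conv_exists t ht h' c hc
  refine ⟨H, N₀, hH, fun N hN => ?_⟩
  obtain ⟨b, hb⟩ := h1 N hN
  rw [ExcT_eq] at hb
  exact ⟨b, hb⟩

/-- **The equivalence.** -/
theorem eqv (hF : FIN_stmt) (t : ℕ) (ht : 1 ≤ t) :
    (∀ ε : ℝ, 0 < ε → ∃ H₀ : ℕ, ∀ H N : ℕ, H₀ ≤ H → H ≤ N → SS t N H ≤ ε * H * Real.log N) ↔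
    ∀ s : ℕ, 1 ≤ s → s ≤ t → ∀ c : ℝ, 0 < c → ∃ H N₀ : ℕ, 1 ≤ H ∧ ∀ N : ℕ, N₀ ≤ N →
      ∃ b : Fin s → ℝ, (H : ℝ) ^ (s * (s + 1) / 2) * EB b c H N < c * Real.log N := by
  constructor
  · intro h s hs hst c hc
    apply conv_EB s hs _ c hc
    intro ε hε
    obtain ⟨H₀, h⟩ := h ε hε
    exact ⟨H₀, fun H N h1 h2 => (SS_mono s t N H hst).trans (h H N h1 h2)⟩
  · intro h
    rcases hF t ht with h1 | ⟨s, hs, hst, c, hc, h1⟩
    · exact h1
    · exfalso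
      obtain ⟨H, N₀, hH, h2⟩ := h s hs hst c hc
      obtain ⟨N, hN, h3⟩ := h1 H N₀ hH
      obtain ⟨b, hb⟩ := h2 N hN
      have h4 := h3 b
      have hHr : (0 : ℝ) < H := by exact_mod_cast hH
      rw [div_mul_eq_mul_div, div_le_iff₀ (by positivity)] at h4
      linarith

end Pool.Agent.EXS
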