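import Mathlib
import Pool.Agent.Lib.EXS.Defs

/-!
# Exceptional sets (MP_663568_nt), rows X1 and FIN: the inequality for all scales, the dichotomy
-/

set_option autoImplicit false
open Finset Polynomial

namespace Pool.Agent.EXS

open Pool.Agent.Lib.MP_663568_nt Pool.Agent.Lib.MP_663568_nt.Katai
  Pool.Agent.Lib.MP_663568_nt.Nul Pool.Agent.Lib.MP_663568_nt.Nul.EqA
  Pool.Agent.Lib.MP_663568_nt.H6 Pool.Agent.TU

theorem x1 (hF : FIX_stmt) (hU : UPX_stmt) : X1_stmt := by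
  intro t H₀ ε ht hH₀ hε hε1
  obtain ⟨Q, hQ, h⟩ := hF t H₀ (ε / 2) ht hH₀ (by linarith) (by linarith)
  refine ⟨Q, hQ, fun δ hδ hδ1 => ?_⟩
  obtain ⟨L₁, hL₁, N₁, h1⟩ := h δ hδ hδ1
  obtain ⟨L₂, h2⟩ := hU t Q δ L₁ (ε / 2) hL₁ (by linarith)
  refine ⟨max L₂ N₁, fun L N hL hLN b κ hκ => ?_⟩
  have h3 := h2 L N ((le_max_left _ _).trans hL) hLN
  have h4 := h1 N (((le_max_right _ _).trans hL).trans hLN) b κ hκ
  have hL1 : (0 : ℝ) < L₁ := by exact_mod_cast hL₁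
  have hL0 : (0 : ℝ) ≤ (L : ℝ) / L₁ := by positivity
  have h5 := mul_le_mul_of_nonneg_left h4 hL0
  have e1 : (16 : ℝ) / (ε / 2) = 32 / ε := by field_simp; norm_num
  rw [e1] at h5
  refine h3.trans ((add_le_add_left h5 _).trans (le_of_eq ?_))
  field_simp
  ring

lemma EB_anti {t : ℕ} (b : Fin t → ℝ) {κ κ' : ℝ} (h : κ ≤ κ') (H₀ N : ℕ) :
    EB b κ' H₀ N ≤ EB b κ H₀ N := by
  classical
  unfold EB
  apply sum_le_sum_of_subset_of_nonneg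
  · intro j hj
    rw [mem_filter] at hj ⊢
    refine ⟨hj.1, le_trans ?_ hj.2⟩
    gcongr
  · intro j _ _
    positivity

theorem fin (hX : X1_stmt) (hC : CL_stmt) : FIN_stmt := by
  intro t ht
  rcases hC t ht with h | ⟨s, hs1, hst, ε, hε, h⟩
  · exact Or.inl h
  right
  refine ⟨s, hs1, hst, ?_⟩
  obtain ⟨e, he, he1, heε⟩ : ∃ e : ℝ, 0 < e ∧ e ≤ 1 ∧ 4 * e ≤ ε :=
    ⟨min 1 (ε / 4), lt_min one_pos (by linarith), min_le_left _ _, by
      have := min_le_right 1 (ε / 4)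
      linarith⟩
  obtain ⟨M, hM⟩ : ∃ M : ℕ, M = ⌈32 / e⌉₊ := ⟨_, rfl⟩
  have hM1 : 1 ≤ M := by
    rw [hM, Nat.one_le_ceil_iff]
    positivity
  obtain ⟨D, hD⟩ : ∃ D : ℝ, D = 4 * ((M : ℝ) * s) ^ s := ⟨_, rfl⟩
  have hs0 : (0 : ℝ) < s := by exact_mod_cast hs1
  have hM0 : (0 : ℝ) < M := by exact_mod_cast hM1
  have hD0 : 0 < D := by rw [hD]; positivity
  refine ⟨min e (e / D), lt_min he (by positivity), fun H₀ N₀ hH₀ => ?_⟩
  obtain ⟨Q, _, h1⟩ := hX s H₀ e hs1 hH₀ he he1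
  obtain ⟨δ, hδ, hδ1, h2⟩ := h Q
  obtain ⟨L₀, h3⟩ := h1 δ hδ hδ1
  obtain ⟨L, N, hL, hLN, h4⟩ := h2 (max L₀ (max N₀ 3))
  have hL₀ : L₀ ≤ L := (le_max_left _ _).trans hL
  have hN₀ : N₀ ≤ L := ((le_max_left _ _).trans (le_max_right _ _)).trans hL
  have hL3 : 3 ≤ L := ((le_max_right _ _).trans (le_max_right _ _)).trans hL
  refine ⟨N, hN₀.trans hLN, fun b => ?_⟩
  have h5 := h3 L N hL₀ hLN b e he.le
  have hLr : (0 : ℝ) < L := by exact_mod_cast (by omega : 0 < L)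
  have hlog : 0 ≤ Real.log N := Real.log_natCast_nonneg N
  have hH0 : (0 : ℝ) < H₀ := by exact_mod_cast hH₀
  have h6 : ε * Real.log N ≤ (e + e) * Real.log N + 4 * CKn s H₀ ⌈32 / e⌉₊ * EB b e H₀ N := by
    have h7 : (L : ℝ) * (ε * Real.log N) ≤
        L * ((e + e) * Real.log N + 4 * CKn s H₀ ⌈32 / e⌉₊ * EB b e H₀ N) := by
      refine le_trans (le_of_eq (by ring)) (h4.le.trans h5)
    exact le_of_mul_le_mul_left h7 hLr
  have h8 : 4 * CKn s H₀ ⌈32 / e⌉₊ = D * (H₀ : ℝ) ^ (s * (s + 1) / 2) := by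
    rw [CKn, ← hM, hD]
    ring
  rw [h8] at h6
  have h9 : e * Real.log N ≤ D * (H₀ : ℝ) ^ (s * (s + 1) / 2) * EB b e H₀ N := by
    have : 4 * e * Real.log N ≤ ε * Real.log N := by gcongr
    nlinarith [mul_nonneg he.le hlog]
  have h10 : EB b e H₀ N ≤ EB b (min e (e / D)) H₀ N := EB_anti b (min_le_left _ _) H₀ N
  refine le_trans ?_ h10
  have hHp : (0 : ℝ) < (H₀ : ℝ) ^ (s * (s + 1) / 2) := by positivity
  have h11 : min e (e / D) / (H₀ : ℝ) ^ (s * (s + 1) / 2) * Real.log N ≤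
      e / D / (H₀ : ℝ) ^ (s * (s + 1) / 2) * Real.log N := by
    gcongr
    exact min_le_right _ _
  refine h11.trans ?_
  rw [div_div, div_mul_eq_mul_div, div_le_iff₀ (by positivity)]
  linarith

end Pool.Agent.EXS
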