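import Mathlib
import Pool.Agent.Lib.EXS.AllB
import Pool.Agent.Lib.EXS.X1
import Pool.Agent.Lib.EXS.EQV

/-!
# Exceptional sets (MP_663568_nt): the criterion for a single degree

`UU s` (minor top coefficient) is equivalent to the bound for the level sets of single phases of
degree `≤ s`.
-/

set_option autoImplicit false
open Finset Polynomial

namespace Pool.Agent.EXS

open Pool.Agent.Lib.MP_663568_nt Pool.Agent.Lib.MP_663568_nt.Katai
  Pool.Agent.Lib.MP_663568_nt.Nul Pool.Agent.Lib.MP_663568_nt.Nul.EqA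
  Pool.Agent.Lib.MP_663568_nt.H6 Pool.Agent.TU

/-- The level sets of one phase of degree `≤ s` are small, on the blocks of one length. -/
def CC (s : ℕ) : Prop := ∀ c : ℝ, 0 < c → ∃ H N₀ : ℕ, 1 ≤ H ∧ ∀ N : ℕ, N₀ ≤ N →
  ∃ b : Fin s → ℝ, (H : ℝ) ^ (s * (s + 1) / 2) * EB b c H N < c * Real.log N

namespace Critx

open CLx EQVx

lemma US_mono {S T : Set ℝ[X]} (h : S ⊆ T) (L n : ℕ) : US S L n ≤ US T L n :=
  Real.iSup_le (fun F => le_US (h F.2) L n) (US_nonneg _ _ _)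

/-! ### The number of numerators in the major arcs -/

lemma card_near (y ρ : ℝ) (hρ : 0 ≤ ρ) (T : Finset ℕ) (hT : ∀ k ∈ T, |(k : ℝ) - y| ≤ ρ) :
    (T.card : ℝ) ≤ 2 * ρ + 1 := by
  rcases T.eq_empty_or_nonempty with he | hne
  · rw [he]; simp; linarith
  have h1 := hT _ (T.min'_mem hne)
  have h2 := hT _ (T.max'_mem hne)
  have h3 : T ⊆ Icc (T.min' hne) (T.max' hne) := fun k hk =>
    mem_Icc.2 ⟨T.min'_le k hk, T.le_max' k hk⟩
  have h4 := card_le_card h3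
  rw [Nat.card_Icc] at h4
  have h5 : T.min' hne ≤ T.max' hne := T.min'_le _ (T.max'_mem hne)
  have h6 : (T.card : ℝ) ≤ (T.max' hne : ℝ) + 1 - T.min' hne := by
    have : (T.card : ℝ) ≤ ((T.max' hne + 1 - T.min' hne : ℕ) : ℝ) := by exact_mod_cast h4
    rw [Nat.cast_sub (by omega)] at this
    push_cast at this
    exact this
  rw [abs_le] at h1 h2
  linarith

open Classical in
lemma card_major_one (M q : ℕ) (hM : 1 ≤ M) (hq : 1 ≤ q) (δ : ℝ) (hδ : 0 < δ) :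
    (((range M).filter fun k : ℕ => nd ((q : ℝ) * ((k : ℝ) / M)) < δ).card : ℝ) ≤
      (q + 1) * (2 * (δ * M) + 1) := by
  have hM0 : (0 : ℝ) < M := by exact_mod_cast hM
  have hq0 : (0 : ℝ) < q := by exact_mod_cast hq
  have hsub : (range M).filter (fun k : ℕ => nd ((q : ℝ) * ((k : ℝ) / M)) < δ) ⊆
      (range (q + 1)).biUnion fun a : ℕ => (range M).filter fun k : ℕ =>
        |(k : ℝ) - a * M / q| ≤ δ * M := by
    intro k hk
    rw [mem_filter, mem_range] at hk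
    rw [mem_biUnion]
    obtain ⟨z, hz⟩ := nd_exists ((q : ℝ) * ((k : ℝ) / M))
    have hkM : (k : ℝ) / M < 1 := by
      rw [div_lt_one hM0]
      exact_mod_cast hk.1
    have hk0 : 0 ≤ (k : ℝ) / M := by positivity
    have hnd : |(q : ℝ) * ((k : ℝ) / M) - z| ≤ 1 / 2 := by
      rw [← hz]
      exact nd_le_half _
    rw [abs_le] at hnd
    have hz0 : -1 < z := by
      have : (-1 : ℝ) < z := by nlinarith [mul_nonneg hq0.le hk0]
      exact_mod_cast this
    have hzq : z < q + 1 := by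
      have : (z : ℝ) < q + 1 := by nlinarith [mul_lt_mul_of_pos_left hkM hq0]
      exact_mod_cast this
    refine ⟨z.toNat, ?_, ?_⟩
    · rw [mem_range]
      omega
    · rw [mem_filter, mem_range]
      refine ⟨hk.1, ?_⟩
      have hzc : ((z.toNat : ℕ) : ℝ) = z := by
        have : ((z.toNat : ℕ) : ℤ) = z := Int.toNat_of_nonneg (by omega)
        exact_mod_cast this
      rw [hzc]
      have h1 := hk.2
      rw [hz] at h1
      have e1 : (k : ℝ) - z * M / q = ((q : ℝ) * ((k : ℝ) / M) - z) * (M / q) := by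
        field_simp
      rw [e1, abs_mul, abs_of_pos (by positivity : (0 : ℝ) < M / q)]
      calc |(q : ℝ) * ((k : ℝ) / M) - z| * (M / q) ≤ δ * (M / 1) := by
            apply mul_le_mul h1.le _ (by positivity) hδ.le
            apply div_le_div_of_nonneg_left hM0.le one_pos
            exact_mod_cast hq
        _ = δ * M := by rw [div_one]
  have h1 := card_le_card hsub
  have h2 : ((range (q + 1)).biUnion fun a : ℕ => (range M).filter fun k : ℕ =>
        |(k : ℝ) - a * M / q| ≤ δ * M).card ≤ ∑ a ∈ range (q + 1), ((range M).filter fun k : ℕ =>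
        |(k : ℝ) - a * M / q| ≤ δ * M).card := card_biUnion_le
  have h3 : ∀ a ∈ range (q + 1), (((range M).filter fun k : ℕ =>
        |(k : ℝ) - a * M / q| ≤ δ * M).card : ℝ) ≤ 2 * (δ * M) + 1 := by
    intro a _
    refine card_near (a * M / q) (δ * M) (by positivity) _ fun k hk => ?_
    rw [mem_filter] at hk
    exact hk.2
  have h4 : (((range M).filter fun k : ℕ => nd ((q : ℝ) * ((k : ℝ) / M)) < δ).card : ℝ) ≤
      ∑ a ∈ range (q + 1), (((range M).filter fun k : ℕ =>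
        |(k : ℝ) - a * M / q| ≤ δ * M).card : ℝ) := by
    exact_mod_cast h1.trans h2
  refine h4.trans ((sum_le_sum h3).trans (le_of_eq ?_))
  rw [sum_const, card_range, nsmul_eq_mul]
  push_cast
  ring

open Classical in
/-- half of the fractions with denominator `M` are minor. -/
lemma card_minor (Q M : ℕ) (hM : 4 * (Q + 1) ^ 2 ≤ M) :
    (M : ℝ) ≤ 2 * (((range M).filter fun k : ℕ =>
      Sq Q (1 / (8 * ((Q : ℝ) + 1) ^ 2)) ((k : ℝ) / M)).card : ℝ) := by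
  have hM1 : 1 ≤ M := by nlinarith [Nat.zero_le Q]
  have hM0 : (0 : ℝ) < M := by exact_mod_cast hM1
  obtain ⟨δ, hδ⟩ : ∃ δ : ℝ, δ = 1 / (8 * ((Q : ℝ) + 1) ^ 2) := ⟨_, rfl⟩
  have hδ0 : 0 < δ := by rw [hδ]; positivity
  rw [← hδ]
  have hsplit := card_filter_add_card_filter_not (s := range M)
    (fun k : ℕ => Sq Q δ ((k : ℝ) / M))
  rw [card_range] at hsplit
  have hsub : (range M).filter (fun k : ℕ => ¬ Sq Q δ ((k : ℝ) / M)) ⊆
      (Icc 1 Q).biUnion fun q : ℕ => (range M).filter fun k : ℕ =>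
        nd ((q : ℝ) * ((k : ℝ) / M)) < δ := by
    intro k hk
    rw [mem_filter] at hk
    obtain ⟨hk1, hk2⟩ := hk
    unfold Sq at hk2
    push Not at hk2
    obtain ⟨q, hq1, hqQ, hlt⟩ := hk2
    rw [mem_biUnion]
    exact ⟨q, mem_Icc.2 ⟨hq1, by exact_mod_cast hqQ⟩, mem_filter.2 ⟨hk1, hlt⟩⟩
  have h1 := (card_le_card hsub).trans card_biUnion_le
  have h2 : (((range M).filter fun k : ℕ => ¬ Sq Q δ ((k : ℝ) / M)).card : ℝ) ≤
      ∑ q ∈ Icc 1 Q, (((range M).filter fun k : ℕ =>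
        nd ((q : ℝ) * ((k : ℝ) / M)) < δ).card : ℝ) := by exact_mod_cast h1
  have h3 : ∑ q ∈ Icc 1 Q, (((range M).filter fun k : ℕ =>
        nd ((q : ℝ) * ((k : ℝ) / M)) < δ).card : ℝ) ≤
      ∑ q ∈ Icc 1 Q, ((Q : ℝ) + 1) * (2 * (δ * M) + 1) := by
    apply sum_le_sum
    intro q hq
    rw [mem_Icc] at hq
    refine (card_major_one M q hM1 hq.1 δ hδ0).trans ?_
    have : (q : ℝ) ≤ Q := by exact_mod_cast hq.2
    have h0 : 0 ≤ 2 * (δ * M) + 1 := by positivity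
    nlinarith
  rw [sum_const, Nat.card_Icc, Nat.add_sub_cancel, nsmul_eq_mul] at h3
  have hQ0 : (0 : ℝ) ≤ Q := Nat.cast_nonneg Q
  have hMr : 4 * ((Q : ℝ) + 1) ^ 2 ≤ M := by exact_mod_cast hM
  have h4 : (Q : ℝ) * (((Q : ℝ) + 1) * (2 * (δ * M) + 1)) ≤ M / 2 := by
    have h5 : (Q : ℝ) * (((Q : ℝ) + 1) * (2 * (δ * M) + 1)) ≤
        ((Q : ℝ) + 1) ^ 2 * (2 * (δ * M) + 1) := by
      have h0 : 0 ≤ 2 * (δ * M) + 1 := by positivity
      have : (Q : ℝ) * ((Q : ℝ) + 1) ≤ ((Q : ℝ) + 1) ^ 2 := by nlinarith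
      calc (Q : ℝ) * (((Q : ℝ) + 1) * (2 * (δ * M) + 1)) =
            ((Q : ℝ) * ((Q : ℝ) + 1)) * (2 * (δ * M) + 1) := by ring
        _ ≤ _ := mul_le_mul_of_nonneg_right this h0
    have h6 : ((Q : ℝ) + 1) ^ 2 * (2 * (δ * M) + 1) = M / 4 + ((Q : ℝ) + 1) ^ 2 := by
      rw [hδ]
      field_simp
      ring
    rw [h6] at h5
    linarith
  have h7 : (M : ℝ) = (((range M).filter fun k : ℕ => Sq Q δ ((k : ℝ) / M)).card : ℝ) +
      (((range M).filter fun k : ℕ => ¬ Sq Q δ ((k : ℝ) / M)).card : ℝ) := by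
    exact_mod_cast hsplit.symm
  linarith

end Critx

open Critx CLx EQVx

/-- The level sets of single phases control the average. -/
theorem UU_of_CC (hX : X1_stmt) (s : ℕ) (hs : 1 ≤ s) (h : CC s) : UU s := by
  intro ε hε
  obtain ⟨e, he, he1, heε⟩ : ∃ e : ℝ, 0 < e ∧ e ≤ 1 ∧ 4 * e ≤ ε :=
    ⟨min 1 (ε / 4), lt_min one_pos (by linarith), min_le_left _ _, by
      have := min_le_right 1 (ε / 4)
      linarith⟩
  obtain ⟨M, hM⟩ : ∃ M : ℕ, M = ⌈32 / e⌉₊ := ⟨_, rfl⟩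
  have hM1 : 1 ≤ M := by
    rw [hM, Nat.one_le_ceil_iff]
    positivity
  obtain ⟨D, hD⟩ : ∃ D : ℝ, D = 4 * ((M : ℝ) * s) ^ s := ⟨_, rfl⟩
  have hs0 : (0 : ℝ) < s := by exact_mod_cast hs
  have hM0 : (0 : ℝ) < M := by exact_mod_cast hM1
  have hD0 : 0 < D := by rw [hD]; positivity
  obtain ⟨c, hc⟩ : ∃ c : ℝ, c = min e (e / D) := ⟨_, rfl⟩
  have hc0 : 0 < c := by rw [hc]; exact lt_min he (by positivity)
  obtain ⟨H₀, N₀, hH₀, hN₀⟩ := h c hc0
  obtain ⟨Q, _, h1⟩ := hX s H₀ e hs hH₀ he he1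
  refine ⟨⌈Q⌉₊, fun δ hδ => ?_⟩
  obtain ⟨L₀, h3⟩ := h1 (min δ 1) (lt_min hδ one_pos) (min_le_right _ _)
  refine ⟨max L₀ N₀, fun L N hL hLN => ?_⟩
  have hL₀ : L₀ ≤ L := (le_max_left _ _).trans hL
  obtain ⟨b, hb⟩ := hN₀ N (((le_max_right _ _).trans hL).trans hLN)
  have h5 := h3 L N hL₀ hLN b e he.le
  have hlog : 0 ≤ Real.log N := Real.log_natCast_nonneg N
  have hH0 : (0 : ℝ) < H₀ := by exact_mod_cast hH₀
  have h6 : ∑ n ∈ Icc 1 N, (1 / (n : ℝ)) * US (Mn s (⌈Q⌉₊ : ℕ) δ) L n ≤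
      ∑ n ∈ Icc 1 N, (1 / (n : ℝ)) * US (Mn s Q (min δ 1)) L n := by
    refine sum_le_sum fun n _ => mul_le_mul_of_nonneg_left (US_mono ?_ L n) (by positivity)
    intro F hF
    exact ⟨hF.1, hF.2.mono (Nat.le_ceil Q) (min_le_left _ _)⟩
  refine h6.trans (h5.trans ?_)
  have h8 : 4 * CKn s H₀ ⌈32 / e⌉₊ = D * (H₀ : ℝ) ^ (s * (s + 1) / 2) := by
    rw [CKn, ← hM, hD]
    ring
  have h9 : EB b e H₀ N ≤ EB b c H₀ N := EB_anti b (by rw [hc]; exact min_le_left _ _) H₀ N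
  have hHp : (0 : ℝ) < (H₀ : ℝ) ^ (s * (s + 1) / 2) := by positivity
  have h10 : D * (H₀ : ℝ) ^ (s * (s + 1) / 2) * EB b e H₀ N ≤ e * Real.log N := by
    have hcD : D * c ≤ e := by
      rw [hc]
      calc D * min e (e / D) ≤ D * (e / D) :=
            mul_le_mul_of_nonneg_left (min_le_right _ _) hD0.le
        _ = e := by field_simp
    calc D * (H₀ : ℝ) ^ (s * (s + 1) / 2) * EB b e H₀ N
        ≤ D * (H₀ : ℝ) ^ (s * (s + 1) / 2) * EB b c H₀ N := by gcongr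
      _ = D * ((H₀ : ℝ) ^ (s * (s + 1) / 2) * EB b c H₀ N) := by ring
      _ ≤ D * (c * Real.log N) := by gcongr
      _ = (D * c) * Real.log N := by ring
      _ ≤ e * Real.log N := by gcongr
  rw [h8]
  have hLr : (0 : ℝ) ≤ L := Nat.cast_nonneg L
  have h11 : (e + e) * Real.log N + D * (H₀ : ℝ) ^ (s * (s + 1) / 2) * EB b e H₀ N ≤
      ε * Real.log N := by
    have : 4 * e * Real.log N ≤ ε * Real.log N := by gcongr
    nlinarith [mul_nonneg he.le hlog]
  calc (L : ℝ) * ((e + e) * Real.log N + D * (H₀ : ℝ) ^ (s * (s + 1) / 2) * EB b e H₀ N)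
      ≤ L * (ε * Real.log N) := by gcongr
    _ = ε * L * Real.log N := by ring

namespace Critx

/-- The points of the grid with minor top coefficient. -/
noncomputable def Gm (s H Q : ℕ) (δ : ℝ) : Finset (Fin s → ℕ) := by
  classical
  exact Fintype.piFinset fun i => if i.val + 1 = s then
    (range (H ^ (i.val + 1))).filter (fun k : ℕ => Sq Q δ ((k : ℝ) / ((H ^ (i.val + 1) : ℕ) : ℝ)))
      else range (H ^ (i.val + 1))

lemma Gm_sub (s H Q : ℕ) (δ : ℝ) : Gm s H Q δ ⊆ XS.Grid s H := by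
  classical
  intro k hk
  unfold Gm at hk
  unfold XS.Grid
  rw [Fintype.mem_piFinset] at hk ⊢
  intro i
  have h := hk i
  split_ifs at h with h1
  · exact (mem_filter.1 h).1
  · exact h

lemma Gm_mem {s H Q : ℕ} {δ : ℝ} {k : Fin s → ℕ} (hk : k ∈ Gm s H Q δ) (i : Fin s)
    (hi : i.val + 1 = s) : Sq Q δ (XS.grp H k i) := by
  classical
  unfold Gm at hk
  rw [Fintype.mem_piFinset] at hk
  have h := hk i
  rw [if_pos hi, mem_filter] at h
  unfold XS.grp
  have h2 := h.2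
  push_cast at h2
  exact h2

lemma Gm_card (s H Q : ℕ) (hs : 1 ≤ s) (hH : 4 * (Q + 1) ^ 2 ≤ H) :
    ((H ^ (s * (s + 1) / 2) : ℕ) : ℝ) ≤ 2 * ((Gm s H Q (1 / (8 * ((Q : ℝ) + 1) ^ 2))).card : ℝ) := by
  classical
  rw [← XS.grid_card', XS.grid_card]
  unfold Gm
  rw [Fintype.card_piFinset]
  obtain ⟨l, hl⟩ : ∃ l : Fin s, l.val + 1 = s := ⟨⟨s - 1, by omega⟩, by simp; omega⟩
  rw [← mul_prod_erase univ _ (mem_univ l), ← mul_prod_erase univ _ (mem_univ l)]
  have h1 : ∏ i ∈ univ.erase l, (if i.val + 1 = s then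
      (range (H ^ (i.val + 1))).filter (fun k : ℕ => Sq Q (1 / (8 * ((Q : ℝ) + 1) ^ 2))
        ((k : ℝ) / ((H ^ (i.val + 1) : ℕ) : ℝ))) else range (H ^ (i.val + 1))).card =
      ∏ i ∈ univ.erase l, H ^ (i.val + 1) := by
    refine prod_congr rfl fun i hi => ?_
    rw [mem_erase] at hi
    rw [if_neg, card_range]
    intro h
    apply hi.1
    apply Fin.ext
    omega
  rw [h1, if_pos hl]
  have hHs : 4 * (Q + 1) ^ 2 ≤ H ^ (l.val + 1) := by
    have h0 : 1 ≤ H := by nlinarith [Nat.zero_le Q]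
    calc 4 * (Q + 1) ^ 2 ≤ H := hH
      _ = H ^ 1 := (pow_one _).symm
      _ ≤ H ^ (l.val + 1) := Nat.pow_le_pow_right h0 (by omega)
  have h2 := card_minor Q (H ^ (l.val + 1)) hHs
  have h3 : (0 : ℝ) ≤ ((∏ i ∈ univ.erase l, H ^ (i.val + 1) : ℕ) : ℝ) := Nat.cast_nonneg _
  have h4 := mul_le_mul_of_nonneg_right h2 h3
  rw [Nat.cast_mul, Nat.cast_mul]
  refine h4.trans (le_of_eq ?_)
  rw [mul_assoc]

end Critx

open Critx

/-- The average controls the level sets of some phase. -/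
theorem CC_of_UU (s : ℕ) (hs : 1 ≤ s) (h : UU s) : CC s := by
  classical
  intro c hc
  obtain ⟨K, hK⟩ := XS.few_grid s hs (min c 1) (lt_min hc one_pos) (min_le_right _ _)
  obtain ⟨ε, hε⟩ : ∃ ε : ℝ, ε = c ^ 2 / (4 * (K + 1)) := ⟨_, rfl⟩
  have hK0 : (0 : ℝ) < (K : ℝ) + 1 := by positivity
  have hε0 : 0 < ε := by rw [hε]; positivity
  obtain ⟨Q, hQ⟩ := h ε hε0
  obtain ⟨δ, hδ⟩ : ∃ δ : ℝ, δ = 1 / (8 * ((Q : ℝ) + 1) ^ 2) := ⟨_, rfl⟩
  have hδ0 : 0 < δ := by rw [hδ]; positivity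
  obtain ⟨H₀, hH₀⟩ := hQ δ hδ0
  obtain ⟨H, hH⟩ : ∃ H : ℕ, H = H₀ + 4 * (Q + 1) ^ 2 := ⟨_, rfl⟩
  have hHQ : 4 * (Q + 1) ^ 2 ≤ H := by omega
  have hH1 : 1 ≤ H := by nlinarith [Nat.zero_le Q]
  have hHr : (0 : ℝ) < H := by exact_mod_cast hH1
  refine ⟨H, H + 2, hH1, fun N hN => ?_⟩
  have hN2 : (1 : ℝ) < N := by
    have : 1 < N := by omega
    exact_mod_cast this
  have hlog : 0 < Real.log N := Real.log_pos hN2
  have h1 := hH₀ H N (by omega) (by omega)
  have hcard := Gm_card s H Q hs hHQ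
  rw [← hδ] at hcard
  have hpos : (0 : ℝ) < ((H ^ (s * (s + 1) / 2) : ℕ) : ℝ) := by
    have : 0 < H ^ (s * (s + 1) / 2) := by positivity
    exact_mod_cast this
  have hne : (Gm s H Q δ).Nonempty := by
    rw [← card_pos]
    have : (0 : ℝ) < ((Gm s H Q δ).card : ℝ) := by linarith
    exact_mod_cast this
  -- one block
  have h2 : ∀ n : ℕ, (∑ k ∈ Gm s H Q δ, if c * H ≤ ‖Ab (XS.grp H k) H n‖ then (1 : ℝ) else 0) ≤
      K / (c * H) * US (Mn s Q δ) H n := by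
    intro n
    obtain ⟨G, hG⟩ : ∃ G : Finset (Fin s → ℕ), G = (Gm s H Q δ).filter fun k =>
      c * H ≤ ‖Ab (XS.grp H k) H n‖ := ⟨_, rfl⟩
    have e1 : (∑ k ∈ Gm s H Q δ, if c * H ≤ ‖Ab (XS.grp H k) H n‖ then (1 : ℝ) else 0) =
        G.card := by
      rw [hG, card_filter]; push_cast; rfl
    rw [e1]
    rcases G.eq_empty_or_nonempty with he | ⟨k, hk⟩
    · rw [he]
      simp only [card_empty, Nat.cast_zero]
      have := CLx.US_nonneg (Mn s Q δ) H n
      positivity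
    have h3 : G.card ≤ K := by
      apply hK H (fun y => muC (n + y)) hH1 (fun y => CLx.norm_muC_le' _) G
      · rw [hG]
        exact (filter_subset _ _).trans (Gm_sub s H Q δ)
      · intro k hk
        rw [hG, mem_filter] at hk
        exact (mul_le_mul_of_nonneg_right (min_le_left _ _) hHr.le).trans hk.2
    rw [hG, mem_filter] at hk
    have h4 : c * H ≤ US (Mn s Q δ) H n := by
      have hm : CLx.pv (XS.grp H k) ∈ Mn s Q δ := by
        refine ⟨CLx.pv_natDegree _, ?_⟩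
        rw [CLx.pv_coeff _ ⟨s - 1, by omega⟩ (by simp; omega)]
        exact Gm_mem hk.1 _ (by simp; omega)
      have h5 := CLx.le_US hm H n
      simp only [CLx.pv_eval] at h5
      exact hk.2.trans h5
    have hcH : 0 < c * H := by positivity
    calc (G.card : ℝ) ≤ K := by exact_mod_cast h3
      _ = K / (c * H) * (c * H) := by field_simp
      _ ≤ K / (c * H) * US (Mn s Q δ) H n := by gcongr
  -- the sum
  have h3 : ∑ k ∈ Gm s H Q δ, EB (XS.grp H k) c H N ≤ K / (c * H) * (ε * H * Real.log N) := by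
    calc ∑ k ∈ Gm s H Q δ, EB (XS.grp H k) c H N
        = ∑ n ∈ Icc 1 N, (1 / (n : ℝ)) * ∑ k ∈ Gm s H Q δ,
            (if c * H ≤ ‖Ab (XS.grp H k) H n‖ then (1 : ℝ) else 0) := by
          simp only [EB, sum_filter, mul_sum]
          rw [sum_comm]
          exact sum_congr rfl fun n _ => sum_congr rfl fun k _ => by split_ifs <;> simp
      _ ≤ ∑ n ∈ Icc 1 N, (1 / (n : ℝ)) * (K / (c * H) * US (Mn s Q δ) H n) :=
          sum_le_sum fun n _ => mul_le_mul_of_nonneg_left (h2 n) (by positivity)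
      _ = K / (c * H) * ∑ n ∈ Icc 1 N, (1 / (n : ℝ)) * US (Mn s Q δ) H n := by
          rw [mul_sum]
          exact sum_congr rfl fun n _ => by ring
      _ ≤ _ := by gcongr
  obtain ⟨k, hk, hmin⟩ := exists_min_image (Gm s H Q δ) (fun k => EB (XS.grp H k) c H N) hne
  refine ⟨XS.grp H k, ?_⟩
  have h4 : ((Gm s H Q δ).card : ℝ) * EB (XS.grp H k) c H N ≤
      ∑ k ∈ Gm s H Q δ, EB (XS.grp H k) c H N := by
    rw [← nsmul_eq_mul]
    exact card_nsmul_le_sum _ _ _ hmin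
  have hEB : 0 ≤ EB (XS.grp H k) c H N := by
    unfold EB
    exact sum_nonneg fun _ _ => by positivity
  have h5 : (H : ℝ) ^ (s * (s + 1) / 2) * EB (XS.grp H k) c H N ≤
      2 * (K / (c * H) * (ε * H * Real.log N)) := by
    have h6 : (H : ℝ) ^ (s * (s + 1) / 2) ≤ 2 * ((Gm s H Q δ).card : ℝ) := by
      have := hcard
      push_cast at this
      exact this
    have h7 := mul_le_mul_of_nonneg_right h6 hEB
    linarith
  refine lt_of_le_of_lt h5 ?_
  have h6 : 2 * (K / (c * H) * (ε * H * Real.log N)) = (c * Real.log N) * (K / (2 * (K + 1))) := by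
    rw [hε]
    field_simp
    ring
  rw [h6]
  have h7 : (K : ℝ) / (2 * (K + 1)) < 1 := by
    rw [div_lt_one (by positivity)]
    have : (0 : ℝ) ≤ K := Nat.cast_nonneg K
    linarith
  have h8 : 0 < c * Real.log N := by positivity
  nlinarith

/-- **The criterion for one degree.** -/
theorem UU_iff_CC (hX : X1_stmt) (s : ℕ) (hs : 1 ≤ s) : UU s ↔ CC s :=
  ⟨CC_of_UU s hs, UU_of_CC hX s hs⟩

/-- **The criterion for every set of phases.** -/
theorem critB (hX : X1_stmt) (t : ℕ) (ht : 1 ≤ t) (B : Set (Fin t → ℝ)) : SmB B ↔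
    ∀ s : ℕ, 1 ≤ s → s ≤ t → (∃ r : Fin t → ℚ, MeasureTheory.volume {y : Fin s → ℝ |
      TU.glue s y (fun i => ((r i : ℚ) : ℝ)) ∈ Pool.Agent.TUK.Hul B} ≠ 0) → CC s := by
  rw [clB t ht B]
  constructor
  · intro h s hs hst hr
    exact (UU_iff_CC hX s hs).1 (h s hs hst hr)
  · intro h s hs hst hr
    exact (UU_iff_CC hX s hs).2 (h s hs hst hr)

end Pool.Agent.EXS
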