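import Mathlib
import Pool.Agent.Lib.EXS.EQV

/-!
# Exceptional sets: the converse with a constant
-/

set_option autoImplicit false
open Finset Polynomial

namespace Pool.Agent.EXS

open EQVx

/-- The converse, with a constant. -/
theorem conv_min (t : ℕ) (ht : 1 ≤ t) (c : ℝ) (hc : 0 < c) : ∃ C : ℝ, ∀ H N : ℕ, 1 ≤ H →
    ∃ b : Fin t → ℝ, (H : ℝ) ^ (t * (t + 1) / 2) * EB b c H N ≤ C * (SS t N H / H) := by
  obtain ⟨K, hK0, hK⟩ := XS.conv t ht c hc
  refine ⟨K, fun H N hH => ?_⟩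
  have h1 := hK H N hH
  rw [ST_eq] at h1
  have hHr : (0 : ℝ) < H := by exact_mod_cast hH
  have h6 : ((XS.Grid t H).card : ℝ) = (H : ℝ) ^ (t * (t + 1) / 2) := by
    rw [XS.grid_card']; push_cast; rfl
  have hG0 : (0 : ℝ) < (XS.Grid t H).card := by rw [h6]; positivity
  have hne : (XS.Grid t H).Nonempty := by
    rw [← card_pos]; exact_mod_cast hG0
  by_contra hcon
  push Not at hcon
  have h4 : ∑ k ∈ XS.Grid t H, (K * (SS t N H / H)) / (XS.Grid t H).card <
      ∑ k ∈ XS.Grid t H, XS.ExcT (XS.grp H k) c H N := by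
    apply sum_lt_sum_of_nonempty hne
    intro k _
    have h5 := hcon (XS.grp H k)
    rw [ExcT_eq, div_lt_iff₀ hG0, h6]
    linarith
  rw [sum_const, nsmul_eq_mul, mul_div_cancel₀ _ hG0.ne'] at h4
  linarith

end Pool.Agent.EXS
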