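import Mathlib
import Pool.Agent.Lib.EXS.Defs

/-!
# Exceptional sets: row EX, the expansion of the second moment
-/

set_option autoImplicit false
open Finset Polynomial

namespace Pool.Agent.EXS

open Pool.Agent.Lib.MP_663568_nt Pool.Agent.Lib.MP_663568_nt.Katai
  Pool.Agent.Lib.MP_663568_nt.Nul Pool.Agent.Lib.MP_663568_nt.Nul.EqA
  Pool.Agent.Lib.MP_663568_nt.H6 Pool.Agent.TU

namespace EXx

/-- The bound for the reciprocal of the least common multiple of a pair which is not coprime. -/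
noncomputable def gg (x : (ℕ × ℕ) × (ℕ × ℕ)) : ℝ :=
  (if x.1.1 = x.2.1 then 1 / ((x.1.1 : ℝ) * x.1.2 * x.2.2) else 0) +
  (if x.1.2 = x.2.2 then 1 / ((x.1.1 : ℝ) * x.2.1 * x.1.2) else 0) +
  (if x.1.1 = x.2.1 then (if x.1.2 = x.2.2 then 1 / ((x.1.1 : ℝ) * x.1.2) else 0) else 0)

lemma gg_nonneg (x : (ℕ × ℕ) × (ℕ × ℕ)) : 0 ≤ gg x := by
  unfold gg
  have h1 : (0 : ℝ) ≤ (if x.1.1 = x.2.1 then 1 / ((x.1.1 : ℝ) * x.1.2 * x.2.2) else 0) := by
    split_ifs <;> positivity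
  have h2 : (0 : ℝ) ≤ (if x.1.2 = x.2.2 then 1 / ((x.1.1 : ℝ) * x.2.1 * x.1.2) else 0) := by
    split_ifs <;> positivity
  have h3 : (0 : ℝ) ≤ (if x.1.1 = x.2.1 then
      (if x.1.2 = x.2.2 then 1 / ((x.1.1 : ℝ) * x.1.2) else 0) else 0) := by
    split_ifs <;> positivity
  linarith

lemma sum_gg (P P' : Finset ℕ) : ∑ x ∈ (P ×ˢ P') ×ˢ (P ×ˢ P'), gg x =
    WW P * WW P' ^ 2 + WW P ^ 2 * WW P' + WW P * WW P' := by
  have h1 : ∑ x ∈ (P ×ˢ P') ×ˢ (P ×ˢ P'),
      (if x.1.1 = x.2.1 then 1 / ((x.1.1 : ℝ) * x.1.2 * x.2.2) else 0) = WW P * WW P' ^ 2 := by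
    simp only [sum_product]
    rw [pow_two, WW, WW, sum_mul_sum, sum_mul]
    refine sum_congr rfl fun p hp => ?_
    rw [mul_sum]
    refine sum_congr rfl fun q hq => ?_
    rw [sum_comm, mul_sum]
    refine sum_congr rfl fun q2 _ => ?_
    rw [sum_ite_eq, if_pos hp, one_div_mul_one_div, one_div_mul_one_div, mul_assoc]
  have h2 : ∑ x ∈ (P ×ˢ P') ×ˢ (P ×ˢ P'),
      (if x.1.2 = x.2.2 then 1 / ((x.1.1 : ℝ) * x.2.1 * x.1.2) else 0) = WW P ^ 2 * WW P' := by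
    simp only [sum_product]
    rw [pow_two, WW, WW, sum_mul_sum, sum_mul]
    refine sum_congr rfl fun p _ => ?_
    rw [sum_mul, sum_comm]
    refine sum_congr rfl fun p2 _ => ?_
    rw [mul_sum]
    refine sum_congr rfl fun q hq => ?_
    rw [sum_ite_eq, if_pos hq, one_div_mul_one_div, one_div_mul_one_div]
  have h3 : ∑ x ∈ (P ×ˢ P') ×ˢ (P ×ˢ P'), (if x.1.1 = x.2.1 then
      (if x.1.2 = x.2.2 then 1 / ((x.1.1 : ℝ) * x.1.2) else 0) else 0) = WW P * WW P' := by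
    simp only [sum_product]
    rw [WW, WW, sum_mul_sum]
    refine sum_congr rfl fun p hp => ?_
    refine sum_congr rfl fun q hq => ?_
    rw [sum_comm]
    simp only [sum_ite_eq, if_pos hp, if_pos hq]
    rw [one_div_mul_one_div]
  unfold gg
  rw [sum_add_distrib, sum_add_distrib, h1, h2, h3]

/-- The pointwise bound. -/
lemma lcm_le {P P' : Finset ℕ} (hP : ∀ p ∈ P, p.Prime) (hP' : ∀ p ∈ P', p.Prime)
    (hd : Disjoint P P') (x : (ℕ × ℕ) × (ℕ × ℕ)) (hx : x ∈ (P ×ˢ P') ×ˢ (P ×ˢ P'))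
    (hc : ¬ Nat.Coprime (x.1.1 * x.1.2) (x.2.1 * x.2.2)) :
    1 / ((Nat.lcm (x.1.1 * x.1.2) (x.2.1 * x.2.2) : ℕ) : ℝ) ≤ gg x := by
  obtain ⟨⟨p, q⟩, ⟨p2, q2⟩⟩ := x
  simp only [mem_product] at hx hc ⊢
  obtain ⟨⟨hp, hq⟩, ⟨hp2, hq2⟩⟩ := hx
  have ne : ∀ a ∈ P, ∀ b ∈ P', a ≠ b := fun a ha b hb => disjoint_left.1 hd ha |> fun h e =>
    h (e ▸ hb)
  have c1 : Nat.Coprime p q2 := (Nat.coprime_primes (hP _ hp) (hP' _ hq2)).2 (ne _ hp _ hq2)
  have c2 : Nat.Coprime q p2 := (Nat.coprime_primes (hP' _ hq) (hP _ hp2)).2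
    (ne _ hp2 _ hq).symm
  have c3 : Nat.Coprime p q := (Nat.coprime_primes (hP _ hp) (hP' _ hq)).2 (ne _ hp _ hq)
  by_cases e1 : p = p2
  · subst e1
    by_cases e2 : q = q2
    · subst e2
      rw [Nat.lcm_self]
      unfold gg
      simp only [if_true]
      push_cast
      have : (0 : ℝ) ≤ 1 / ((p : ℝ) * q * q) := by positivity
      have : (0 : ℝ) ≤ 1 / ((p : ℝ) * p * q) := by positivity
      linarith
    · have c4 : Nat.Coprime q q2 := (Nat.coprime_primes (hP' _ hq) (hP' _ hq2)).2 e2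
      rw [Nat.lcm_mul_left, c4.lcm_eq_mul]
      unfold gg
      simp only [if_true, if_neg e2]
      push_cast
      rw [← mul_assoc]
      linarith
  · have c5 : Nat.Coprime p p2 := (Nat.coprime_primes (hP _ hp) (hP _ hp2)).2 e1
    have e2 : q = q2 := by
      by_contra e2
      apply hc
      have c4 : Nat.Coprime q q2 := (Nat.coprime_primes (hP' _ hq) (hP' _ hq2)).2 e2
      exact Nat.Coprime.mul_left (Nat.Coprime.mul_right c5 c1) (Nat.Coprime.mul_right c2 c4)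
    subst e2
    rw [Nat.lcm_mul_right, c5.lcm_eq_mul]
    unfold gg
    simp only [if_true, if_neg e1]
    push_cast
    linarith

lemma mr_eq (z : ℕ × ℕ) : mr z = ((z.1 * z.2 : ℕ) : ℝ) := by
  unfold mr; push_cast; rfl

/-- The number of multiples in a window. -/
lemma card_dvd_le (m L n : ℕ) (hm : 0 < m) :
    (((Icc 1 L).filter (fun r => m ∣ n + r)).card : ℝ) ≤ (L : ℝ) / m + 1 := by
  have h1 : ((Icc 1 L).filter (fun r => m ∣ n + r)).card ≤ L / m + 1 := by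
    have h2 : ((Icc 1 L).filter (fun r => m ∣ n + r)).card ≤
        (Ioc (n / m) ((n + L) / m)).card := by
      refine card_le_card_of_injOn (fun r => (n + r) / m) ?_ ?_
      · intro r hr
        rw [mem_coe, mem_filter, mem_Icc] at hr
        obtain ⟨⟨h1, h2⟩, k, hk⟩ := hr
        rw [mem_coe, mem_Ioc]
        show n / m < (n + r) / m ∧ (n + r) / m ≤ (n + L) / m
        refine ⟨?_, Nat.div_le_div_right (by omega)⟩
        rw [hk, Nat.mul_div_cancel_left _ hm, Nat.div_lt_iff_lt_mul hm]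
        have : m * k = k * m := mul_comm _ _
        omega
      · intro r hr s hs h
        rw [mem_coe, mem_filter, mem_Icc] at hr hs
        obtain ⟨_, k, hk⟩ := hr
        obtain ⟨_, l, hl⟩ := hs
        have h' : (n + r) / m = (n + s) / m := h
        rw [hk, hl, Nat.mul_div_cancel_left _ hm, Nat.mul_div_cancel_left _ hm] at h'
        subst h'
        omega
    refine h2.trans ?_
    rw [Nat.card_Ioc, Nat.add_div hm]
    generalize n / m = a
    generalize L / m = b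
    split_ifs <;> omega
  calc (((Icc 1 L).filter (fun r => m ∣ n + r)).card : ℝ) ≤ ((L / m + 1 : ℕ) : ℝ) := by
        exact_mod_cast h1
    _ = ((L / m : ℕ) : ℝ) + 1 := by push_cast; rfl
    _ ≤ _ := by
        have := @Nat.cast_div_le ℝ _ _ _ L m
        linarith

end EXx

open EXx

theorem ex : EX_stmt := by
  classical
  intro P P' hP hP' hd
  have hpos : ∀ z ∈ P ×ˢ P', 0 < z.1 * z.2 := fun z hz => by
    rw [mem_product] at hz
    exact Nat.mul_pos (hP _ hz.1).pos (hP' _ hz.2).pos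
  refine ⟨?_, ?_⟩
  · intro Φ L n
    obtain ⟨Z, hZ⟩ : ∃ Z : Finset (ℕ × ℕ), Z = P ×ˢ P' := ⟨_, rfl⟩
    rw [← hZ]
    have h1 : ((∑ r ∈ Icc 1 L, ‖∑ z ∈ Z.filter (fun z : ℕ × ℕ => z.1 * z.2 ∣ n + r),
        ee (Φ z r)‖ ^ 2 : ℝ) : ℂ) = ∑ x ∈ Z ×ˢ Z, ∑ r ∈ (Icc 1 L).filter (fun r =>
          x.1.1 * x.1.2 ∣ n + r ∧ x.2.1 * x.2.2 ∣ n + r), ee (Φ x.1 r - Φ x.2 r) := by
      have h2 : ∀ x ∈ Z ×ˢ Z, ∑ r ∈ (Icc 1 L).filter (fun r =>
          x.1.1 * x.1.2 ∣ n + r ∧ x.2.1 * x.2.2 ∣ n + r), ee (Φ x.1 r - Φ x.2 r) =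
          ∑ r ∈ Icc 1 L, (if x.1.1 * x.1.2 ∣ n + r then ee (Φ x.1 r) else 0) *
            (if x.2.1 * x.2.2 ∣ n + r then (starRingEnd ℂ) (ee (Φ x.2 r)) else 0) := by
        intro x _
        rw [sum_filter]
        refine sum_congr rfl fun r _ => ?_
        by_cases a1 : x.1.1 * x.1.2 ∣ n + r
        · by_cases a2 : x.2.1 * x.2.2 ∣ n + r
          · rw [if_pos ⟨a1, a2⟩, if_pos a1, if_pos a2, ee_sub]
          · rw [if_neg (fun h => a2 h.2), if_neg a2, mul_zero]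
        · rw [if_neg (fun h => a1 h.1), if_neg a1, zero_mul]
      rw [sum_congr rfl h2, sum_comm, Complex.ofReal_sum]
      refine sum_congr rfl fun r _ => ?_
      rw [Complex.ofReal_pow, ← Complex.mul_conj', sum_filter, map_sum, sum_mul_sum, sum_product]
      refine sum_congr rfl fun z _ => sum_congr rfl fun w _ => ?_
      split_ifs <;> simp
    have h3 : ∀ x ∈ (Z ×ˢ Z).filter (fun x => Nat.Coprime (x.1.1 * x.1.2) (x.2.1 * x.2.2)),
        ∑ r ∈ (Icc 1 L).filter (fun r =>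
          x.1.1 * x.1.2 ∣ n + r ∧ x.2.1 * x.2.2 ∣ n + r), ee (Φ x.1 r - Φ x.2 r) =
        ∑ r ∈ (Icc 1 L).filter (fun r => (x.1.1 * x.1.2) * (x.2.1 * x.2.2) ∣ n + r),
          ee (Φ x.1 r - Φ x.2 r) := by
      intro x hx
      rw [mem_filter] at hx
      refine sum_congr ?_ fun _ _ => rfl
      refine filter_congr fun r _ => ?_
      exact ⟨fun h => hx.2.mul_dvd_of_dvd_of_dvd h.1 h.2,
        fun h => ⟨(dvd_mul_right _ _).trans h, (dvd_mul_left _ _).trans h⟩⟩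
    rw [h1, ← sum_filter_add_sum_filter_not (Z ×ˢ Z)
      (fun x => Nat.Coprime (x.1.1 * x.1.2) (x.2.1 * x.2.2)), sum_congr rfl h3,
      add_sub_cancel_left]
    have h4 : ∀ x ∈ (Z ×ˢ Z).filter (fun x => ¬ Nat.Coprime (x.1.1 * x.1.2) (x.2.1 * x.2.2)),
        ‖∑ r ∈ (Icc 1 L).filter (fun r =>
          x.1.1 * x.1.2 ∣ n + r ∧ x.2.1 * x.2.2 ∣ n + r), ee (Φ x.1 r - Φ x.2 r)‖ ≤
        L * gg x + 1 := by
      intro x hx
      rw [mem_filter] at hx
      have hx1 := hx.1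
      rw [hZ] at hx1
      have hm := mem_product.1 hx1
      have h5 := lcm_le hP hP' hd x hx1 hx.2
      have hl : 0 < Nat.lcm (x.1.1 * x.1.2) (x.2.1 * x.2.2) :=
        Nat.lcm_pos (hpos _ hm.1) (hpos _ hm.2)
      have h6 := card_dvd_le (Nat.lcm (x.1.1 * x.1.2) (x.2.1 * x.2.2)) L n hl
      calc _ ≤ ∑ r ∈ (Icc 1 L).filter (fun r =>
          x.1.1 * x.1.2 ∣ n + r ∧ x.2.1 * x.2.2 ∣ n + r), ‖ee (Φ x.1 r - Φ x.2 r)‖ :=
            norm_sum_le _ _
        _ = (((Icc 1 L).filter (fun r =>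
          x.1.1 * x.1.2 ∣ n + r ∧ x.2.1 * x.2.2 ∣ n + r)).card : ℝ) := by
            simp only [norm_ee, sum_const, nsmul_eq_mul, mul_one]
        _ = (((Icc 1 L).filter (fun r =>
          Nat.lcm (x.1.1 * x.1.2) (x.2.1 * x.2.2) ∣ n + r)).card : ℝ) := by
            congr 2
            refine filter_congr fun r _ => ?_
            rw [Nat.lcm_dvd_iff]
        _ ≤ (L : ℝ) * (1 / ((Nat.lcm (x.1.1 * x.1.2) (x.2.1 * x.2.2) : ℕ) : ℝ)) + 1 := by
            rw [mul_one_div]; exact h6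
        _ ≤ L * gg x + 1 := by gcongr
    refine (norm_sum_le _ _).trans ((sum_le_sum h4).trans ?_)
    calc _ ≤ ∑ x ∈ Z ×ˢ Z, ((L : ℝ) * gg x + 1) :=
          sum_le_sum_of_subset_of_nonneg (filter_subset _ _) fun x _ _ => by
            have := gg_nonneg x
            positivity
      _ = _ := by
        rw [sum_add_distrib, ← mul_sum, hZ, sum_gg]
        simp only [sum_const, nsmul_eq_mul, mul_one, card_product]
        push_cast
        ring
  · refine (sum_le_sum fun x hx => ?_).trans ((sum_le_sum_of_subset_of_nonneg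
      (filter_subset _ _) fun x _ _ => gg_nonneg x).trans (sum_gg P P').le)
    rw [mem_filter] at hx
    have hm := mem_product.1 hx.1
    have h5 := lcm_le hP hP' hd x hx.1 hx.2
    refine le_trans ?_ h5
    have hl : 0 < Nat.lcm (x.1.1 * x.1.2) (x.2.1 * x.2.2) :=
      Nat.lcm_pos (hpos _ hm.1) (hpos _ hm.2)
    have h6 : Nat.lcm (x.1.1 * x.1.2) (x.2.1 * x.2.2) ≤ (x.1.1 * x.1.2) * (x.2.1 * x.2.2) :=
      Nat.le_of_dvd (Nat.mul_pos (hpos _ hm.1) (hpos _ hm.2)) (Nat.lcm_dvd_mul _ _)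
    rw [mr_eq, mr_eq, ← Nat.cast_mul]
    refine one_div_le_one_div_of_le (by exact_mod_cast hl) (by exact_mod_cast h6)

end Pool.Agent.EXS
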