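import Mathlib
import Pool.Agent.Lib.EXS.Defs

/-!
# Exceptional sets (MP_663568_nt), row FIX: one fixed length of the windows
-/

set_option autoImplicit false
open Finset Polynomial

namespace Pool.Agent.EXS

open Pool.Agent.Lib.MP_663568_nt Pool.Agent.Lib.MP_663568_nt.Katai
  Pool.Agent.Lib.MP_663568_nt.Nul Pool.Agent.Lib.MP_663568_nt.Nul.EqA
  Pool.Agent.Lib.MP_663568_nt.H6 Pool.Agent.TU

namespace FIXx

lemma norm_muC_le' (n : ℕ) : ‖muC n‖ ≤ 1 := by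
  rw [muC, Complex.norm_intCast]
  exact_mod_cast ArithmeticFunction.abs_moebius_le_one

lemma norm_win (L n : ℕ) (p : ℕ → ℝ) : ‖∑ r ∈ Icc 1 L, muC (n + r) * ee (p r)‖ ≤ L := by
  calc _ ≤ ∑ r ∈ Icc 1 L, ‖muC (n + r) * ee (p r)‖ := norm_sum_le _ _
    _ ≤ ∑ r ∈ Icc 1 L, (1 : ℝ) := by
        apply sum_le_sum
        intro r _
        rw [norm_mul, norm_ee, mul_one]
        exact norm_muC_le' _
    _ = L := by simp

lemma US_le (S : Set ℝ[X]) (L n : ℕ) : US S L n ≤ L :=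
  Real.iSup_le (fun _ => norm_win L n _) (Nat.cast_nonneg L)

lemma CKn_nonneg (t H₀ M : ℕ) : 0 ≤ CKn t H₀ M := by unfold CKn; positivity

lemma EB_nonneg {t : ℕ} (b : Fin t → ℝ) (κ : ℝ) (H₀ N : ℕ) : 0 ≤ EB b κ H₀ N := by
  unfold EB
  exact sum_nonneg fun _ _ => by positivity

lemma sum_mr (P P' : Finset ℕ) : ∑ z ∈ P ×ˢ P', (1 / mr z) = WW P * WW P' := by
  unfold WW
  rw [sum_mul_sum, sum_product]
  refine sum_congr rfl fun p _ => sum_congr rfl fun p' _ => ?_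
  unfold mr
  simp only []
  rw [one_div_mul_one_div]

lemma alg1 (W κ ε L CK x : ℝ) (hW : 0 < W) :
    (κ + ε / 2) * W * L + 2 * CK * x = W * ((κ + ε / 2) * L + 2 * CK / W * x) := by
  field_simp

lemma alg2 (W κ ε L CK e l k : ℝ) (hW : 0 < W) :
    (κ + ε / 2) * L * (1 + l) + 2 * CK / W * (2 * L * W * e + 6 * L ^ 2 * k) =
      L * ((κ + ε / 2) * l + 4 * CK * e + ((κ + ε / 2) + 12 * CK * L * k / W)) := by
  field_simp
  ring

end FIXx

open FIXx

theorem fix_len (hG : GD_stmt) (hW : WIN_stmt) (hA : AVG_stmt) : FIX_stmt := by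
  intro t H₀ ε ht hH₀ hε hε1
  obtain ⟨V, P₀, η, hη, hwin⟩ := hW t H₀ (ε / 2) ht hH₀ (by linarith) (by linarith)
  obtain ⟨Q, hQ, hgd⟩ := hG t V P₀ 1 η ht hη
  refine ⟨Q, hQ, fun δ hδ hδ1 => ?_⟩
  obtain ⟨P, P', H₁, hgood⟩ := hgd δ hδ hδ1
  obtain ⟨L₀, hL₀⟩ := hwin Q δ P P' H₁ hgood
  have e1 : (8 : ℝ) / (ε / 2) = 16 / ε := by field_simp; norm_num
  rw [e1] at hL₀
  obtain ⟨L, hL⟩ : ∃ L : ℕ, L = max L₀ 1 := ⟨_, rfl⟩
  have hL1 : 1 ≤ L := by rw [hL]; exact le_max_right _ _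
  have hLL₀ : L₀ ≤ L := by rw [hL]; exact le_max_left _ _
  obtain ⟨CK, hCK⟩ : ∃ CK : ℝ, CK = CKn t H₀ ⌈16 / ε⌉₊ := ⟨_, rfl⟩
  have hCK0 : 0 ≤ CK := by rw [hCK]; exact CKn_nonneg _ _ _
  rw [← hCK] at hL₀ ⊢
  obtain ⟨W, hWdef⟩ : ∃ W : ℝ, W = WW P * WW P' := ⟨_, rfl⟩
  have hW1 : 1 ≤ W := by
    rw [hWdef]
    nlinarith [hgood.hW, hgood.hW']
  have hW0 : 0 < W := by linarith
  have hLr : (0 : ℝ) < L := by exact_mod_cast hL1
  obtain ⟨E, hE⟩ : ∃ E : ℝ, E = 2 + 12 * CK * L * #(P ×ˢ P') / W := ⟨_, rfl⟩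
  have hE0 : 0 ≤ E := by rw [hE]; positivity
  obtain ⟨N₁, hN₁⟩ : ∃ N₁ : ℕ, ∀ N : ℕ, N₁ ≤ N → E ≤ ε / 2 * Real.log N := by
    have h1 : Filter.Tendsto (fun N : ℕ => ε / 2 * Real.log N) Filter.atTop Filter.atTop :=
      (Real.tendsto_log_atTop.comp tendsto_natCast_atTop_atTop).const_mul_atTop (by linarith)
    exact Filter.eventually_atTop.1 (h1.eventually_ge_atTop E)
  refine ⟨L, hL1, max L N₁, fun N hN b κ hκ => ?_⟩
  have hNL : L ≤ N := (le_max_left _ _).trans hN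
  have hElog := hN₁ N ((le_max_right _ _).trans hN)
  have hsum := sum_inv_le_log N
  have hlog : 0 ≤ Real.log N := Real.log_natCast_nonneg N
  rcases le_or_gt 1 κ with hκ1 | hκ1
  · -- trivial bound
    have h1 : ∑ n ∈ Icc 1 N, (1 / (n : ℝ)) * US (Mn t Q δ) L n ≤ L * (1 + Real.log N) := by
      calc _ ≤ ∑ n ∈ Icc 1 N, (1 / (n : ℝ)) * L := by
            apply sum_le_sum
            intro n _
            exact mul_le_mul_of_nonneg_left (US_le _ _ _) (by positivity)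
        _ = L * ∑ n ∈ Icc 1 N, (1 / (n : ℝ)) := by rw [← sum_mul, mul_comm]
        _ ≤ _ := mul_le_mul_of_nonneg_left hsum hLr.le
    refine h1.trans (mul_le_mul_of_nonneg_left ?_ hLr.le)
    have h2 : 0 ≤ 4 * CK * EB b κ H₀ N := by
      have := EB_nonneg b κ H₀ N
      positivity
    have h3 : 2 ≤ E := by
      rw [hE]
      have : 0 ≤ 12 * CK * L * #(P ×ˢ P') / W := by positivity
      linarith
    nlinarith
  · -- the main case
    obtain ⟨c, hc⟩ : ∃ c : ℕ → ℝ, c = fun n => ∑ z ∈ P ×ˢ P',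
      (((Ioc (n / (z.1 * z.2)) ((n + L) / (z.1 * z.2))).filter
        (fun j => κ * H₀ ≤ ‖Ab b H₀ j‖)).card : ℝ) := ⟨_, rfl⟩
    have h1 : ∀ n : ℕ, US (Mn t Q δ) L n ≤ (κ + ε / 2) * L + 2 * CK / W * c n := by
      intro n
      have hcn : 0 ≤ c n := by
        rw [hc]
        exact sum_nonneg fun _ _ => Nat.cast_nonneg _
      refine Real.iSup_le (fun F => ?_) (by positivity)
      have h2 := hL₀ L n hLL₀ F.1 F.2.1 F.2.2 b κ hκ
      rw [← hWdef] at h2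
      have h3 : W * ‖∑ r ∈ Icc 1 L, muC (n + r) * ee (eval (r : ℝ) (F : ℝ[X]))‖ ≤
          W * ((κ + ε / 2) * L + 2 * CK / W * c n) := by
        rw [← alg1 W κ ε L CK (c n) hW0]
        have h9 : c n = ∑ z ∈ P ×ˢ P',
          (((Ioc (n / (z.1 * z.2)) ((n + L) / (z.1 * z.2))).filter
            (fun j => κ * H₀ ≤ ‖Ab b H₀ j‖)).card : ℝ) := by rw [hc]
        rw [h9]
        exact h2
      exact le_of_mul_le_mul_left h3 hW0
    have h4 : ∑ n ∈ Icc 1 N, (1 / (n : ℝ)) * c n ≤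
        2 * L * W * EB b κ H₀ N + 6 * (L : ℝ) ^ 2 * #(P ×ˢ P') := by
      have h5 : ∀ z ∈ P ×ˢ P', ∑ n ∈ Icc 1 N, (1 / (n : ℝ)) *
          (((Ioc (n / (z.1 * z.2)) ((n + L) / (z.1 * z.2))).filter
            (fun j => κ * H₀ ≤ ‖Ab b H₀ j‖)).card : ℝ) ≤
          2 * L * (1 / mr z) * EB b κ H₀ N + 6 * (L : ℝ) ^ 2 := by
        intro z hz
        rw [mem_product] at hz
        have hp := (hgood.prime _ hz.1).two_le
        have hp' := (hgood.prime' _ hz.2).two_le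
        have h6 := hA (fun j => κ * H₀ ≤ ‖Ab b H₀ j‖) (z.1 * z.2) L N (by nlinarith) hNL
        have h7 : ((z.1 * z.2 : ℕ) : ℝ) = mr z := by unfold mr; push_cast; ring
        rw [h7] at h6
        refine le_trans (le_of_eq ?_) (h6.trans (le_of_eq ?_))
        · refine sum_congr rfl fun n _ => ?_
          congr 3
        · unfold EB
          have h8 : ∀ (i1 i2 : DecidablePred fun j : ℕ => κ * (H₀ : ℝ) ≤ ‖Ab b H₀ j‖),
              (∑ j ∈ @Finset.filter ℕ (fun j => κ * (H₀ : ℝ) ≤ ‖Ab b H₀ j‖) i1 (Icc 1 N),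
                (1 / (j : ℝ))) = ∑ j ∈ @Finset.filter ℕ (fun j => κ * (H₀ : ℝ) ≤ ‖Ab b H₀ j‖) i2
                  (Icc 1 N), (1 / (j : ℝ)) := by
            intro i1 i2
            congr 1
            exact Finset.filter_congr_decidable _ _ _
          rw [h8 _ (fun j => Classical.propDecidable _)]
          ring
      calc ∑ n ∈ Icc 1 N, (1 / (n : ℝ)) * c n
          = ∑ z ∈ P ×ˢ P', ∑ n ∈ Icc 1 N, (1 / (n : ℝ)) *
          (((Ioc (n / (z.1 * z.2)) ((n + L) / (z.1 * z.2))).filter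
            (fun j => κ * H₀ ≤ ‖Ab b H₀ j‖)).card : ℝ) := by
            rw [hc, sum_comm]
            refine sum_congr rfl fun n _ => ?_
            rw [mul_sum]
        _ ≤ ∑ z ∈ P ×ˢ P', (2 * L * (1 / mr z) * EB b κ H₀ N + 6 * (L : ℝ) ^ 2) :=
            sum_le_sum h5
        _ = 2 * L * (∑ z ∈ P ×ˢ P', (1 / mr z)) * EB b κ H₀ N + 6 * (L : ℝ) ^ 2 * #(P ×ˢ P') := by
            rw [sum_add_distrib, sum_const, nsmul_eq_mul, mul_sum, sum_mul]
            ring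
        _ = _ := by rw [sum_mr, hWdef]
    calc ∑ n ∈ Icc 1 N, (1 / (n : ℝ)) * US (Mn t Q δ) L n
        ≤ ∑ n ∈ Icc 1 N, (1 / (n : ℝ)) * ((κ + ε / 2) * L + 2 * CK / W * c n) := by
          apply sum_le_sum
          intro n _
          exact mul_le_mul_of_nonneg_left (h1 n) (by positivity)
      _ = (κ + ε / 2) * L * (∑ n ∈ Icc 1 N, (1 / (n : ℝ))) +
          2 * CK / W * ∑ n ∈ Icc 1 N, (1 / (n : ℝ)) * c n := by
          rw [mul_sum, mul_sum, ← sum_add_distrib]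
          refine sum_congr rfl fun n _ => ?_
          ring
      _ ≤ (κ + ε / 2) * L * (1 + Real.log N) +
          2 * CK / W * (2 * L * W * EB b κ H₀ N + 6 * (L : ℝ) ^ 2 * #(P ×ˢ P')) := by
          gcongr
      _ = L * ((κ + ε / 2) * Real.log N + 4 * CK * EB b κ H₀ N +
          ((κ + ε / 2) + 12 * CK * L * #(P ×ˢ P') / W)) := alg2 _ _ _ _ _ _ _ _ hW0
      _ ≤ L * ((κ + ε / 2) * Real.log N + 4 * CK * EB b κ H₀ N + E) := by
          gcongr
          rw [hE]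
          linarith
      _ ≤ L * ((κ + ε) * Real.log N + 4 * CK * EB b κ H₀ N) := by
          refine mul_le_mul_of_nonneg_left ?_ hLr.le
          nlinarith

end Pool.Agent.EXS
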