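import Mathlib
import Pool.Agent.Lib.EXS.Defs

/-!
# Exceptional sets: row FOU, the main term for one shift
-/

set_option autoImplicit false
open Finset Polynomial

namespace Pool.Agent.EXS

open Pool.Agent.Lib.MP_663568_nt Pool.Agent.Lib.MP_663568_nt.Katai
  Pool.Agent.Lib.MP_663568_nt.Nul Pool.Agent.Lib.MP_663568_nt.Nul.EqA
  Pool.Agent.Lib.MP_663568_nt.H6 Pool.Agent.TU

namespace FOUx

lemma muC_norm (n : ℕ) : ‖muC n‖ ≤ 1 := by
  unfold muC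
  rw [Complex.norm_intCast]
  exact_mod_cast ArithmeticFunction.abs_moebius_le_one

/-- Cauchy and Schwarz for a window -/
lemma cs (L : ℕ) (x : ℕ → ℝ) (hx : ∀ r, 0 ≤ x r) (B : ℝ) (hB : 0 ≤ B)
    (h : ∑ r ∈ Icc 1 L, x r ^ 2 ≤ B ^ 2 * L) : ∑ r ∈ Icc 1 L, x r ≤ B * L := by
  have h1 : (∑ r ∈ Icc 1 L, x r) ^ 2 ≤ (#(Icc 1 L) : ℝ) * ∑ r ∈ Icc 1 L, x r ^ 2 :=
    sq_sum_le_card_mul_sum_sq
  rw [Nat.card_Icc, Nat.add_sub_cancel] at h1
  have h2 : (∑ r ∈ Icc 1 L, x r) ^ 2 ≤ (B * L) ^ 2 := by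
    refine h1.trans ?_
    calc (L : ℝ) * ∑ r ∈ Icc 1 L, x r ^ 2 ≤ L * (B ^ 2 * L) :=
          mul_le_mul_of_nonneg_left h (Nat.cast_nonneg _)
      _ = (B * L) ^ 2 := by ring
  exact (sq_le_sq₀ (sum_nonneg fun r _ => hx r) (by positivity)).mp h2

lemma cnt_dev {t V P₀ : ℕ} {W₀ η Q δ : ℝ} {P P' : Finset ℕ} {H₁ : ℕ} (hη : 0 < η)
    (hG : Good t V P₀ W₀ η Q δ P P' H₁) (L n : ℕ) (hL : H₁ ≤ L) :
    ∑ r ∈ Icc 1 L, |cnt P P' n r - WW P * WW P'| ≤ √η * (WW P * WW P') * L := by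
  have hW : 0 ≤ WW P * WW P' := mul_nonneg (WW_nonneg _) (WW_nonneg _)
  refine cs L _ (fun r => abs_nonneg _) _ (by positivity) ?_
  refine (hG.tk L n hL).trans (le_of_eq ?_)
  rw [mul_pow (√η), Real.sq_sqrt hη.le]

lemma dsum_small {t V P₀ : ℕ} {W₀ η Q δ : ℝ} {P P' : Finset ℕ} {H₁ : ℕ} (hη : 0 < η)
    (hG : Good t V P₀ W₀ η Q δ P P' H₁) (L n : ℕ) (hL : H₁ ≤ L) (F : ℝ[X]) (hF : F.natDegree ≤ t)
    (hS : Sq Q δ (F.coeff t)) (w : Fin t → ℤ) (hw : w ≠ 0) (hwV : ∀ i, |w i| ≤ (V : ℤ)) :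
    ∑ r ∈ Icc 1 L, ‖dsum P P' w F n r‖ ≤ √η * (WW P * WW P') * L := by
  have hW : 0 ≤ WW P * WW P' := mul_nonneg (WW_nonneg _) (WW_nonneg _)
  refine cs L _ (fun r => norm_nonneg _) _ (by positivity) ?_
  refine (hG.sm L n hL F hF hS w hw hwV).trans (le_of_eq ?_)
  rw [mul_pow (√η), Real.sq_sqrt hη.le]

lemma dsum_zero (P P' : Finset ℕ) {t : ℕ} (F : ℝ[X]) (n r : ℕ) :
    dsum P P' (0 : Fin t → ℤ) F n r = ((cnt P P' n r : ℝ) : ℂ) := by
  unfold dsum cnt psi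
  simp [ee]

end FOUx

open FOUx in
theorem fou (hA : ALG_stmt) : FOU_stmt := by
  intro t H₀ M V P₀ W₀ η Q δ P P' H₁ Λ c K ht hη hK hG hV L n hL F hF hS b h hh1 hhH
  obtain ⟨hA1, hA2, -, -⟩ := hA t
  obtain ⟨W, hW⟩ : ∃ W : ℝ, W = WW P * WW P' := ⟨_, rfl⟩
  have hW0 : 0 ≤ W := by rw [hW]; exact mul_nonneg (WW_nonneg _) (WW_nonneg _)
  rw [← hW]
  -- the phases
  obtain ⟨ε, hε⟩ : ∃ ε : (Fin t → ℤ) → ℂ, ε = fun l =>
    ee (ph b (h : ℝ)) * ee (-∑ i, (l i : ℝ) * b i) := ⟨_, rfl⟩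
  have hε1 : ∀ l, ‖ε l‖ = 1 := fun l => by rw [hε]; simp [norm_ee]
  obtain ⟨u, hu⟩ : ∃ u : ℕ → ℂ, u = fun r => muC (n + r) * ee (F.eval (r : ℝ)) := ⟨_, rfl⟩
  have hu1 : ∀ r, ‖u r‖ ≤ 1 := fun r => by
    rw [hu]; simp only [norm_mul, norm_ee, mul_one]; exact muC_norm _
  have hterm : ∀ (z : ℕ × ℕ) (r : ℕ),
      muC (n + r) * (ee (ph b (h : ℝ)) * (ee (F.eval ((r : ℝ) - mr z * h)) *
        ((K (fun i => zv t F (mr z) ((r : ℝ) - mr z * h) i - b i) : ℝ) : ℂ))) =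
      ∑ l ∈ Λ, ((c l : ℝ) : ℂ) * (ε l * (u r * ee (psi (wv h l) F (mr z) (r : ℝ)))) := by
    intro z r
    rw [hK.eq, mul_sum, mul_sum, mul_sum]
    refine sum_congr rfl fun l _ => ?_
    have e1 : ∑ i, (l i : ℝ) * (zv t F (mr z) ((r : ℝ) - mr z * h) i - b i) =
        ∑ i, (l i : ℝ) * zv t F (mr z) ((r : ℝ) - mr z * h) i + -∑ i, (l i : ℝ) * b i := by
      rw [← sum_neg_distrib, ← sum_add_distrib]
      exact sum_congr rfl fun i _ => by ring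
    have e2 := hA1 h l F hF (mr z) (r : ℝ)
    rw [e1, ee_add]
    have e3 : ee (F.eval ((r : ℝ) - mr z * h)) *
        ee (∑ i, (l i : ℝ) * zv t F (mr z) ((r : ℝ) - mr z * h) i) =
        ee (F.eval (r : ℝ)) * ee (psi (wv h l) F (mr z) (r : ℝ)) := by
      rw [← ee_add, ← ee_add, e2]
    rw [hε, hu]
    simp only
    calc _ = muC (n + r) * ee (ph b (h : ℝ)) * ((c l : ℝ) : ℂ) * ee (-∑ i, (l i : ℝ) * b i) *
          (ee (F.eval ((r : ℝ) - mr z * h)) *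
            ee (∑ i, (l i : ℝ) * zv t F (mr z) ((r : ℝ) - mr z * h) i)) := by ring
      _ = _ := by rw [e3]; ring
  have hmain : ∑ z ∈ P ×ˢ P', ∑ r ∈ (Icc 1 L).filter (fun r => z.1 * z.2 ∣ n + r),
      muC (n + r) * (ee (ph b (h : ℝ)) * (ee (F.eval ((r : ℝ) - mr z * h)) *
        ((K (fun i => zv t F (mr z) ((r : ℝ) - mr z * h) i - b i) : ℝ) : ℂ))) =
      ∑ l ∈ Λ, ((c l : ℝ) : ℂ) * (ε l * ∑ r ∈ Icc 1 L, u r * dsum P P' (wv h l) F n r) := by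
    have h1 : ∀ z ∈ P ×ˢ P', ∑ r ∈ (Icc 1 L).filter (fun r => z.1 * z.2 ∣ n + r),
      muC (n + r) * (ee (ph b (h : ℝ)) * (ee (F.eval ((r : ℝ) - mr z * h)) *
        ((K (fun i => zv t F (mr z) ((r : ℝ) - mr z * h) i - b i) : ℝ) : ℂ))) =
        ∑ l ∈ Λ, ∑ r ∈ Icc 1 L, if z.1 * z.2 ∣ n + r then
          ((c l : ℝ) : ℂ) * (ε l * (u r * ee (psi (wv h l) F (mr z) (r : ℝ)))) else 0 := by
      intro z _
      rw [sum_filter, sum_comm]
      refine sum_congr rfl fun r _ => ?_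
      rw [hterm z r]
      split_ifs
      · rfl
      · simp
    rw [sum_congr rfl h1, sum_comm]
    refine sum_congr rfl fun l _ => ?_
    rw [sum_comm, mul_sum, mul_sum]
    refine sum_congr rfl fun r _ => ?_
    rw [dsum, sum_filter, mul_sum, mul_sum, mul_sum]
    refine sum_congr rfl fun z _ => ?_
    split_ifs <;> simp
  rw [hmain]
  have hmem := hK.hv_mem h hh1 hhH
  rw [← add_sum_erase Λ _ hmem]
  -- the main frequency
  have hwz : wv h (hv t h) = 0 := (hA2 h (hv t h)).mpr rfl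
  have hεh : ε (hv t h) = 1 := by
    rw [hε]
    simp only
    rw [← ee_add]
    have : ph b (h : ℝ) + -∑ i, ((hv t h i : ℤ) : ℝ) * b i = 0 := by
      unfold ph hv
      rw [← sub_eq_add_neg, ← sum_sub_distrib]
      refine sum_eq_zero fun i _ => ?_
      push_cast
      ring
    rw [this]
    simp [ee]
  have hc1 := hK.c1 (hv t h)
  have hc0 := hK.c0 (hv t h)
  have h0 : ‖((c (hv t h) : ℝ) : ℂ) * (ε (hv t h) *
        ∑ r ∈ Icc 1 L, u r * dsum P P' (wv h (hv t h)) F n r) -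
      ((c (hv t h) * W : ℝ) : ℂ) * ∑ r ∈ Icc 1 L, muC (n + r) * ee (F.eval (r : ℝ))‖ ≤
        √η * W * L := by
    rw [hwz, hεh, one_mul]
    have e1 : ((c (hv t h) : ℝ) : ℂ) * ∑ r ∈ Icc 1 L, u r * dsum P P' (0 : Fin t → ℤ) F n r -
      ((c (hv t h) * W : ℝ) : ℂ) * ∑ r ∈ Icc 1 L, muC (n + r) * ee (F.eval (r : ℝ)) =
      ((c (hv t h) : ℝ) : ℂ) * ∑ r ∈ Icc 1 L, u r * (((cnt P P' n r - W : ℝ)) : ℂ) := by
      rw [mul_sum, mul_sum, mul_sum, ← sum_sub_distrib]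
      refine sum_congr rfl fun r _ => ?_
      rw [dsum_zero, hu]
      push_cast
      ring
    rw [e1, norm_mul, Complex.norm_real, Real.norm_eq_abs, abs_of_nonneg hc0]
    have h1 : ‖∑ r ∈ Icc 1 L, u r * (((cnt P P' n r - W : ℝ)) : ℂ)‖ ≤ √η * W * L := by
      refine (norm_sum_le _ _).trans ?_
      rw [hW]
      refine le_trans (sum_le_sum fun r _ => ?_) (cnt_dev hη hG L n hL)
      rw [norm_mul, Complex.norm_real, Real.norm_eq_abs]
      exact mul_le_of_le_one_left (abs_nonneg _) (hu1 r)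
    have h2 := norm_nonneg (∑ r ∈ Icc 1 L, u r * (((cnt P P' n r - W : ℝ)) : ℂ))
    calc _ ≤ 1 * (√η * W * L) := mul_le_mul hc1 h1 h2 zero_le_one
      _ = _ := one_mul _
  -- the other frequencies
  have h1 : ‖∑ l ∈ Λ.erase (hv t h), ((c l : ℝ) : ℂ) *
      (ε l * ∑ r ∈ Icc 1 L, u r * dsum P P' (wv h l) F n r)‖ ≤ CKn t H₀ M * (√η * W * L) := by
    have hs0 : 0 ≤ √η * W * L := by positivity
    refine (norm_sum_le _ _).trans ?_
    calc _ ≤ ∑ l ∈ Λ.erase (hv t h), c l * (√η * W * L) := by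
          refine sum_le_sum fun l hl => ?_
          rw [mem_erase] at hl
          rw [norm_mul, norm_mul, hε1, one_mul, Complex.norm_real, Real.norm_eq_abs,
            abs_of_nonneg (hK.c0 l)]
          refine mul_le_mul_of_nonneg_left ?_ (hK.c0 l)
          refine (norm_sum_le _ _).trans ?_
          rw [hW]
          refine le_trans (sum_le_sum fun r _ => ?_) (dsum_small hη hG L n hL F hF hS (wv h l)
            (fun h' => hl.1 ((hA2 h l).mp h')) (hV l hl.2 h hhH))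
          rw [norm_mul]
          exact mul_le_of_le_one_left (norm_nonneg _) (hu1 r)
      _ = (∑ l ∈ Λ.erase (hv t h), c l) * (√η * W * L) := by rw [sum_mul]
      _ ≤ (∑ l ∈ Λ, c l) * (√η * W * L) := by
          apply mul_le_mul_of_nonneg_right _ hs0
          exact sum_le_sum_of_subset_of_nonneg (erase_subset _ _) fun l _ _ => hK.c0 l
      _ ≤ _ := mul_le_mul_of_nonneg_right hK.sum hs0
  have e2 : ∀ x y z : ℂ, x + y - z = (x - z) + y := fun x y z => by ring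
  rw [e2]
  refine (norm_add_le _ _).trans ?_
  calc _ ≤ √η * W * L + CKn t H₀ M * (√η * W * L) := add_le_add h0 h1
    _ = _ := by ring

end Pool.Agent.EXS
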