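import Mathlib
import Pool.Agent.Lib.EXS.Defs
import Pool.Agent.Lib.MP_663568_h6.MainQ

/-!
# Exceptional sets: row GD, good pairs of sets of primes exist
-/

set_option autoImplicit false
open Finset Polynomial

namespace Pool.Agent.EXS

open Pool.Agent.Lib.MP_663568_nt Pool.Agent.Lib.MP_663568_nt.Katai
  Pool.Agent.Lib.MP_663568_nt.Nul Pool.Agent.Lib.MP_663568_nt.Nul.EqA
  Pool.Agent.Lib.MP_663568_nt.H6 Pool.Agent.TU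

theorem gd (hT : TK_stmt) (hU : SMU_stmt) (hZ : SMZ_stmt) : GD_stmt := by
  classical
  intro t V P₀ W₀ η ht hη
  obtain ⟨AU, WU, hU⟩ := hU t V η ht hη
  obtain ⟨AZ, WZ, hZ⟩ := hZ t V η ht hη
  obtain ⟨WT, hT⟩ := hT η hη
  obtain ⟨W, hW⟩ : ∃ W : ℝ, W = max (max W₀ WT) (max WU WZ) := ⟨_, rfl⟩
  have w1 : W₀ ≤ W := hW ▸ (le_max_left _ _).trans (le_max_left _ _)
  have w2 : WT ≤ W := hW ▸ (le_max_right _ _).trans (le_max_left _ _)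
  have w3 : WU ≤ W := hW ▸ (le_max_left _ _).trans (le_max_right _ _)
  have w4 : WZ ≤ W := hW ▸ (le_max_right _ _).trans (le_max_right _ _)
  obtain ⟨E, hE1, hE⟩ : ∃ E : ℕ, 1 ≤ E ∧ 8 * W ≤ Real.log E := by
    have h1 : (0 : ℝ) < Real.exp (8 * W) := Real.exp_pos _
    refine ⟨⌈Real.exp (8 * W)⌉₊, Nat.one_le_iff_ne_zero.2 (Nat.ceil_pos.2 h1).ne', ?_⟩
    rw [Real.le_log_iff_exp_le (lt_of_lt_of_le h1 (Nat.le_ceil _))]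
    exact Nat.le_ceil _
  have hbig : ∀ a : ℕ, a < 4 ^ a := fun a => Nat.lt_pow_self (by norm_num)
  obtain ⟨a₀, ha₀⟩ : ∃ a₀ : ℕ, a₀ = 7 + P₀ + AU + AZ := ⟨_, rfl⟩
  obtain ⟨b₀, hb₀⟩ : ∃ b₀ : ℕ, b₀ = E * (a₀ + 1) := ⟨_, rfl⟩
  obtain ⟨hab₀, hW₁⟩ := WW_blk_mul a₀ E W (by omega) hE1 hE
  rw [← hb₀] at hab₀ hW₁
  obtain ⟨QU, hQU, hU⟩ := hU a₀ b₀ (by omega) hab₀ (w3.trans hW₁)
  obtain ⟨QZ, hQZ, hZ⟩ := hZ a₀ b₀ (by omega) hab₀ (w4.trans hW₁)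
  refine ⟨max QU QZ, hQU.trans (le_max_left _ _), fun δ hδ hδ1 => ?_⟩
  obtain ⟨BU, hU⟩ := hU δ hδ hδ1
  obtain ⟨BZ, hZ⟩ := hZ δ hδ hδ1
  obtain ⟨a₁, ha₁⟩ : ∃ a₁ : ℕ, a₁ = 7 + P₀ + b₀ + BU + BZ := ⟨_, rfl⟩
  obtain ⟨b₁, hb₁⟩ : ∃ b₁ : ℕ, b₁ = E * (a₁ + 1) := ⟨_, rfl⟩
  obtain ⟨hab₁, hW₂⟩ := WW_blk_mul a₁ E W (by omega) hE1 hE
  rw [← hb₁] at hab₁ hW₂
  obtain ⟨HU, hU⟩ := hU a₁ b₁ (by omega) hab₁ (w3.trans hW₂)
  obtain ⟨HZ, hZ⟩ := hZ a₁ b₁ (by omega) hab₁ (w4.trans hW₂)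
  have hp0 : ∀ p ∈ blk a₀ b₀, p.Prime := fun p hp => (mem_blk.1 hp).2
  have hp1 : ∀ p ∈ blk a₁ b₁, p.Prime := fun p hp => (mem_blk.1 hp).2
  have hl0 : ∀ p ∈ blk a₀ b₀, P₀ ≤ p := fun p hp => by
    have h1 := (mem_blk.1 hp).1.1
    have h2 := hbig a₀
    omega
  have hl1 : ∀ p ∈ blk a₁ b₁, P₀ ≤ p := fun p hp => by
    have h1 := (mem_blk.1 hp).1.1
    have h2 := hbig a₁
    omega
  have hdj : Disjoint (blk a₀ b₀) (blk a₁ b₁) := by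
    rw [disjoint_left]
    intro p hp hq
    have h1 := (mem_blk.1 hp).1.2
    have h2 := (mem_blk.1 hq).1.1
    have h3 : 4 ^ b₀ ≤ 4 ^ a₁ := Nat.pow_le_pow_right (by norm_num) (by omega)
    omega
  obtain ⟨HT, hT⟩ := hT (blk a₀ b₀) (blk a₁ b₁) hp0 hp1 hdj (w2.trans hW₁) (w2.trans hW₂)
  refine ⟨blk a₀ b₀, blk a₁ b₁, HT + HU + HZ, ?_⟩
  refine ⟨hp0, hp1, hl0, hl1, hdj, w1.trans hW₁, w1.trans hW₂, fun L n hL => hT L n (by omega), ?_⟩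
  intro L n hL F hF hS w hw hwV
  have hSU : Sq QU δ (F.coeff t) := fun q h1 h2 => hS q h1 (h2.trans (le_max_left _ _))
  have hSZ : Sq QZ δ (F.coeff t) := fun q h1 h2 => hS q h1 (h2.trans (le_max_right _ _))
  have hex : ∃ i : Fin t, w i ≠ 0 := by
    by_contra h
    push Not at h
    exact hw (funext h)
  obtain ⟨i₀, hi₀, hmin⟩ : ∃ i₀ : Fin t, w i₀ ≠ 0 ∧ ∀ i : Fin t, i < i₀ → w i = 0 := by
    have hne : (univ.filter (fun i : Fin t => w i ≠ 0)).Nonempty := by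
      obtain ⟨i, hi⟩ := hex
      exact ⟨i, by simpa using hi⟩
    refine ⟨(univ.filter (fun i : Fin t => w i ≠ 0)).min' hne, ?_, ?_⟩
    · have := min'_mem _ hne
      exact (mem_filter.1 this).2
    · intro i hi
      by_contra h
      have h1 : i ∈ univ.filter (fun i : Fin t => w i ≠ 0) := by simpa using h
      have h2 := min'_le _ i h1
      exact absurd hi (not_lt.2 h2)
  rcases Nat.lt_or_ge (i₀.val + 1) t with h | h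
  · exact hU L n (by omega) F hF hSU w ⟨i₀, h, hmin, hi₀⟩ hwV
  · have h1 := i₀.isLt
    exact hZ L n (by omega) F hF hSZ w ⟨i₀, by omega, hmin, hi₀⟩ hwV

end Pool.Agent.EXS
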