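import Pool.Agent.Lib.EXS.Defs
import Pool.Agent.Lib.MP_663568_h6.FejerM

/-!
# Row KER: a product of Fejer kernels
-/

set_option autoImplicit false
open Finset

namespace Pool.Agent.EXS

open Pool.Agent.Lib.MP_663568_nt Pool.Agent.Lib.MP_663568_nt.Katai
  Pool.Agent.Lib.MP_663568_nt.Nul Pool.Agent.Lib.MP_663568_nt.H6

namespace KERx

lemma card_diff (N : ℕ) (d : ℤ) (hd : d ∈ Icc (-(N : ℤ)) N) :
    ((((range N ×ˢ range N).filter (fun x : ℕ × ℕ => (x.1 : ℤ) - x.2 = d)).card : ℕ) : ℝ) =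
      N - |(d : ℝ)| := by
  rw [mem_Icc] at hd
  rcases le_total 0 d with h0 | h0
  · obtain ⟨k, rfl⟩ := Int.eq_ofNat_of_zero_le h0
    have hk : k ≤ N := by omega
    have e : (range N ×ˢ range N).filter (fun x : ℕ × ℕ => (x.1 : ℤ) - x.2 = (k : ℤ)) =
        (range (N - k)).image (fun l => (l + k, l)) := by
      ext ⟨a, b⟩
      simp only [mem_filter, mem_product, mem_range, mem_image, Prod.mk.injEq]
      constructor
      · rintro ⟨⟨h1, h2⟩, h3⟩
        exact ⟨b, by omega, by omega, rfl⟩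
      · rintro ⟨l, h1, h2, h3⟩
        omega
    rw [e, card_image_of_injective _ (fun a b h => by simpa using (Prod.mk.inj h).2), card_range,
      Nat.cast_sub hk, Int.cast_natCast, abs_of_nonneg (Nat.cast_nonneg k)]
  · obtain ⟨k, hk0⟩ := Int.eq_ofNat_of_zero_le (neg_nonneg.mpr h0)
    obtain rfl : d = -(k : ℤ) := by omega
    have hk : k ≤ N := by omega
    have e : (range N ×ˢ range N).filter (fun x : ℕ × ℕ => (x.1 : ℤ) - x.2 = -(k : ℤ)) =
        (range (N - k)).image (fun l => (l, l + k)) := by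
      ext ⟨a, b⟩
      simp only [mem_filter, mem_product, mem_range, mem_image, Prod.mk.injEq]
      constructor
      · rintro ⟨⟨h1, h2⟩, h3⟩
        exact ⟨a, by omega, rfl, by omega⟩
      · rintro ⟨l, h1, h2, h3⟩
        omega
    rw [e, card_image_of_injective _ (fun a b h => by simpa using (Prod.mk.inj h).1), card_range,
      Nat.cast_sub hk, Int.cast_neg, abs_neg, Int.cast_natCast,
      abs_of_nonneg (Nat.cast_nonneg k)]

/-- the Fejer kernel as a trigonometric polynomial -/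
lemma FK_eq (N : ℕ) (hN : 1 ≤ N) (y : ℝ) : ((FK N y : ℝ) : ℂ) =
    ∑ l ∈ Icc (-(N : ℤ)) N, ((1 - |(l : ℝ)| / N : ℝ) : ℂ) * ee ((l : ℝ) * y) := by
  have hN0 : (N : ℝ) ≠ 0 := by positivity
  have hN1 : (N : ℂ) ≠ 0 := by exact_mod_cast hN0
  have h1 : ((‖∑ j ∈ range N, ee ((j : ℝ) * y)‖ ^ 2 : ℝ) : ℂ) =
      ∑ l ∈ Icc (-(N : ℤ)) N, ((N - |(l : ℝ)| : ℝ) : ℂ) * ee ((l : ℝ) * y) := by
    rw [sq_expand, ← sum_product' (range N) (range N)
      (fun j l => ee (((j : ℝ) - l) * y)),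
      ← sum_fiberwise_of_maps_to (s := range N ×ˢ range N) (t := Icc (-(N : ℤ)) N)
        (g := fun x : ℕ × ℕ => (x.1 : ℤ) - x.2)
        (by
          rintro ⟨a, b⟩ h
          simp only [mem_product, mem_range] at h
          simp only [mem_Icc]
          omega)]
    refine sum_congr rfl fun d hd => ?_
    rw [← card_diff N d hd, Complex.ofReal_natCast, ← nsmul_eq_mul]
    refine sum_eq_card_nsmul fun x hx => ?_
    rw [mem_filter] at hx
    rw [← hx.2]
    push_cast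
    rfl
  unfold FK
  rw [Complex.ofReal_div, h1, sum_div]
  refine sum_congr rfl fun l _ => ?_
  push_cast
  field_simp

lemma FK_le (N : ℕ) (y : ℝ) : FK N y ≤ N := by
  rcases Nat.eq_zero_or_pos N with rfl | hN
  · simp [FK]
  have hN0 : (0 : ℝ) < N := by positivity
  unfold FK
  rw [div_le_iff₀ hN0]
  have : ‖∑ j ∈ range N, ee ((j : ℝ) * y)‖ ≤ N := by
    refine (norm_sum_le _ _).trans ?_
    simp [norm_ee]
  nlinarith [norm_nonneg (∑ j ∈ range N, ee ((j : ℝ) * y))]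

/-- the lengths -/
def NN (t H₀ M : ℕ) (i : Fin t) : ℕ := M * t * H₀ ^ (i.val + 1)

lemma prod_NN (t H₀ M : ℕ) : ∏ i : Fin t, ((NN t H₀ M i : ℕ) : ℝ) = CKn t H₀ M := by
  unfold NN CKn
  push_cast
  rw [prod_mul_distrib, prod_const, card_univ, Fintype.card_fin, prod_pow_eq_pow_sum,
    Fin.sum_univ_eq_sum_range (fun i => i + 1) t]
  have h1 : 2 * ∑ i ∈ range t, (i + 1) = t * (t + 1) := by
    induction t with
    | zero => simp
    | succ k ih => rw [sum_range_succ, mul_add, ih]; ring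
  have h2 : ∑ i ∈ range t, (i + 1) = t * (t + 1) / 2 := by omega
  rw [h2]

end KERx

theorem ker : KER_stmt := by
  intro t H₀ M ht hH hM
  have hNN : ∀ i, 1 ≤ KERx.NN t H₀ M i := fun i => by
    unfold KERx.NN
    exact Nat.one_le_iff_ne_zero.mpr (by positivity)
  have hNNr : ∀ i, (0 : ℝ) < (KERx.NN t H₀ M i : ℕ) := fun i => by exact_mod_cast hNN i
  have heq : ∀ z : Fin t → ℝ, ((∏ i, FK (KERx.NN t H₀ M i) (z i) : ℝ) : ℂ) =
      ∑ l ∈ Fintype.piFinset (fun i : Fin t =>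
        Icc (-(KERx.NN t H₀ M i : ℤ)) (KERx.NN t H₀ M i)),
        ((∏ i, (1 - |(l i : ℝ)| / (KERx.NN t H₀ M i : ℕ)) : ℝ) : ℂ) *
          ee (∑ i, (l i : ℝ) * z i) := by
    intro z
    rw [Complex.ofReal_prod, prod_congr rfl (fun i _ => KERx.FK_eq _ (hNN i) (z i)),
      prod_univ_sum]
    refine sum_congr rfl fun l _ => ?_
    rw [prod_mul_distrib, ee_sum, Complex.ofReal_prod]
  have hle : ∀ z : Fin t → ℝ, ∏ i, FK (KERx.NN t H₀ M i) (z i) ≤ CKn t H₀ M := by
    intro z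
    rw [← KERx.prod_NN]
    exact prod_le_prod (fun i _ => FK_nonneg _ _) fun i _ => KERx.FK_le _ _
  have hc : ∀ l ∈ Fintype.piFinset (fun i : Fin t =>
      Icc (-(KERx.NN t H₀ M i : ℤ)) (KERx.NN t H₀ M i)), ∀ i,
      0 ≤ 1 - |(l i : ℝ)| / (KERx.NN t H₀ M i : ℕ) := by
    intro l hl i
    rw [Fintype.mem_piFinset] at hl
    have h1 := hl i
    rw [mem_Icc, ← abs_le] at h1
    rw [sub_nonneg, div_le_one (hNNr i)]
    exact_mod_cast h1
  refine ⟨Fintype.piFinset (fun i : Fin t =>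
      Icc (-(KERx.NN t H₀ M i : ℤ)) (KERx.NN t H₀ M i)),
    fun l => ∏ i, max 0 (1 - |(l i : ℝ)| / (KERx.NN t H₀ M i : ℕ)),
    fun z => ∏ i, FK (KERx.NN t H₀ M i) (z i), ?_⟩
  have hmax : ∀ l ∈ Fintype.piFinset (fun i : Fin t =>
      Icc (-(KERx.NN t H₀ M i : ℤ)) (KERx.NN t H₀ M i)),
      ∏ i, max 0 (1 - |(l i : ℝ)| / (KERx.NN t H₀ M i : ℕ)) =
      ∏ i, (1 - |(l i : ℝ)| / (KERx.NN t H₀ M i : ℕ)) := fun l hl =>
    prod_congr rfl fun i _ => max_eq_right (hc l hl i)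
  have heq' : ∀ z : Fin t → ℝ, ((∏ i, FK (KERx.NN t H₀ M i) (z i) : ℝ) : ℂ) =
      ∑ l ∈ Fintype.piFinset (fun i : Fin t =>
        Icc (-(KERx.NN t H₀ M i : ℤ)) (KERx.NN t H₀ M i)),
        ((∏ i, max 0 (1 - |(l i : ℝ)| / (KERx.NN t H₀ M i : ℕ)) : ℝ) : ℂ) *
          ee (∑ i, (l i : ℝ) * z i) := by
    intro z
    rw [heq z]
    exact sum_congr rfl fun l hl => by rw [hmax l hl]
  have h0mem : (0 : Fin t → ℤ) ∈ Fintype.piFinset (fun i : Fin t =>
      Icc (-(KERx.NN t H₀ M i : ℤ)) (KERx.NN t H₀ M i)) := by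
    rw [Fintype.mem_piFinset]
    intro i
    simp only [Pi.zero_apply, mem_Icc]
    constructor <;> omega
  refine
    { nonneg := fun z => prod_nonneg fun i _ => FK_nonneg _ _
      le := hle
      eq := heq'
      c0 := fun l => prod_nonneg fun i _ => le_max_left _ _
      c1 := fun l => prod_le_one (fun i _ => le_max_left _ _) fun i _ => by
        refine max_le zero_le_one ?_
        have : 0 ≤ |(l i : ℝ)| / (KERx.NN t H₀ M i : ℕ) := by positivity
        linarith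
      zero := h0mem
      czero := by simp
      sum := ?_
      hv_mem := ?_
      hv_ge := ?_ }
  · have h1 := heq' 0
    have h2 : ∑ l ∈ Fintype.piFinset (fun i : Fin t =>
        Icc (-(KERx.NN t H₀ M i : ℤ)) (KERx.NN t H₀ M i)),
        ∏ i, max 0 (1 - |(l i : ℝ)| / (KERx.NN t H₀ M i : ℕ)) =
        ∏ i, FK (KERx.NN t H₀ M i) ((0 : Fin t → ℝ) i) := by
      have h3 : ((∏ i, FK (KERx.NN t H₀ M i) ((0 : Fin t → ℝ) i) : ℝ) : ℂ) =
          ((∑ l ∈ Fintype.piFinset (fun i : Fin t =>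
            Icc (-(KERx.NN t H₀ M i : ℤ)) (KERx.NN t H₀ M i)),
            ∏ i, max 0 (1 - |(l i : ℝ)| / (KERx.NN t H₀ M i : ℕ)) : ℝ) : ℂ) := by
        rw [h1, Complex.ofReal_sum]
        refine sum_congr rfl fun l _ => ?_
        simp [ee_zero']
      exact (Complex.ofReal_injective h3).symm
    rw [h2]
    exact hle 0
  · intro h h1 hH0
    rw [Fintype.mem_piFinset]
    intro i
    have h2 : h ^ (i.val + 1) ≤ KERx.NN t H₀ M i := by
      unfold KERx.NN
      calc h ^ (i.val + 1) ≤ H₀ ^ (i.val + 1) := Nat.pow_le_pow_left hH0 _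
        _ ≤ M * t * H₀ ^ (i.val + 1) := Nat.le_mul_of_pos_left _ (by positivity)
    have h3 : (h : ℤ) ^ (i.val + 1) ≤ (KERx.NN t H₀ M i : ℕ) := by exact_mod_cast h2
    have h4 : (0 : ℤ) ≤ (h : ℤ) ^ (i.val + 1) := by positivity
    simp only [hv, mem_Icc]
    constructor
    · have : (0 : ℤ) ≤ (KERx.NN t H₀ M i : ℕ) := by positivity
      omega
    · exact h3
  · intro h h1 hH0
    have hMt : (0 : ℝ) < (M : ℝ) * t := by positivity
    have hMt1 : (1 : ℝ) ≤ (M : ℝ) * t := by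
      have : 1 ≤ M * t := Nat.one_le_iff_ne_zero.mpr (by positivity)
      exact_mod_cast this
    have h2 : ∀ i : Fin t, 1 - 1 / ((M : ℝ) * t) ≤
        max 0 (1 - |((hv t h i : ℤ) : ℝ)| / (KERx.NN t H₀ M i : ℕ)) := by
      intro i
      refine le_max_of_le_right ?_
      have h3 : |((hv t h i : ℤ) : ℝ)| = (h : ℝ) ^ (i.val + 1) := by
        simp only [hv]
        push_cast
        exact abs_of_nonneg (by positivity)
      rw [h3]
      have h4 : (h : ℝ) ^ (i.val + 1) / (KERx.NN t H₀ M i : ℕ) ≤ 1 / ((M : ℝ) * t) := by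
        rw [div_le_div_iff₀ (hNNr i) hMt]
        unfold KERx.NN
        push_cast
        have h5 : (h : ℝ) ^ (i.val + 1) ≤ (H₀ : ℝ) ^ (i.val + 1) :=
          pow_le_pow_left₀ (by positivity) (by exact_mod_cast hH0) _
        nlinarith
      linarith
    have h3 : 1 + (t : ℝ) * (-(1 / ((M : ℝ) * t))) ≤ (1 + -(1 / ((M : ℝ) * t))) ^ t := by
      refine one_add_mul_le_pow ?_ t
      have : 1 / ((M : ℝ) * t) ≤ 1 := by rw [div_le_one hMt]; exact hMt1
      linarith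
    have h4 : (1 - 1 / ((M : ℝ) * t)) ^ t ≤
        ∏ i : Fin t, max 0 (1 - |((hv t h i : ℤ) : ℝ)| / (KERx.NN t H₀ M i : ℕ)) := by
      have h5 : ∏ _i : Fin t, (1 - 1 / ((M : ℝ) * t)) = (1 - 1 / ((M : ℝ) * t)) ^ t := by simp
      rw [← h5]
      refine prod_le_prod (fun i _ => ?_) fun i _ => h2 i
      have : 1 / ((M : ℝ) * t) ≤ 1 := by rw [div_le_one hMt]; exact hMt1
      linarith
    have h5 : 1 + (t : ℝ) * (-(1 / ((M : ℝ) * t))) = 1 - 1 / (M : ℝ) := by
      have : (t : ℝ) ≠ 0 := by positivity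
      have : (M : ℝ) ≠ 0 := by positivity
      field_simp
      ring
    calc 1 - 1 / (M : ℝ) = 1 + (t : ℝ) * (-(1 / ((M : ℝ) * t))) := h5.symm
      _ ≤ (1 + -(1 / ((M : ℝ) * t))) ^ t := h3
      _ = (1 - 1 / ((M : ℝ) * t)) ^ t := by rw [← sub_eq_add_neg]
      _ ≤ _ := h4

end Pool.Agent.EXS
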