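import Pool.Agent.Lib.EXS.Defs

/-!
# Row PH: the difference of two phases is a polynomial

helper13.
-/

set_option autoImplicit false
open Finset Polynomial

namespace Pool.Agent.EXS

open Pool.Agent.Lib.MP_663568_nt Pool.Agent.Lib.MP_663568_nt.Katai
  Pool.Agent.Lib.MP_663568_nt.Nul Pool.Agent.Lib.MP_663568_nt.Nul.EqA
  Pool.Agent.Lib.MP_663568_nt.H6 Pool.Agent.TU

namespace PHx

/-- The linear polynomial `c + a x`. -/
noncomputable def lin (c a : ℝ) : ℝ[X] := C a * X + C c

lemma lin_eval (c a x : ℝ) : (lin c a).eval x = c + a * x := by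
  simp [lin]; ring

lemma lin_natDegree (c a : ℝ) : (lin c a).natDegree ≤ 1 := natDegree_linear_le

lemma lin_coeff (c a : ℝ) : (lin c a).coeff 1 = a := by
  simp [lin]

lemma comp_natDegree (p : ℝ[X]) (d : ℕ) (hp : p.natDegree ≤ d) (c a : ℝ) :
    (p.comp (lin c a)).natDegree ≤ d :=
  natDegree_comp_le.trans (by
    calc p.natDegree * (lin c a).natDegree ≤ d * 1 := Nat.mul_le_mul hp (lin_natDegree c a)
      _ = d := mul_one d)

lemma comp_coeff (p : ℝ[X]) (d : ℕ) (hp : p.natDegree ≤ d) (c a : ℝ) :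
    (p.comp (lin c a)).coeff d = p.coeff d * a ^ d := by
  have h1 : p.comp (lin c a) = ∑ k ∈ range (d + 1), C (p.coeff k) * lin c a ^ k := by
    rw [comp, eval₂_eq_sum_range' C (Nat.lt_succ_of_le hp)]
  rw [h1, finsetSum_coeff, sum_range_succ, sum_eq_zero, zero_add, coeff_C_mul]
  · congr 1
    have := coeff_pow_of_natDegree_le (m := d) (lin_natDegree c a)
    rwa [mul_one, lin_coeff] at this
  · intro k hk
    have h2 : (lin c a ^ k).natDegree ≤ k * 1 :=
      natDegree_pow_le.trans (Nat.mul_le_mul le_rfl (lin_natDegree c a))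
    have h3 := mem_range.1 hk
    have h4 : (lin c a ^ k).coeff d = 0 := coeff_eq_zero_of_natDegree_lt (by omega)
    rw [coeff_C_mul, h4, mul_zero]

end PHx

open PHx in
/-- Row PH. -/
theorem ph_diff : PH_stmt := by
  intro t w i₀ hw F hF m₁ m₂ c
  set P : Fin t → ℝ[X] := fun i => C ((w i : ℝ) * (m₁ ^ (i.val + 1) - m₂ ^ (i.val + 1))) *
    (hasseDeriv (i.val + 1) F).comp (lin c (m₁ * m₂)) with hP
  have hH : ∀ i : Fin t, (hasseDeriv (i.val + 1) F).natDegree ≤ t - (i.val + 1) := fun i =>
    (natDegree_hasseDeriv_le F (i.val + 1)).trans (Nat.sub_le_sub_right hF _)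
  have hd : ∀ i, (P i).natDegree ≤ t - (i.val + 1) := fun i =>
    (natDegree_C_mul_le _ _).trans (comp_natDegree _ _ (hH i) _ _)
  have h0 : ∀ i, i < i₀ → P i = 0 := by
    intro i hi
    simp [hP, hw i hi]
  refine ⟨∑ i, P i, ?_, ?_, ?_⟩
  · refine natDegree_sum_le_of_forall_le _ _ fun i _ => ?_
    rcases lt_or_ge i i₀ with h | h
    · rw [h0 i h, natDegree_zero]; exact Nat.zero_le _
    · refine (hd i).trans ?_
      have : i₀.val ≤ i.val := h
      omega
  · rw [finsetSum_coeff, sum_eq_single i₀]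
    · rw [hP]
      dsimp only
      rw [coeff_C_mul, comp_coeff _ _ (hH i₀), hasseDeriv_coeff]
      have h1 : t - (i₀.val + 1) + (i₀.val + 1) = t := by
        have := i₀.isLt
        omega
      rw [h1]
      ring
    · intro i _ hi
      rcases lt_or_gt_of_ne hi with h | h
      · rw [h0 i h, coeff_zero]
      · refine coeff_eq_zero_of_natDegree_lt ((hd i).trans_lt ?_)
        have h2 : i₀.val < i.val := h
        have := i.isLt
        omega
    · intro h
      exact absurd (mem_univ _) h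
  · intro x
    rw [eval_finsetSum, psi, psi, ← sum_sub_distrib]
    refine sum_congr rfl fun i _ => ?_
    rw [hP]
    dsimp only
    rw [eval_mul, eval_C, eval_comp, lin_eval, zv, zv, tv, taylor_coeff]
    ring

end Pool.Agent.EXS
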