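import Mathlib
import Pool.Agent.Lib.EXS.Defs
import Pool.Agent.Lib.MP_663568_h6.MainQ
import Pool.Agent.Lib.MP_663568_h6.Fejer
import Pool.Agent.Lib.MP_663568_nul.Units

/-!
# Exceptional sets (MP_663568_nt), row PR: pairs of products of two primes
-/

set_option autoImplicit false
open Finset Polynomial

namespace Pool.Agent.EXS

open Pool.Agent.Lib.MP_663568_nt Pool.Agent.Lib.MP_663568_nt.Katai
  Pool.Agent.Lib.MP_663568_nt.Nul Pool.Agent.Lib.MP_663568_nt.Nul.EqA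
  Pool.Agent.Lib.MP_663568_nt.H6

namespace PRx

/-- The weight of the points near the integers, when all exponential sums are small. -/
theorem kernel_weight {ι : Type} (S : Finset ι) (w : ι → ℝ) (hw : ∀ i ∈ S, 0 ≤ w i) (x : ι → ℝ)
    (K : ℕ) (hK : 1 ≤ K) (η : ℝ) (hη : 0 ≤ η)
    (h : ∀ k ∈ Icc 1 K, ‖∑ i ∈ S, (w i : ℂ) * ee ((k : ℝ) * x i)‖ ≤ η * ∑ i ∈ S, w i)
    (u : ℝ) (hKu : (K : ℝ) * u ≤ 1 / 16) :
    ∑ i ∈ S.filter (fun i => nd (x i) ≤ u), w i ≤ (4 / K + 4 * η) * ∑ i ∈ S, w i := by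
  set W : ℝ := ∑ i ∈ S, w i with hWd
  have hW : 0 ≤ W := sum_nonneg hw
  have hKr : (0 : ℝ) < K := by exact_mod_cast hK
  have e1 : ((∑ i ∈ S, w i * ‖∑ j ∈ range K, ee ((j : ℝ) * x i)‖ ^ 2 : ℝ) : ℂ) =
      ∑ j ∈ range K, ∑ l ∈ range K, ∑ i ∈ S, (w i : ℂ) * ee (((j : ℝ) - l) * x i) := by
    push_cast
    have h1 : ∀ i ∈ S, (w i : ℂ) * ((‖∑ j ∈ range K, ee ((j : ℝ) * x i)‖ : ℝ) : ℂ) ^ 2 =
        ∑ j ∈ range K, ∑ l ∈ range K, (w i : ℂ) * ee (((j : ℝ) - l) * x i) := by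
      intro i _
      have h2 := sq_expand K (x i)
      push_cast at h2
      rw [h2, mul_sum]
      refine sum_congr rfl fun j _ => ?_
      rw [mul_sum]
    rw [sum_congr rfl h1, sum_comm]
    refine sum_congr rfl fun j _ => ?_
    rw [sum_comm]
  have e2 : ∀ j ∈ range K, ∀ l ∈ range K,
      ‖∑ i ∈ S, (w i : ℂ) * ee (((j : ℝ) - l) * x i)‖ ≤ (if j = l then W else 0) + η * W := by
    intro j hj l hl
    rw [mem_range] at hj hl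
    rcases lt_trichotomy j l with hjl | hjl | hjl
    · have h1 : ((j : ℝ) - l) = -(((l - j : ℕ)) : ℝ) := by
        rw [Nat.cast_sub hjl.le]; ring
      rw [h1, conj_sum_ee, if_neg hjl.ne, zero_add]
      exact h (l - j) (mem_Icc.mpr ⟨by omega, by omega⟩)
    · subst hjl
      rw [if_pos rfl]
      have h1 : ∀ i ∈ S, (w i : ℂ) * ee (((j : ℝ) - j) * x i) = ((w i : ℝ) : ℂ) := by
        intro i _
        rw [sub_self, zero_mul, ee_zero', mul_one]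
      rw [sum_congr rfl h1, ← Complex.ofReal_sum, Complex.norm_real, Real.norm_of_nonneg hW]
      have : 0 ≤ η * W := mul_nonneg hη hW
      linarith
    · have h1 : ((j : ℝ) - l) = (((j - l : ℕ)) : ℝ) := by
        rw [Nat.cast_sub hjl.le]
      rw [h1, if_neg hjl.ne', zero_add]
      exact h (j - l) (mem_Icc.mpr ⟨by omega, by omega⟩)
  have e3 : ∑ i ∈ S, w i * ‖∑ j ∈ range K, ee ((j : ℝ) * x i)‖ ^ 2 ≤ K * W + K ^ 2 * (η * W) := by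
    have h0 : 0 ≤ ∑ i ∈ S, w i * ‖∑ j ∈ range K, ee ((j : ℝ) * x i)‖ ^ 2 :=
      sum_nonneg fun i hi => mul_nonneg (hw i hi) (by positivity)
    have h1 : ‖((∑ i ∈ S, w i * ‖∑ j ∈ range K, ee ((j : ℝ) * x i)‖ ^ 2 : ℝ) : ℂ)‖ ≤
        ∑ j ∈ range K, ∑ l ∈ range K, ((if j = l then W else 0) + η * W) := by
      rw [e1]
      refine (norm_sum_le _ _).trans (sum_le_sum fun j hj => ?_)
      exact (norm_sum_le _ _).trans (sum_le_sum fun l hl => e2 j hj l hl)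
    rw [Complex.norm_real, Real.norm_of_nonneg h0] at h1
    refine h1.trans (le_of_eq ?_)
    have h2 : ∀ j ∈ range K, ∑ l ∈ range K, ((if j = l then W else 0) + η * W) =
        W + K * (η * W) := by
      intro j hj
      rw [sum_add_distrib, sum_ite_eq, if_pos hj, sum_const, card_range, nsmul_eq_mul]
    rw [sum_congr rfl h2, sum_const, card_range, nsmul_eq_mul]
    ring
  have e4 : ∀ i ∈ S.filter (fun i => nd (x i) ≤ u), w i ≤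
      4 / K ^ 2 * (w i * ‖∑ j ∈ range K, ee ((j : ℝ) * x i)‖ ^ 2) := by
    intro i hi
    rw [mem_filter] at hi
    have h1 := U56.kernel_ge u K hK hKu (x i) hi.2
    have h2 : ((K : ℝ) / 2) ^ 2 ≤ ‖∑ j ∈ range K, ee ((j : ℝ) * x i)‖ ^ 2 := by gcongr
    have h3 := hw i hi.1
    calc w i = 4 / K ^ 2 * (w i * ((K : ℝ) / 2) ^ 2) := by field_simp; ring
      _ ≤ _ := by gcongr
  calc ∑ i ∈ S.filter (fun i => nd (x i) ≤ u), w i ≤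
      ∑ i ∈ S.filter (fun i => nd (x i) ≤ u),
        4 / K ^ 2 * (w i * ‖∑ j ∈ range K, ee ((j : ℝ) * x i)‖ ^ 2) := sum_le_sum e4
    _ ≤ ∑ i ∈ S, 4 / K ^ 2 * (w i * ‖∑ j ∈ range K, ee ((j : ℝ) * x i)‖ ^ 2) := by
        refine sum_le_sum_of_subset_of_nonneg (filter_subset _ _) fun i hi _ => ?_
        have := hw i hi
        positivity
    _ = 4 / K ^ 2 * ∑ i ∈ S, w i * ‖∑ j ∈ range K, ee ((j : ℝ) * x i)‖ ^ 2 := by rw [mul_sum]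
    _ ≤ 4 / K ^ 2 * (K * W + K ^ 2 * (η * W)) := by gcongr
    _ = _ := by field_simp

/-- The polynomial in the first product. -/
noncomputable def SP (t u : ℕ) (θ m : ℝ) : ℝ[X] :=
  C (θ * m ^ u) * X ^ t - C (θ * m ^ t) * X ^ u

lemma SP_natDegree (t u : ℕ) (hut : u < t) (θ m : ℝ) : (SP t u θ m).natDegree ≤ t := by
  unfold SP
  refine (natDegree_sub_le _ _).trans (max_le (natDegree_C_mul_X_pow_le _ _) ?_)
  exact (natDegree_C_mul_X_pow_le _ _).trans hut.le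

lemma SP_coeff (t u : ℕ) (hut : u < t) (θ m : ℝ) : (SP t u θ m).coeff t = θ * m ^ u := by
  unfold SP
  rw [coeff_sub, coeff_C_mul_X_pow, coeff_C_mul_X_pow, if_pos rfl, if_neg hut.ne', sub_zero]

lemma SP_eval (t u : ℕ) (θ m x : ℝ) :
    (SP t u θ m).eval x = θ * (x ^ t * m ^ u - x ^ u * m ^ t) := by
  unfold SP
  simp only [eval_sub, eval_mul, eval_C, eval_pow, eval_X]
  ring

/-- bad primes, uniformly in the degree -/
lemma badT (T : ℕ) : ∃ C : ℝ, 0 < C ∧ ∃ A : ℕ, 1 ≤ A ∧ ∀ t : ℕ, 1 ≤ t → t ≤ T →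
    ∀ u : ℝ, 0 < u → u ≤ 1 → ∀ δ : ℝ, 0 < δ → δ ≤ 1 → ∀ β : ℝ, Sq (A * (1 / u) ^ A) δ β →
    ∀ a b : ℕ, 7 ≤ a → (A : ℝ) * (1 / (u * δ)) ^ A ≤ (4 : ℝ) ^ a → a ≤ b → ∀ θ : ℝ,
      ∑ p ∈ (blk a b).filter (fun p : ℕ => nd ((p : ℝ) ^ t * β - θ) ≤ u), (1 : ℝ) / p
        ≤ C * u * WW (blk a b) := by
  have hmono : ∀ (A B : ℕ) (x : ℝ), A ≤ B → 1 ≤ x → (A : ℝ) * x ^ A ≤ (B : ℝ) * x ^ B := by
    intro A B x hAB hx
    have h1 : (A : ℝ) ≤ B := by exact_mod_cast hAB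
    have h2 : x ^ A ≤ x ^ B := pow_le_pow_right₀ hx hAB
    have h3 : 0 ≤ x ^ A := by positivity
    exact mul_le_mul h1 h2 h3 (Nat.cast_nonneg _)
  induction T with
  | zero => exact ⟨1, one_pos, 1, le_rfl, fun t h1 h2 => by omega⟩
  | succ T ih =>
    obtain ⟨C, hC, A, hA, h⟩ := ih
    obtain ⟨C', hC', A', hA', h'⟩ := badq (T + 1) (by omega)
    refine ⟨max C C', lt_max_of_lt_left hC, max A A', le_max_of_le_left hA,
      fun t ht1 htT u hu hu1 δ hδ hδ1 β hβ a b ha haA hab θ => ?_⟩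
    have x1 : 1 ≤ 1 / u := by rw [le_div_iff₀ hu]; linarith
    have x2 : 1 ≤ 1 / (u * δ) := by rw [le_div_iff₀ (by positivity)]; nlinarith
    have hW := WW_nonneg (blk a b)
    rcases Nat.lt_or_ge t (T + 1) with h1 | h1
    · refine (h t ht1 (by omega) u hu hu1 δ hδ hδ1 β
        (hβ.mono (hmono _ _ _ (le_max_left _ _) x1) le_rfl) a b ha
        ((hmono _ _ _ (le_max_left _ _) x2).trans haA) hab θ).trans ?_
      gcongr
      exact le_max_left _ _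
    · have e : t = T + 1 := by omega
      subst e
      refine (h' u hu hu1 δ hδ hδ1 β
        (hβ.mono (hmono _ _ _ (le_max_right _ _) x1) le_rfl) a b ha
        ((hmono _ _ _ (le_max_right _ _) x2).trans haA) hab θ).trans ?_
      gcongr
      exact le_max_right _ _

/-- **Pairs of products of two primes.** -/
theorem pr (hB : BL_stmt) (t : ℕ) (ht : 1 ≤ t) (η : ℝ) (hη : 0 < η) : ∃ τ : ℝ, 0 < τ ∧
    ∃ a' : ℕ, ∀ a₀ b₀ : ℕ, a' ≤ a₀ → a₀ ≤ b₀ → 1 ≤ WW (blk a₀ b₀) → ∃ Q : ℝ, 1 ≤ Q ∧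
    ∀ d : ℝ, 0 < d →
    d ≤ 1 → ∃ a'' : ℕ, ∀ a₁ b₁ : ℕ, a'' ≤ a₁ → a₁ ≤ b₁ → ∀ u : ℕ, 1 ≤ u → u < t →
    ∀ β : ℝ, Sq Q d β →
    ∑ z ∈ ((blk a₀ b₀ ×ˢ blk a₁ b₁) ×ˢ (blk a₀ b₀ ×ˢ blk a₁ b₁)).filter (fun z =>
        nd (β * (((z.1.1 : ℝ) * z.1.2) ^ t * ((z.2.1 : ℝ) * z.2.2) ^ u -
          ((z.1.1 : ℝ) * z.1.2) ^ u * ((z.2.1 : ℝ) * z.2.2) ^ t)) ≤ τ),
      1 / (((z.1.1 : ℝ) * z.1.2) * ((z.2.1 : ℝ) * z.2.2)) ≤
      η * (WW (blk a₀ b₀) * WW (blk a₁ b₁)) ^ 2 := by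
  classical
  obtain ⟨Cb, hCb, A, hA1, hbadT⟩ := badT t
  obtain ⟨K, hK⟩ : ∃ K : ℕ, K = ⌈8 / η⌉₊ := ⟨_, rfl⟩
  have hK8 : 8 / η ≤ K := by rw [hK]; exact Nat.le_ceil _
  have hK0 : (0 : ℝ) < K := lt_of_lt_of_le (by positivity) hK8
  have hK1 : 1 ≤ K := by exact_mod_cast hK0
  obtain ⟨η₁, hη₁⟩ : ∃ η₁ : ℝ, η₁ = η / 16 := ⟨_, rfl⟩
  have hη₁0 : 0 < η₁ := by rw [hη₁]; positivity
  obtain ⟨a', hbl⟩ := hB t η₁ ht hη₁0
  refine ⟨1 / (16 * K), by positivity, a', fun a₀ b₀ ha hab hW => ?_⟩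
  obtain ⟨Q₀, hQ₀1, hQ₀⟩ := hbl a₀ b₀ ha hab hW
  obtain ⟨Q₁, hQ₁e⟩ : ∃ Q₁ : ℕ, Q₁ = ⌈Q₀⌉₊ := ⟨_, rfl⟩
  have hQQ : Q₀ ≤ Q₁ := by rw [hQ₁e]; exact Nat.le_ceil _
  obtain ⟨d₁, hd₁⟩ : ∃ d₁ : ℝ, d₁ = min 1 (η₁ / ((Q₁ + 1) * Cb)) := ⟨_, rfl⟩
  have hd₁0 : 0 < d₁ := by rw [hd₁]; exact lt_min one_pos (by positivity)
  have hd₁1 : d₁ ≤ 1 := by rw [hd₁]; exact min_le_left _ _
  have hd₁2 : Q₁ * (Cb * d₁) ≤ η₁ := by
    have h1 : d₁ ≤ η₁ / ((Q₁ + 1) * Cb) := by rw [hd₁]; exact min_le_right _ _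
    rw [le_div_iff₀ (by positivity)] at h1
    nlinarith [mul_pos hd₁0 hCb]
  obtain ⟨a₂, ha₂⟩ := hQ₀ d₁ hd₁0 hd₁1
  refine ⟨((⌈(A : ℝ) * (1 / d₁) ^ A⌉₊ * (Q₁ * K * 4 ^ (b₀ * t)) : ℕ) : ℝ) + 1,
    by linarith [(Nat.cast_nonneg (⌈(A : ℝ) * (1 / d₁) ^ A⌉₊ * (Q₁ * K * 4 ^ (b₀ * t))) :
      (0 : ℝ) ≤ ((⌈(A : ℝ) * (1 / d₁) ^ A⌉₊ * (Q₁ * K * 4 ^ (b₀ * t)) : ℕ) : ℝ))],
    fun d hd hd1 => ?_⟩
  obtain ⟨s₁, hs₁, -⟩ := exists_four_pow (A * (1 / (d₁ * d)) ^ A) (by positivity)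
  refine ⟨max a₂ (max s₁ 7), fun a₁ b₁ ha₁ hab₁ u hu hut β hβ' => ?_⟩
  have hβ : Sq ((⌈(A : ℝ) * (1 / d₁) ^ A⌉₊ * (Q₁ * K * 4 ^ (b₀ * t)) : ℕ) : ℝ) d β :=
    hβ'.mono (by linarith) le_rfl
  have hbad := hbadT u hu (by omega)
  have hBL := ha₂ a₁ b₁ ((le_max_left _ _).trans ha₁) hab₁
  set P := blk a₀ b₀ with hP
  set P' := blk a₁ b₁ with hP'
  set L : ℝ := WW P * WW P' with hL
  have hL0 : 0 ≤ L := mul_nonneg (WW_nonneg _) (WW_nonneg _)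
  have hWz : ∑ z ∈ P ×ˢ P', 1 / ((z.1 : ℝ) * z.2) = L := by
    rw [hL, WW, WW, sum_mul_sum, sum_product]
    refine sum_congr rfl fun p _ => sum_congr rfl fun p' _ => ?_
    rw [one_div_mul_one_div]
  have hWzz : ∑ z ∈ (P ×ˢ P') ×ˢ (P ×ˢ P'),
      1 / (((z.1.1 : ℝ) * z.1.2) * ((z.2.1 : ℝ) * z.2.2)) = L ^ 2 := by
    rw [sq, ← hWz, sum_mul_sum, sum_product]
    refine sum_congr rfl fun p _ => sum_congr rfl fun p' _ => ?_
    rw [one_div_mul_one_div]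
  -- the bad second components
  have hbadw : ∀ k ∈ Icc 1 K, ∑ w ∈ (P ×ˢ P').filter (fun w =>
      ¬ Sq Q₁ d₁ ((k : ℝ) * β * ((w.1 : ℝ) * w.2) ^ u)), 1 / ((w.1 : ℝ) * w.2) ≤ η₁ * L := by
    intro k hk
    rw [mem_Icc] at hk
    have h1 : ∀ w ∈ (P ×ˢ P').filter (fun w =>
        ¬ Sq Q₁ d₁ ((k : ℝ) * β * ((w.1 : ℝ) * w.2) ^ u)), 1 / ((w.1 : ℝ) * w.2) ≤
        ∑ q ∈ Icc 1 Q₁, (if nd ((w.2 : ℝ) ^ u * ((q * k * w.1 ^ u : ℕ) * β) - 0) ≤ d₁ then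
          1 / ((w.1 : ℝ) * w.2) else 0) := by
      intro w hw
      rw [mem_filter] at hw
      have h2 := hw.2
      unfold Sq at h2
      push Not at h2
      obtain ⟨q, hq1, hq2, hq3⟩ := h2
      have hqQ : q ∈ Icc 1 Q₁ := mem_Icc.mpr ⟨hq1, by exact_mod_cast hq2⟩
      have e : (w.2 : ℝ) ^ u * ((q * k * w.1 ^ u : ℕ) * β) - 0 =
          (q : ℝ) * ((k : ℝ) * β * ((w.1 : ℝ) * w.2) ^ u) := by
        push_cast
        ring
      have h3 : 1 / ((w.1 : ℝ) * w.2) ≤ (if nd ((w.2 : ℝ) ^ u * ((q * k * w.1 ^ u : ℕ) * β) - 0) ≤ d₁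
          then 1 / ((w.1 : ℝ) * w.2) else 0) := by
        rw [e, if_pos hq3.le]
      refine h3.trans (single_le_sum (f := fun q : ℕ =>
        (if nd ((w.2 : ℝ) ^ u * ((q * k * w.1 ^ u : ℕ) * β) - 0) ≤ d₁ then
          1 / ((w.1 : ℝ) * w.2) else 0)) (fun q _ => ?_) hqQ)
      split_ifs <;> positivity
    calc _ ≤ ∑ w ∈ (P ×ˢ P').filter (fun w =>
          ¬ Sq Q₁ d₁ ((k : ℝ) * β * ((w.1 : ℝ) * w.2) ^ u)),
          ∑ q ∈ Icc 1 Q₁, (if nd ((w.2 : ℝ) ^ u * ((q * k * w.1 ^ u : ℕ) * β) - 0) ≤ d₁ then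
            1 / ((w.1 : ℝ) * w.2) else 0) := sum_le_sum h1
      _ ≤ ∑ w ∈ P ×ˢ P',
          ∑ q ∈ Icc 1 Q₁, (if nd ((w.2 : ℝ) ^ u * ((q * k * w.1 ^ u : ℕ) * β) - 0) ≤ d₁ then
            1 / ((w.1 : ℝ) * w.2) else 0) := by
          refine sum_le_sum_of_subset_of_nonneg (filter_subset _ _) fun w _ _ => ?_
          refine sum_nonneg fun q _ => ?_
          split_ifs <;> positivity
      _ = ∑ q ∈ Icc 1 Q₁, ∑ p ∈ P, (1 / (p : ℝ)) * ∑ p' ∈ P'.filter (fun p' : ℕ =>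
            nd ((p' : ℝ) ^ u * ((q * k * p ^ u : ℕ) * β) - 0) ≤ d₁), 1 / (p' : ℝ) := by
          rw [sum_comm]
          refine sum_congr rfl fun q _ => ?_
          rw [sum_product]
          refine sum_congr rfl fun p _ => ?_
          rw [sum_filter, mul_sum]
          refine sum_congr rfl fun p' _ => ?_
          rw [mul_ite, mul_zero, one_div_mul_one_div]
      _ ≤ ∑ q ∈ Icc 1 Q₁, ∑ p ∈ P, (1 / (p : ℝ)) * (Cb * d₁ * WW P') := by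
          refine sum_le_sum fun q hq => sum_le_sum fun p hp => ?_
          rw [mem_Icc] at hq
          have hpb : p ≤ 4 ^ b₀ := (mem_blk.mp hp).1.2
          have hp0 : 0 < p := (mem_blk.mp hp).2.pos
          refine mul_le_mul_of_nonneg_left ?_ (by positivity)
          refine hbad d₁ hd₁0 hd₁1 d hd hd1 _ ?_ a₁ b₁
            (((le_max_right _ _).trans (le_max_right _ _)).trans ha₁) ?_ hab₁ 0
          · refine hβ.mul (q * k * p ^ u) ?_ ?_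
            · exact Nat.mul_pos (Nat.mul_pos hq.1 hk.1) (by positivity)
            · have h4 : p ^ u ≤ 4 ^ (b₀ * u) := by
                rw [pow_mul]
                exact Nat.pow_le_pow_left hpb u
              have h44 : (4 : ℕ) ^ (b₀ * u) ≤ 4 ^ (b₀ * t) :=
                Nat.pow_le_pow_right (by norm_num) (Nat.mul_le_mul_left _ hut.le)
              have h5 : q * k * p ^ u ≤ Q₁ * K * 4 ^ (b₀ * t) :=
                Nat.mul_le_mul (Nat.mul_le_mul hq.2 hk.2) (h4.trans h44)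
              have h6 : ((q * k * p ^ u : ℕ) : ℝ) ≤ ((Q₁ * K * 4 ^ (b₀ * t) : ℕ) : ℝ) := by
                exact_mod_cast h5
              have h7 : (A : ℝ) * (1 / d₁) ^ A ≤ (⌈(A : ℝ) * (1 / d₁) ^ A⌉₊ : ℝ) := Nat.le_ceil _
              have h8 : ((⌈(A : ℝ) * (1 / d₁) ^ A⌉₊ * (Q₁ * K * 4 ^ (b₀ * t)) : ℕ) : ℝ) =
                  (⌈(A : ℝ) * (1 / d₁) ^ A⌉₊ : ℝ) * ((Q₁ * K * 4 ^ (b₀ * t) : ℕ) : ℝ) := by
                push_cast; ring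
              rw [h8]
              exact mul_le_mul h7 h6 (Nat.cast_nonneg _) (Nat.cast_nonneg _)
          · refine hs₁.trans (pow_le_pow_right₀ (by norm_num) ?_)
            exact ((le_max_left _ _).trans (le_max_right _ _)).trans ha₁
      _ = Q₁ * (Cb * d₁) * L := by
          rw [sum_const, Nat.card_Icc, Nat.add_sub_cancel, ← sum_mul, nsmul_eq_mul]
          have e5 : ∑ p ∈ P, 1 / (p : ℝ) = WW P := rfl
          rw [e5, hL]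
          ring
      _ ≤ η₁ * L := mul_le_mul_of_nonneg_right hd₁2 hL0
  -- the exponential sums
  have hexp : ∀ k ∈ Icc 1 K, ‖∑ z ∈ (P ×ˢ P') ×ˢ (P ×ˢ P'),
      ((1 / (((z.1.1 : ℝ) * z.1.2) * ((z.2.1 : ℝ) * z.2.2)) : ℝ) : ℂ) *
        ee ((k : ℝ) * (β * (((z.1.1 : ℝ) * z.1.2) ^ t * ((z.2.1 : ℝ) * z.2.2) ^ u -
          ((z.1.1 : ℝ) * z.1.2) ^ u * ((z.2.1 : ℝ) * z.2.2) ^ t)))‖ ≤ (2 * η₁) * L ^ 2 := by
    intro k hk
    have e1 : ∑ z ∈ (P ×ˢ P') ×ˢ (P ×ˢ P'),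
        ((1 / (((z.1.1 : ℝ) * z.1.2) * ((z.2.1 : ℝ) * z.2.2)) : ℝ) : ℂ) *
          ee ((k : ℝ) * (β * (((z.1.1 : ℝ) * z.1.2) ^ t * ((z.2.1 : ℝ) * z.2.2) ^ u -
            ((z.1.1 : ℝ) * z.1.2) ^ u * ((z.2.1 : ℝ) * z.2.2) ^ t))) =
        ∑ w ∈ P ×ˢ P', ((1 / ((w.1 : ℝ) * w.2) : ℝ) : ℂ) * ∑ z ∈ P ×ˢ P',
          ((1 / ((z.1 : ℝ) * z.2) : ℝ) : ℂ) *
            ee ((SP t u ((k : ℝ) * β) ((w.1 : ℝ) * w.2)).eval ((z.1 : ℝ) * z.2)) := by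
      rw [sum_product, sum_comm]
      refine sum_congr rfl fun w _ => ?_
      rw [mul_sum]
      refine sum_congr rfl fun z _ => ?_
      rw [SP_eval]
      have e3 : ((1 / (((z.1 : ℝ) * z.2) * ((w.1 : ℝ) * w.2)) : ℝ) : ℂ) =
          ((1 / ((w.1 : ℝ) * w.2) : ℝ) : ℂ) * ((1 / ((z.1 : ℝ) * z.2) : ℝ) : ℂ) := by
        rw [← Complex.ofReal_mul, one_div_mul_one_div, mul_comm ((z.1 : ℝ) * z.2)]
      rw [e3, mul_assoc, mul_assoc (k : ℝ) β]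
    rw [e1]
    have hin : ∀ w ∈ P ×ˢ P', ‖∑ z ∈ P ×ˢ P', ((1 / ((z.1 : ℝ) * z.2) : ℝ) : ℂ) *
        ee ((SP t u ((k : ℝ) * β) ((w.1 : ℝ) * w.2)).eval ((z.1 : ℝ) * z.2))‖ ≤
        η₁ * L + (if Sq Q₁ d₁ ((k : ℝ) * β * ((w.1 : ℝ) * w.2) ^ u) then 0 else L) := by
      intro w _
      by_cases hw : Sq Q₁ d₁ ((k : ℝ) * β * ((w.1 : ℝ) * w.2) ^ u)
      · rw [if_pos hw, add_zero]
        refine hBL t (by omega) le_rfl _ (SP_natDegree t u hut _ _) ?_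
        rw [SP_coeff t u hut]
        exact hw.mono hQQ le_rfl
      · rw [if_neg hw]
        have h1 : ‖∑ z ∈ P ×ˢ P', ((1 / ((z.1 : ℝ) * z.2) : ℝ) : ℂ) *
            ee ((SP t u ((k : ℝ) * β) ((w.1 : ℝ) * w.2)).eval ((z.1 : ℝ) * z.2))‖ ≤ L := by
          rw [← hWz]
          refine (norm_sum_le _ _).trans (sum_le_sum fun z _ => ?_)
          rw [norm_mul, norm_ee, mul_one, Complex.norm_real, Real.norm_of_nonneg (by positivity)]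
        have h2 : 0 ≤ η₁ * L := by positivity
        linarith
    calc _ ≤ ∑ w ∈ P ×ˢ P', 1 / ((w.1 : ℝ) * w.2) *
          (η₁ * L + (if Sq Q₁ d₁ ((k : ℝ) * β * ((w.1 : ℝ) * w.2) ^ u) then 0 else L)) := by
          refine (norm_sum_le _ _).trans (sum_le_sum fun w hw => ?_)
          rw [norm_mul, Complex.norm_real, Real.norm_of_nonneg (by positivity)]
          exact mul_le_mul_of_nonneg_left (hin w hw) (by positivity)
      _ = (∑ w ∈ P ×ˢ P', 1 / ((w.1 : ℝ) * w.2)) * (η₁ * L) + (∑ w ∈ (P ×ˢ P').filter (fun w =>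
          ¬ Sq Q₁ d₁ ((k : ℝ) * β * ((w.1 : ℝ) * w.2) ^ u)), 1 / ((w.1 : ℝ) * w.2)) * L := by
          rw [sum_filter, sum_mul, sum_mul, ← sum_add_distrib]
          refine sum_congr rfl fun w _ => ?_
          by_cases hw : Sq Q₁ d₁ ((k : ℝ) * β * ((w.1 : ℝ) * w.2) ^ u)
          · rw [if_pos hw, if_neg (not_not.mpr hw)]; ring
          · rw [if_neg hw, if_pos hw]; ring
      _ ≤ L * (η₁ * L) + η₁ * L * L := by
          rw [hWz]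
          have := hbadw k hk
          gcongr
      _ = _ := by ring
  have hfin := kernel_weight ((P ×ˢ P') ×ˢ (P ×ˢ P'))
    (fun z => 1 / (((z.1.1 : ℝ) * z.1.2) * ((z.2.1 : ℝ) * z.2.2))) (fun z _ => by positivity)
    (fun z => β * (((z.1.1 : ℝ) * z.1.2) ^ t * ((z.2.1 : ℝ) * z.2.2) ^ u -
      ((z.1.1 : ℝ) * z.1.2) ^ u * ((z.2.1 : ℝ) * z.2.2) ^ t)) K hK1 (2 * η₁) (by positivity)
    (by rw [hWzz]; exact hexp) (1 / (16 * K)) (by field_simp; norm_num)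
  rw [hWzz] at hfin
  refine hfin.trans ?_
  have h9 : 4 / (K : ℝ) ≤ η / 2 := by
    rw [div_le_iff₀ hK0]
    rw [div_le_iff₀ hη] at hK8
    linarith
  have h10 : 4 / (K : ℝ) + 4 * (2 * η₁) ≤ η := by rw [hη₁]; linarith
  exact mul_le_mul_of_nonneg_right h10 (sq_nonneg _)

end PRx

/-- **Row PR.** -/
theorem pr (h : BL_stmt) : PR_stmt := fun t η ht hη => PRx.pr h t ht η hη

end Pool.Agent.EXS
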