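import Pool.Agent.Lib.EXS.Defs

/-!
# Exceptional sets, row SHM: shift and multiplicativity
-/

set_option autoImplicit false
open Finset Polynomial

namespace Pool.Agent.EXS

open Pool.Agent.Lib.MP_663568_nt Pool.Agent.Lib.MP_663568_nt.Katai
  Pool.Agent.Lib.MP_663568_nt.Nul Pool.Agent.Lib.MP_663568_nt.Nul.EqA
  Pool.Agent.Lib.MP_663568_nt.H6 Pool.Agent.TU

namespace SHMx

/-- the multiples of `m` in a window -/
lemma reindex {m n L : ℕ} (hm : 0 < m) {f G : ℕ → ℂ} (hG : ∀ j r : ℕ, n + r = m * j → f r = G j) :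
    ∑ r ∈ (Icc 1 L).filter (fun r => m ∣ n + r), f r =
      ∑ j ∈ Ioc (n / m) ((n + L) / m), G j := by
  refine Finset.sum_bij' (fun r _ => (n + r) / m) (fun j _ => m * j - n) ?_ ?_ ?_ ?_ ?_
  · intro r hr
    rw [mem_filter, mem_Icc] at hr
    obtain ⟨⟨h1, h2⟩, q, hq⟩ := hr
    rw [mem_Ioc]
    constructor
    · rw [hq, Nat.mul_div_cancel_left _ hm, Nat.div_lt_iff_lt_mul hm]
      rw [mul_comm m q] at hq
      omega
    · exact Nat.div_le_div_right (by omega)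
  · intro j hj
    rw [mem_Ioc, Nat.div_lt_iff_lt_mul hm, Nat.le_div_iff_mul_le hm, mul_comm j m] at hj
    rw [mem_filter, mem_Icc]
    refine ⟨⟨by omega, by omega⟩, ⟨j, by omega⟩⟩
  · intro r hr
    rw [mem_filter, mem_Icc] at hr
    obtain ⟨⟨h1, h2⟩, h3⟩ := hr
    rw [Nat.mul_div_cancel' h3]
    omega
  · intro j hj
    rw [mem_Ioc, Nat.div_lt_iff_lt_mul hm, Nat.le_div_iff_mul_le hm, mul_comm j m] at hj
    rw [Nat.add_sub_cancel' (by omega), Nat.mul_div_cancel_left _ hm]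
  · intro r hr
    rw [mem_filter, mem_Icc] at hr
    exact hG _ _ (Nat.mul_div_cancel' hr.2).symm

/-- the shifted sum -/
lemma shift_sum (a b h : ℕ) (F : ℕ → ℂ) :
    ∑ j ∈ Ioc a b, F (j + h) = ∑ j ∈ Ioc (a + h) (b + h), F j := by
  refine Finset.sum_bij' (fun j _ => j + h) (fun j _ => j - h) ?_ ?_ ?_ ?_ ?_
  · intro j hj
    rw [mem_Ioc] at hj ⊢
    omega
  · intro j hj
    rw [mem_Ioc] at hj ⊢
    omega
  · intro j hj
    simp
  · intro j hj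
    rw [mem_Ioc] at hj
    omega
  · intro j hj
    rfl

lemma norm_sum_Ioc_le {a b : ℕ} {F : ℕ → ℂ} {B : ℝ} (h : ∀ j, ‖F j‖ ≤ B) :
    ‖∑ j ∈ Ioc a b, F j‖ ≤ ((b - a : ℕ) : ℝ) * B := by
  refine (norm_sum_le_of_le _ (fun j _ => h j)).trans ?_
  rw [sum_const, Nat.card_Ioc, nsmul_eq_mul]

lemma shift_diff {a b h : ℕ} (hab : a ≤ b) {F : ℕ → ℂ} {B : ℝ} (hF : ∀ j, ‖F j‖ ≤ B) :
    ‖∑ j ∈ Ioc (a + h) (b + h), F j - ∑ j ∈ Ioc a b, F j‖ ≤ B * (2 * h) := by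
  have h1 : ∑ j ∈ Ioc a b, F j + ∑ j ∈ Ioc b (b + h), F j = ∑ j ∈ Ioc a (b + h), F j :=
    sum_Ioc_consecutive F hab (by omega)
  have h2 : ∑ j ∈ Ioc a (a + h), F j + ∑ j ∈ Ioc (a + h) (b + h), F j =
      ∑ j ∈ Ioc a (b + h), F j := sum_Ioc_consecutive F (by omega) (by omega)
  have h3 : ∑ j ∈ Ioc (a + h) (b + h), F j - ∑ j ∈ Ioc a b, F j =
      ∑ j ∈ Ioc b (b + h), F j - ∑ j ∈ Ioc a (a + h), F j := by
    linear_combination h2 - h1
  rw [h3]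
  have h4 := norm_sum_Ioc_le (a := b) (b := b + h) hF
  have h5 := norm_sum_Ioc_le (a := a) (b := a + h) hF
  rw [Nat.add_sub_cancel_left] at h4 h5
  calc _ ≤ ‖∑ j ∈ Ioc b (b + h), F j‖ + ‖∑ j ∈ Ioc a (a + h), F j‖ := norm_sub_le _ _
    _ ≤ h * B + h * B := add_le_add h4 h5
    _ = _ := by ring

/-- the multiples of `p` in an interval -/
lemma card_dvd {a b p : ℕ} (hab : a ≤ b) (hp : 0 < p) :
    (((Ioc a b).filter (fun j => p ∣ j)).card : ℝ) ≤ ((b : ℝ) - a) / p + 1 := by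
  have h1 : ∑ m ∈ Ioc 0 a, (if p ∣ m then (1 : ℝ) else 0) +
      ∑ m ∈ Ioc a b, (if p ∣ m then (1 : ℝ) else 0) =
      ∑ m ∈ Ioc 0 b, (if p ∣ m then (1 : ℝ) else 0) :=
    sum_Ioc_consecutive _ (Nat.zero_le _) hab
  have h2 : ∀ Y : ℕ, ∑ m ∈ Ioc 0 Y, (if p ∣ m then (1 : ℝ) else 0) = ((Y / p : ℕ) : ℝ) :=
    fun Y => sum_dvd p Y
  rw [h2, h2] at h1
  have h3 : (((Ioc a b).filter (fun j => p ∣ j)).card : ℝ) =
      ∑ m ∈ Ioc a b, (if p ∣ m then (1 : ℝ) else 0) := by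
    rw [← sum_filter, sum_const, nsmul_eq_mul, mul_one]
  have h4 := div_le_real b p
  have h5 := div_ge_real a p hp
  rw [h3, sub_div]
  linarith

lemma muC_zero {p x : ℕ} (hp : p.Prime) (h : p * p ∣ x) : muC x = 0 := by
  rw [muC, ArithmeticFunction.moebius_eq_zero_of_not_squarefree, Int.cast_zero]
  intro hs
  exact hp.one_lt.ne' (Nat.isUnit_iff.1 (hs p h))

lemma muC_prime {p : ℕ} (hp : p.Prime) : muC p = -1 := by
  rw [muC, ArithmeticFunction.moebius_apply_prime hp]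
  simp

lemma muC_pair {p p' j : ℕ} (hp : p.Prime) (hp' : p'.Prime) (hne : p ≠ p') (h1 : ¬ p ∣ j)
    (h2 : ¬ p' ∣ j) : muC (p * p' * j) = muC j := by
  have h3 : ¬ p ∣ p' * j := by
    intro h
    rcases hp.dvd_mul.1 h with h | h
    · exact hne ((Nat.prime_dvd_prime_iff_eq hp hp').1 h)
    · exact h1 h
  rw [mul_assoc, muC_mul p hp _ h3, muC_mul p' hp' _ h2, muC_prime hp, muC_prime hp']
  ring

/-- multiplicativity -/
lemma mult_diff {p p' P₀ n L : ℕ} (hp : p.Prime) (hp' : p'.Prime) (hne : p ≠ p') (h0 : 1 ≤ P₀)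
    (hP : P₀ ≤ p) (hP' : P₀ ≤ p') {G : ℕ → ℂ} {B : ℝ} (hG : ∀ j, ‖G j‖ ≤ B) :
    ‖∑ j ∈ Ioc (n / (p * p')) ((n + L) / (p * p')), muC j * G j -
      ∑ j ∈ Ioc (n / (p * p')) ((n + L) / (p * p')), muC (p * p' * j) * G j‖ ≤
      B * (4 + 2 * (L : ℝ) / ((p : ℝ) * p' * P₀)) := by
  have hB : 0 ≤ B := (norm_nonneg _).trans (hG 0)
  have hm : 0 < p * p' := Nat.mul_pos hp.pos hp'.pos
  obtain ⟨a, ha⟩ : ∃ a, a = n / (p * p') := ⟨_, rfl⟩
  obtain ⟨b, hb⟩ : ∃ b, b = (n + L) / (p * p') := ⟨_, rfl⟩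
  rw [← ha, ← hb]
  have hab : a ≤ b := by rw [ha, hb]; exact Nat.div_le_div_right (by omega)
  have hba : (b : ℝ) - a ≤ (L : ℝ) / ((p : ℝ) * p') + 1 := by
    have h4 := div_le_real (n + L) (p * p')
    have h5 := div_ge_real n (p * p') hm
    rw [← hb] at h4
    rw [← ha] at h5
    push_cast at h4 h5
    rw [add_div] at h4
    linarith
  rw [← sum_sub_distrib]
  have h1 : ∀ j ∈ Ioc a b, ‖muC j * G j - muC (p * p' * j) * G j‖ ≤
      B * ((if p ∣ j then (1 : ℝ) else 0) + (if p' ∣ j then (1 : ℝ) else 0)) := by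
    intro j _
    by_cases h : p ∣ j
    · have h2 : muC (p * p' * j) = 0 := by
        apply muC_zero hp
        obtain ⟨c, rfl⟩ := h
        exact ⟨p' * c, by ring⟩
      rw [h2, zero_mul, sub_zero, norm_mul, if_pos h]
      have h3 : ‖muC j‖ * ‖G j‖ ≤ 1 * B :=
        mul_le_mul (norm_muC j) (hG j) (norm_nonneg _) zero_le_one
      have h4 : (0 : ℝ) ≤ (if p' ∣ j then (1 : ℝ) else 0) := by split_ifs <;> norm_num
      nlinarith [mul_nonneg hB h4]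
    · by_cases h' : p' ∣ j
      · have h2 : muC (p * p' * j) = 0 := by
          apply muC_zero hp'
          obtain ⟨c, rfl⟩ := h'
          exact ⟨p * c, by ring⟩
        rw [h2, zero_mul, sub_zero, norm_mul, if_neg h, if_pos h']
        have h3 : ‖muC j‖ * ‖G j‖ ≤ 1 * B :=
          mul_le_mul (norm_muC j) (hG j) (norm_nonneg _) zero_le_one
        linarith
      · rw [muC_pair hp hp' hne h h', sub_self, norm_zero, if_neg h, if_neg h']
        simp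
  refine (norm_sum_le_of_le _ h1).trans ?_
  rw [← mul_sum]
  refine mul_le_mul_of_nonneg_left ?_ hB
  rw [sum_add_distrib]
  have h3 : ∀ p : ℕ, ∑ m ∈ Ioc a b, (if p ∣ m then (1 : ℝ) else 0) =
      (((Ioc a b).filter (fun j => p ∣ j)).card : ℝ) := by
    intro p
    rw [← sum_filter, sum_const, nsmul_eq_mul, mul_one]
  rw [h3, h3]
  have hP0 : (1 : ℝ) ≤ P₀ := by exact_mod_cast h0
  have hpos : (0 : ℝ) < (p : ℝ) * p' := by exact_mod_cast hm
  have hL : (0 : ℝ) ≤ (L : ℝ) / ((p : ℝ) * p') + 1 := by positivity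
  have h6 : ∀ q : ℕ, P₀ ≤ q → 2 ≤ q → (((Ioc a b).filter (fun j => q ∣ j)).card : ℝ) ≤
      (L : ℝ) / ((p : ℝ) * p' * P₀) + 2 := by
    intro q hq hq2
    have hq0 : 0 < q := by omega
    have hqr : (0 : ℝ) < q := by exact_mod_cast hq0
    have hqP : (P₀ : ℝ) ≤ q := by exact_mod_cast hq
    have hq1 : (1 : ℝ) ≤ q := by exact_mod_cast hq0
    refine (card_dvd hab hq0).trans ?_
    have h7 : ((b : ℝ) - a) / q ≤ ((L : ℝ) / ((p : ℝ) * p') + 1) / q := by gcongr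
    have h8 : ((L : ℝ) / ((p : ℝ) * p') + 1) / q = (L : ℝ) / ((p : ℝ) * p') / q + 1 / q := by ring
    have h9 : (L : ℝ) / ((p : ℝ) * p') / q ≤ (L : ℝ) / ((p : ℝ) * p') / P₀ := by gcongr
    have h10 : (L : ℝ) / ((p : ℝ) * p') / P₀ = (L : ℝ) / ((p : ℝ) * p' * P₀) := by
      rw [div_div]
    have h11 : 1 / (q : ℝ) ≤ 1 := by
      rw [div_le_one hqr]
      exact hq1
    linarith
  have h12 := h6 p hP hp.two_le
  have h13 := h6 p' hP' hp'.two_le
  have h14 : 2 * (L : ℝ) / ((p : ℝ) * p' * P₀) = (L : ℝ) / ((p : ℝ) * p' * P₀) +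
      (L : ℝ) / ((p : ℝ) * p' * P₀) := by ring
  rw [h14]
  linarith

end SHMx

open SHMx in
theorem shm : SHM_stmt := by
  intro p p' P₀ hp hp' hne h0 hP hP' n L h g B hg
  have hm : 0 < p * p' := Nat.mul_pos hp.pos hp'.pos
  obtain ⟨G, hG⟩ : ∃ G : ℕ → ℂ, ∀ j : ℕ, G j = g ((p : ℝ) * p' * j - n - (p : ℝ) * p' * h) :=
    ⟨_, fun _ => rfl⟩
  have hGB : ∀ j, ‖G j‖ ≤ B := fun j => by rw [hG]; exact hg _
  have hB : 0 ≤ B := (norm_nonneg _).trans (hGB 0)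
  have h1 : ∑ r ∈ (Icc 1 L).filter (fun r => p * p' ∣ n + r),
      muC (n + r) * g ((r : ℝ) - (p : ℝ) * p' * h) =
      ∑ j ∈ Ioc (n / (p * p')) ((n + L) / (p * p')), muC (p * p' * j) * G j := by
    apply reindex hm
    intro j r hr
    rw [hr, hG]
    have h2 : (r : ℝ) = (p : ℝ) * p' * j - n := by
      have h3 : ((n + r : ℕ) : ℝ) = ((p * p' * j : ℕ) : ℝ) := by rw [hr]
      push_cast at h3
      linarith
    rw [h2]
  have h2 : ∑ j ∈ Ioc (n / (p * p')) ((n + L) / (p * p')),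
      muC (j + h) * g ((p : ℝ) * p' * j - n) =
      ∑ j ∈ Ioc (n / (p * p') + h) ((n + L) / (p * p') + h), muC j * G j := by
    rw [← shift_sum _ _ h (fun j => muC j * G j)]
    refine sum_congr rfl fun j _ => ?_
    simp only [hG]
    congr 2
    push_cast
    ring
  rw [h1, h2]
  have hF : ∀ j, ‖muC j * G j‖ ≤ B := by
    intro j
    rw [norm_mul]
    calc ‖muC j‖ * ‖G j‖ ≤ 1 * B := mul_le_mul (norm_muC j) (hGB j) (norm_nonneg _) zero_le_one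
      _ = B := one_mul B
  have h3 := shift_diff (a := n / (p * p')) (b := (n + L) / (p * p')) (h := h)
    (Nat.div_le_div_right (by omega)) hF
  have h4 := mult_diff (n := n) (L := L) hp hp' hne h0 hP hP' hGB
  set S1 := ∑ j ∈ Ioc (n / (p * p') + h) ((n + L) / (p * p') + h), muC j * G j
  set S2 := ∑ j ∈ Ioc (n / (p * p')) ((n + L) / (p * p')), muC j * G j
  set S3 := ∑ j ∈ Ioc (n / (p * p')) ((n + L) / (p * p')), muC (p * p' * j) * G j
  calc ‖S1 - S3‖ = ‖(S1 - S2) + (S2 - S3)‖ := by congr 1; ring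
    _ ≤ ‖S1 - S2‖ + ‖S2 - S3‖ := norm_add_le _ _
    _ ≤ B * (2 * h) + B * (4 + 2 * (L : ℝ) / ((p : ℝ) * p' * P₀)) := add_le_add h3 h4
    _ = _ := by ring

end Pool.Agent.EXS
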