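import Mathlib
import Pool.Agent.Lib.EXS.Defs

/-!
# Exceptional sets (MP_663568_nt), row SMU: the second moment, first frequency below the top
-/

set_option autoImplicit false
open Finset Polynomial

namespace Pool.Agent.EXS

open Pool.Agent.Lib.MP_663568_nt Pool.Agent.Lib.MP_663568_nt.Katai
  Pool.Agent.Lib.MP_663568_nt.Nul Pool.Agent.Lib.MP_663568_nt.Nul.EqA
  Pool.Agent.Lib.MP_663568_nt.H6 Pool.Agent.TU

namespace SMUx

lemma card_dvd (D L n : ℕ) (hD : 1 ≤ D) :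
    ((#((Icc 1 L).filter (fun r => D ∣ n + r)) : ℕ) : ℝ) ≤ (L : ℝ) / D + 1 := by
  have hD0 : (0 : ℝ) < D := by exact_mod_cast hD
  have h1 : #((Icc 1 L).filter (fun r => D ∣ n + r)) ≤ #(Ioc (n / D) ((n + L) / D)) := by
    refine card_le_card_of_injOn (fun r => (n + r) / D) ?_ ?_
    · intro r hr
      rw [mem_coe, mem_filter, mem_Icc] at hr
      obtain ⟨⟨h1, h2⟩, k, hk⟩ := hr
      rw [mem_coe, mem_Ioc]
      beta_reduce
      rw [hk, Nat.mul_div_cancel_left k (by omega)]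
      constructor
      · rw [Nat.div_lt_iff_lt_mul (by omega)]
        have : k * D = D * k := mul_comm _ _
        omega
      · rw [Nat.le_div_iff_mul_le (by omega)]
        have : k * D = D * k := mul_comm _ _
        omega
    · intro r hr r' hr' h
      rw [mem_coe, mem_filter, mem_Icc] at hr hr'
      obtain ⟨-, k, hk⟩ := hr
      obtain ⟨-, k', hk'⟩ := hr'
      beta_reduce at h
      rw [hk, hk', Nat.mul_div_cancel_left k (by omega), Nat.mul_div_cancel_left k' (by omega)] at h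
      rw [← h] at hk'
      omega
  rw [Nat.card_Ioc] at h1
  have h2 : (((n + L) / D - n / D : ℕ) : ℝ) ≤ (L : ℝ) / D + 1 := by
    have h3 : n / D ≤ (n + L) / D := Nat.div_le_div_right (by omega)
    rw [Nat.cast_sub h3]
    have h4 : (((n + L) / D : ℕ) : ℝ) ≤ ((n + L : ℕ) : ℝ) / D := Nat.cast_div_le
    have h5 : (n : ℝ) / D < ((n / D : ℕ) : ℝ) + 1 := by
      rw [div_lt_iff₀ hD0]
      have h6 := Nat.lt_div_mul_add (a := n) (b := D) (by omega)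
      have h7 : n < (n / D + 1) * D := by linarith
      exact_mod_cast h7
    have h8 : ((n + L : ℕ) : ℝ) / D = (n : ℝ) / D + (L : ℝ) / D := by
      push_cast
      ring
    linarith
  exact le_trans (by exact_mod_cast h1) h2

lemma Sq_int_mul {Q Q' δ β : ℝ} (h : Sq Q δ β) (k : ℤ) (hk : k ≠ 0) (hQ : Q' * |(k : ℝ)| ≤ Q) :
    Sq Q' δ ((k : ℝ) * β) := by
  have h1 : Sq Q' δ ((k.natAbs : ℝ) * β) := by
    refine h.mul k.natAbs (Int.natAbs_pos.mpr hk) ?_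
    rwa [Nat.cast_natAbs, Int.cast_abs]
  intro q hq1 hq2
  have h2 := h1 q hq1 hq2
  have h3 := Int.natAbs_eq k
  generalize k.natAbs = m at h2 h3
  rcases h3 with e | e
  · rw [e]
    push_cast
    exact h2
  · rw [e]
    push_cast
    have e3 : (q : ℝ) * (-(m : ℝ) * β) = -((q : ℝ) * ((m : ℝ) * β)) := by ring
    rw [e3, nd_neg]
    exact h2

lemma blk_disj {a₀ b₀ a₁ b₁ : ℕ} (h : b₀ ≤ a₁) : Disjoint (blk a₀ b₀) (blk a₁ b₁) := by
  rw [disjoint_left]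
  intro p hp hp'
  rw [mem_blk] at hp hp'
  have h1 : (4 : ℕ) ^ b₀ ≤ 4 ^ a₁ := Nat.pow_le_pow_right (by norm_num) h
  omega

lemma sum_pairs (P P' : Finset ℕ) :
    ∑ x ∈ (P ×ˢ P') ×ˢ (P ×ˢ P'), 1 / (mr x.1 * mr x.2) = (WW P * WW P') ^ 2 := by
  have hWz : ∑ z ∈ P ×ˢ P', 1 / mr z = WW P * WW P' := by
    rw [WW, WW, sum_mul_sum, sum_product]
    refine sum_congr rfl fun p _ => sum_congr rfl fun p' _ => ?_
    rw [mr, one_div_mul_one_div]
  rw [sq, ← hWz, sum_mul_sum, sum_product]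
  refine sum_congr rfl fun p _ => sum_congr rfl fun p' _ => ?_
  rw [one_div_mul_one_div]

end SMUx

open SMUx

/-- **Row SMU.** -/
theorem smu (hE : EX_stmt) (hP : PH_stmt) (hW : WE_stmt) (hR : PR_stmt) : SMU_stmt := by
  classical
  intro t V η ht hη
  obtain ⟨ρ, hρ⟩ : ∃ ρ : ℝ, ρ = min (η / 8) (1 / 2) := ⟨_, rfl⟩
  have hρ0 : 0 < ρ := by rw [hρ]; exact lt_min (by positivity) (by norm_num)
  have hρ2 : ρ ≤ 1 / 2 := by rw [hρ]; exact min_le_right _ _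
  have hρη : ρ ≤ η / 8 := by rw [hρ]; exact min_le_left _ _
  obtain ⟨R, hR1, hWE⟩ := hW t ρ hρ0 hρ2
  have hR0 : (0 : ℝ) < R := by exact_mod_cast hR1
  obtain ⟨τ, hτ, A₀, hPR⟩ := hR t (η / (8 * R)) ht (by positivity)
  refine ⟨A₀, max 1 (24 / η), fun a₀ b₀ ha hab hWP => ?_⟩
  obtain ⟨Q₃, hQ₃1, hPR1⟩ := hPR a₀ b₀ ha hab ((le_max_left _ _).trans hWP)
  have hV1 : (1 : ℝ) ≤ (V : ℝ) + 1 := by linarith [(Nat.cast_nonneg V : (0 : ℝ) ≤ V)]
  have hR1' : (1 : ℝ) ≤ R := by exact_mod_cast hR1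
  have h2t : (1 : ℝ) ≤ 2 ^ t := one_le_pow₀ (by norm_num)
  refine ⟨Q₃ * (R * (V + 1) * 2 ^ t), ?_, fun δ hδ hδ1 => ?_⟩
  · have h1 : (1 : ℝ) ≤ R * (V + 1) := one_le_mul_of_one_le_of_one_le hR1' hV1
    exact one_le_mul_of_one_le_of_one_le hQ₃1 (one_le_mul_of_one_le_of_one_le h1 h2t)
  obtain ⟨A₁, hPR2⟩ := hPR1 δ hδ hδ1
  refine ⟨max A₁ b₀, fun a₁ b₁ ha₁ hab₁ hWP' => ?_⟩
  have hPR3 := hPR2 a₁ b₁ ((le_max_left _ _).trans ha₁) hab₁
  set P := blk a₀ b₀ with hPd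
  set P' := blk a₁ b₁ with hPd'
  have hdis : Disjoint P P' := blk_disj ((le_max_right _ _).trans ha₁)
  have hprime : ∀ p ∈ P, p.Prime := fun p hp => (mem_blk.mp hp).2
  have hprime' : ∀ p ∈ P', p.Prime := fun p hp => (mem_blk.mp hp).2
  obtain ⟨hE1, -⟩ := hE P P' hprime hprime' hdis
  have hWEx : ∀ D : ℕ, ∃ L₀ : ℕ, 1 ≤ D → ∀ L n : ℕ, L₀ ≤ L →
      ∀ u : ℕ, 1 ≤ u → u ≤ t → ∀ (γ : ℝ) (g : ℝ → ℝ),
      (∀ c : ℝ, ∃ G : ℝ[X], G.natDegree ≤ u ∧ G.coeff u = γ ∧ ∀ x : ℝ, g (c + D * x) = G.eval x) →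
      ‖∑ r ∈ (Icc 1 L).filter (fun r => D ∣ n + r), ee (g (r : ℝ))‖ ≤ ρ * ((L : ℝ) / D + 1) ∨
        ∃ q : ℕ, 1 ≤ q ∧ q ≤ R ∧ nd ((q : ℝ) * γ) ≤ τ := by
    intro D
    by_cases h : 1 ≤ D
    · obtain ⟨L₀, h'⟩ := hWE τ D hτ h
      exact ⟨L₀, fun _ => h'⟩
    · exact ⟨0, fun h' => absurd h' h⟩
  choose L₀ hL₀ using hWEx
  obtain ⟨Z, hZ⟩ : ∃ Z : Finset ((ℕ × ℕ) × (ℕ × ℕ)), Z = (P ×ˢ P') ×ˢ (P ×ˢ P') := ⟨_, rfl⟩
  obtain ⟨N, hN⟩ : ∃ N : ℝ, N = ((#P : ℝ) * #P') ^ 2 := ⟨_, rfl⟩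
  have hN0 : 0 ≤ N := by rw [hN]; positivity
  have hcZ : (#Z : ℝ) = N := by
    rw [hZ, hN, card_product, card_product]
    push_cast
    ring
  refine ⟨max (Z.sup fun x => L₀ ((x.1.1 * x.1.2) * (x.2.1 * x.2.2))) ⌈8 * (N * (2 + R)) / η⌉₊,
    fun L n hL F hF hSq w hw hwV => ?_⟩
  obtain ⟨i₀, hi₀t, hi₀z, hi₀n⟩ := hw
  set W := WW P with hWd
  set W' := WW P' with hWd'
  have hW1 : 1 ≤ W := (le_max_left _ _).trans hWP
  have hW1' : 1 ≤ W' := (le_max_left _ _).trans hWP'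
  have hW24 : 24 / η ≤ W := (le_max_right _ _).trans hWP
  have hW24' : 24 / η ≤ W' := (le_max_right _ _).trans hWP'
  obtain ⟨Λ, hΛ⟩ : ∃ Λ : ℝ, Λ = (W * W') ^ 2 := ⟨_, rfl⟩
  have hΛ1 : 1 ≤ Λ := by rw [hΛ]; exact one_le_pow₀ (one_le_mul_of_one_le_of_one_le hW1 hW1')
  have hsumZ : ∑ x ∈ Z, 1 / (mr x.1 * mr x.2) = Λ := by rw [hZ, hΛ]; exact sum_pairs P P'
  obtain ⟨u, hu⟩ : ∃ u : ℕ, u = t - (i₀.val + 1) := ⟨_, rfl⟩
  have hu1 : 1 ≤ u := by omega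
  have hut : u < t := by omega
  have hLr : (0 : ℝ) ≤ L := Nat.cast_nonneg L
  -- one pair
  have hpair : ∀ x ∈ Z, ‖∑ r ∈ (Icc 1 L).filter (fun r => (x.1.1 * x.1.2) * (x.2.1 * x.2.2) ∣ n + r),
      ee (psi w F (mr x.1) (r : ℝ) - psi w F (mr x.2) (r : ℝ))‖ ≤
      ρ * (L * (1 / (mr x.1 * mr x.2)) + 1) + ∑ q ∈ Icc 1 R,
        (if nd (((q * w i₀ * (t.choose (i₀.val + 1) : ℤ) : ℤ) * F.coeff t) *
          (mr x.1 ^ t * mr x.2 ^ u - mr x.1 ^ u * mr x.2 ^ t)) ≤ τ then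
          L * (1 / (mr x.1 * mr x.2)) + 1 else 0) := by
    intro x hx
    have hx' := hx
    rw [hZ, mem_product, mem_product, mem_product] at hx'
    obtain ⟨⟨hx1, hx2⟩, hx3, hx4⟩ := hx'
    have q1 := (hprime _ hx1).pos
    have q2 := (hprime' _ hx2).pos
    have q3 := (hprime _ hx3).pos
    have q4 := (hprime' _ hx4).pos
    have hD1 : 1 ≤ (x.1.1 * x.1.2) * (x.2.1 * x.2.2) :=
      Nat.mul_pos (Nat.mul_pos q1 q2) (Nat.mul_pos q3 q4)
    have hDr : (((x.1.1 * x.1.2) * (x.2.1 * x.2.2) : ℕ) : ℝ) = mr x.1 * mr x.2 := by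
      unfold mr
      push_cast
      ring
    have hLx : L₀ ((x.1.1 * x.1.2) * (x.2.1 * x.2.2)) ≤ L := by
      refine le_trans ?_ hL
      refine le_trans ?_ (le_max_left _ _)
      exact le_sup (f := fun x : (ℕ × ℕ) × (ℕ × ℕ) => L₀ ((x.1.1 * x.1.2) * (x.2.1 * x.2.2))) hx
    have hterm : ∀ q ∈ Icc 1 R, 0 ≤ (if nd (((q * w i₀ * (t.choose (i₀.val + 1) : ℤ) : ℤ) *
        F.coeff t) * (mr x.1 ^ t * mr x.2 ^ u - mr x.1 ^ u * mr x.2 ^ t)) ≤ τ then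
          (L : ℝ) * (1 / (mr x.1 * mr x.2)) + 1 else 0) := by
      intro q _
      have : 0 ≤ (L : ℝ) * (1 / (mr x.1 * mr x.2)) + 1 := by
        unfold mr
        positivity
      split_ifs
      · exact this
      · exact le_rfl
    rcases hL₀ _ hD1 L n hLx u hu1 hut.le
      ((w i₀ : ℝ) * (t.choose (i₀.val + 1) : ℝ) * F.coeff t *
        (mr x.1 ^ (i₀.val + 1) - mr x.2 ^ (i₀.val + 1)) * (mr x.1 * mr x.2) ^ u)
      (fun r => psi w F (mr x.1) r - psi w F (mr x.2) r) (fun c => by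
        obtain ⟨G, hG1, hG2, hG3⟩ := hP t w i₀ hi₀z F hF (mr x.1) (mr x.2) c
        rw [← hu] at hG1 hG2
        refine ⟨G, hG1, hG2, fun y => ?_⟩
        rw [hDr]
        exact hG3 y) with h | ⟨q, hq1, hqR, hq⟩
    · refine h.trans ?_
      have h1 := sum_nonneg hterm
      rw [hDr]
      have h2 : (L : ℝ) / (mr x.1 * mr x.2) = L * (1 / (mr x.1 * mr x.2)) := by ring
      rw [h2]
      linarith
    · have h1 : ‖∑ r ∈ (Icc 1 L).filter (fun r => (x.1.1 * x.1.2) * (x.2.1 * x.2.2) ∣ n + r),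
          ee (psi w F (mr x.1) (r : ℝ) - psi w F (mr x.2) (r : ℝ))‖ ≤
          (L : ℝ) * (1 / (mr x.1 * mr x.2)) + 1 := by
        refine (norm_sum_le _ _).trans ?_
        simp only [norm_ee, sum_const, nsmul_eq_mul, mul_one]
        refine (card_dvd _ L n hD1).trans (le_of_eq ?_)
        rw [hDr]
        ring
      refine h1.trans ?_
      have e1 : ((q * w i₀ * (t.choose (i₀.val + 1) : ℤ) : ℤ) * F.coeff t) *
          (mr x.1 ^ t * mr x.2 ^ u - mr x.1 ^ u * mr x.2 ^ t) =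
          (q : ℝ) * ((w i₀ : ℝ) * (t.choose (i₀.val + 1) : ℝ) * F.coeff t *
            (mr x.1 ^ (i₀.val + 1) - mr x.2 ^ (i₀.val + 1)) * (mr x.1 * mr x.2) ^ u) := by
        have e2 : mr x.1 ^ t = mr x.1 ^ (i₀.val + 1) * mr x.1 ^ u := by
          rw [← pow_add]; congr 1; omega
        have e3 : mr x.2 ^ t = mr x.2 ^ (i₀.val + 1) * mr x.2 ^ u := by
          rw [← pow_add]; congr 1; omega
        rw [e2, e3, mul_pow]
        push_cast
        ring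
      have h2 := single_le_sum hterm (mem_Icc.mpr ⟨hq1, hqR⟩)
      rw [e1, if_pos hq] at h2
      have h3 : 0 ≤ ρ * ((L : ℝ) * (1 / (mr x.1 * mr x.2)) + 1) := by
        unfold mr
        positivity
      linarith
  -- all pairs
  have hq : ∀ q ∈ Icc 1 R, ∑ x ∈ Z, (if nd (((q * w i₀ * (t.choose (i₀.val + 1) : ℤ) : ℤ) *
      F.coeff t) * (mr x.1 ^ t * mr x.2 ^ u - mr x.1 ^ u * mr x.2 ^ t)) ≤ τ then
        (L : ℝ) * (1 / (mr x.1 * mr x.2)) + 1 else 0) ≤ L * (η / (8 * R) * Λ) + N := by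
    intro q hq
    rw [mem_Icc] at hq
    rw [← sum_filter, sum_add_distrib, ← mul_sum]
    have hk0 : (q * w i₀ * (t.choose (i₀.val + 1) : ℤ) : ℤ) ≠ 0 := by
      have h1 : 0 < t.choose (i₀.val + 1) := Nat.choose_pos (by omega)
      refine mul_ne_zero (mul_ne_zero ?_ hi₀n) ?_
      · omega
      · omega
    have h1 := hPR3 u hu1 hut (((q * w i₀ * (t.choose (i₀.val + 1) : ℤ) : ℤ) : ℝ) * F.coeff t) (by
      refine Sq_int_mul hSq _ hk0 ?_
      have h2 : |((q * w i₀ * (t.choose (i₀.val + 1) : ℤ) : ℤ) : ℝ)| ≤ R * (V + 1) * 2 ^ t := by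
        push_cast
        rw [abs_mul, abs_mul, Nat.abs_cast, Nat.abs_cast]
        have h3 : |(w i₀ : ℝ)| ≤ (V : ℝ) + 1 := by
          have h4 : |(w i₀ : ℝ)| ≤ (V : ℝ) := by
            have := hwV i₀
            exact_mod_cast this
          linarith
        have h4 : (q : ℝ) ≤ R := by exact_mod_cast hq.2
        have h5 : (t.choose (i₀.val + 1) : ℝ) ≤ 2 ^ t := by
          exact_mod_cast Nat.choose_le_two_pow t (i₀.val + 1)
        gcongr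
      exact mul_le_mul_of_nonneg_left h2 (by linarith))
    have h6 : ∑ x ∈ Z.filter (fun x => nd ((((q * w i₀ * (t.choose (i₀.val + 1) : ℤ) : ℤ) : ℝ) *
        F.coeff t) * (mr x.1 ^ t * mr x.2 ^ u - mr x.1 ^ u * mr x.2 ^ t)) ≤ τ),
          1 / (mr x.1 * mr x.2) ≤ η / (8 * R) * Λ := by
      rw [hZ, hΛ]
      convert h1 using 1
    have h7 : ∑ x ∈ Z.filter (fun x => nd ((((q * w i₀ * (t.choose (i₀.val + 1) : ℤ) : ℤ) : ℝ) *
        F.coeff t) * (mr x.1 ^ t * mr x.2 ^ u - mr x.1 ^ u * mr x.2 ^ t)) ≤ τ), (1 : ℝ) ≤ N := by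
      rw [sum_const, nsmul_eq_mul, mul_one, ← hcZ]
      exact_mod_cast card_filter_le _ _
    exact add_le_add (mul_le_mul_of_nonneg_left h6 hLr) h7
  have hall : ∑ x ∈ Z, (ρ * (L * (1 / (mr x.1 * mr x.2)) + 1) + ∑ q ∈ Icc 1 R,
        (if nd (((q * w i₀ * (t.choose (i₀.val + 1) : ℤ) : ℤ) * F.coeff t) *
          (mr x.1 ^ t * mr x.2 ^ u - mr x.1 ^ u * mr x.2 ^ t)) ≤ τ then
          L * (1 / (mr x.1 * mr x.2)) + 1 else 0)) ≤
      ρ * (L * Λ + N) + R * (L * (η / (8 * R) * Λ) + N) := by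
    rw [sum_add_distrib, sum_comm]
    refine add_le_add ?_ ?_
    · rw [← mul_sum, sum_add_distrib, ← mul_sum, hsumZ, sum_const, nsmul_eq_mul, mul_one, hcZ]
    · refine (sum_le_sum hq).trans (le_of_eq ?_)
      rw [sum_const, Nat.card_Icc, Nat.add_sub_cancel, nsmul_eq_mul]
  have h1 := hE1 (fun z r => psi w F (mr z) (r : ℝ)) L n
  beta_reduce at h1
  have h2 : ‖∑ x ∈ ((P ×ˢ P') ×ˢ (P ×ˢ P')).filter (fun x =>
        Nat.Coprime (x.1.1 * x.1.2) (x.2.1 * x.2.2)),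
        ∑ r ∈ (Icc 1 L).filter (fun r => (x.1.1 * x.1.2) * (x.2.1 * x.2.2) ∣ n + r),
          ee (psi w F (mr x.1) (r : ℝ) - psi w F (mr x.2) (r : ℝ))‖ ≤
      ρ * (L * Λ + N) + R * (L * (η / (8 * R) * Λ) + N) := by
    refine le_trans (norm_sum_le _ _) (le_trans ?_ hall)
    rw [← hZ]
    refine (sum_le_sum fun x hx => hpair x (mem_of_mem_filter x hx)).trans ?_
    refine sum_le_sum_of_subset_of_nonneg (filter_subset _ _) fun x hx _ => ?_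
    exact (norm_nonneg _).trans (hpair x hx)
  have h3 : (∑ r ∈ Icc 1 L, ‖dsum P P' w F n r‖ ^ 2 : ℝ) ≤
      (ρ * (L * Λ + N) + R * (L * (η / (8 * R) * Λ) + N)) +
        (L * (W * W' ^ 2 + W ^ 2 * W' + W * W') + N) := by
    have h4 : ‖((∑ r ∈ Icc 1 L, ‖dsum P P' w F n r‖ ^ 2 : ℝ) : ℂ)‖ =
        ∑ r ∈ Icc 1 L, ‖dsum P P' w F n r‖ ^ 2 := by
      rw [Complex.norm_real, Real.norm_of_nonneg (sum_nonneg fun r _ => by positivity)]
    rw [← h4]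
    have h5 := norm_le_norm_add_norm_sub' ((∑ r ∈ Icc 1 L, ‖dsum P P' w F n r‖ ^ 2 : ℝ) : ℂ)
      (∑ x ∈ ((P ×ˢ P') ×ˢ (P ×ˢ P')).filter (fun x =>
        Nat.Coprime (x.1.1 * x.1.2) (x.2.1 * x.2.2)),
        ∑ r ∈ (Icc 1 L).filter (fun r => (x.1.1 * x.1.2) * (x.2.1 * x.2.2) ∣ n + r),
          ee (psi w F (mr x.1) (r : ℝ) - psi w F (mr x.2) (r : ℝ)))
    refine h5.trans (add_le_add h2 ?_)
    rw [hN]
    exact h1
  refine h3.trans ?_
  rw [← hΛ]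
  -- numbers
  have e1 : R * (L * (η / (8 * R) * Λ) + N) = L * (η / 8 * Λ) + R * N := by
    field_simp
  have e2 : W * W' ^ 2 + W ^ 2 * W' + W * W' ≤ η / 8 * Λ := by
    have i1 : 24 ≤ W * η := by rwa [div_le_iff₀ hη] at hW24
    have i2 : 24 ≤ W' * η := by rwa [div_le_iff₀ hη] at hW24'
    have hW0 : 0 < W := by linarith
    have hW0' : 0 < W' := by linarith
    have j1 : 24 * (W * W' ^ 2) ≤ η * Λ := by
      calc 24 * (W * W' ^ 2) ≤ (W * η) * (W * W' ^ 2) := by gcongr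
        _ = η * Λ := by rw [hΛ]; ring
    have j2 : 24 * (W ^ 2 * W') ≤ η * Λ := by
      calc 24 * (W ^ 2 * W') ≤ (W' * η) * (W ^ 2 * W') := by gcongr
        _ = η * Λ := by rw [hΛ]; ring
    have j3 : 24 * (W * W') ≤ η * Λ := by
      calc 24 * (W * W') ≤ (W * η) * (W * W') := by gcongr
        _ = η * (W ^ 2 * W') := by ring
        _ ≤ η * (W ^ 2 * W' * W') := by
            have : W ^ 2 * W' ≤ W ^ 2 * W' * W' := le_mul_of_one_le_right (by positivity) hW1'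
            gcongr
        _ = η * Λ := by rw [hΛ]; ring
    linarith
  have e3 : N * (2 + R) ≤ η / 8 * (L * Λ) := by
    have i1 : 8 * (N * (2 + R)) / η ≤ L := by
      have := (Nat.le_ceil (8 * (N * (2 + R)) / η))
      refine this.trans ?_
      exact_mod_cast (le_max_right _ _).trans hL
    rw [div_le_iff₀ hη] at i1
    have i2 : (L : ℝ) ≤ L * Λ := le_mul_of_one_le_right hLr hΛ1
    nlinarith
  have e4 : ρ * (L * Λ + N) ≤ η / 8 * (L * Λ) + N := by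
    have i1 : ρ * (L * Λ) ≤ η / 8 * (L * Λ) := by gcongr
    have i2 : ρ * N ≤ N := by nlinarith
    linarith
  have e5 : L * (W * W' ^ 2 + W ^ 2 * W' + W * W') ≤ L * (η / 8 * Λ) :=
    mul_le_mul_of_nonneg_left e2 hLr
  rw [e1]
  have e6 : 0 ≤ η * Λ * L := by positivity
  nlinarith

end Pool.Agent.EXS
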