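import Pool.Agent.Lib.EXS.Defs

/-!
# Exceptional sets (MP_663568_nt): row SMZ

The second moment of the sums of phases when only the last frequency is not zero: the phase of a
pair does not depend on `r`.
-/

set_option autoImplicit false
open Finset Polynomial

namespace Pool.Agent.EXS

open Pool.Agent.Lib.MP_663568_nt Pool.Agent.Lib.MP_663568_nt.Katai
  Pool.Agent.Lib.MP_663568_nt.Nul Pool.Agent.Lib.MP_663568_nt.Nul.EqA
  Pool.Agent.Lib.MP_663568_nt.H6 Pool.Agent.TU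

namespace SMZx

/-- The top Taylor coefficient does not depend on the centre. -/
theorem taylor_top (t : ℕ) (F : ℝ[X]) (hF : F.natDegree ≤ t) (r : ℝ) :
    (taylor r F).coeff t = F.coeff t := by
  rcases hF.lt_or_eq with h | h
  · rw [coeff_eq_zero_of_natDegree_lt h, coeff_eq_zero_of_natDegree_lt (by rwa [natDegree_taylor])]
  · subst h
    rw [coeff_taylor_natDegree]; rfl

/-- The phase, when only the last frequency is not zero. -/
theorem psi_last {t : ℕ} (w : Fin t → ℤ) (i₀ : Fin t) (hi : i₀.val + 1 = t)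
    (hw : ∀ i : Fin t, i < i₀ → w i = 0) (F : ℝ[X]) (hF : F.natDegree ≤ t) (m r : ℝ) :
    psi w F m r = ((w i₀ : ℝ) * F.coeff t) * m ^ t := by
  unfold psi
  rw [Finset.sum_eq_single i₀]
  · unfold zv tv
    rw [hi, taylor_top t F hF]
    ring
  · intro i _ hne
    have h1 : i < i₀ := by
      refine lt_of_le_of_ne ?_ hne
      rw [Fin.le_def]
      have := i.isLt
      omega
    rw [hw i h1]; simp
  · simp

/-- The number of multiples of `D` in a window. -/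
theorem count_eq (D n L : ℕ) :
    #((Icc 1 L).filter (fun r => D ∣ n + r)) + n / D = (n + L) / D := by
  induction L with
  | zero => simp
  | succ L ih =>
    rw [← add_assoc, Nat.succ_div, ← ih, card_filter, card_filter,
      Finset.sum_Icc_succ_top (by omega)]
    rw [add_assoc n L 1]
    ring

theorem count_le (D n L : ℕ) (hD : 1 ≤ D) :
    |(#((Icc 1 L).filter (fun r => D ∣ n + r)) : ℝ) - (L : ℝ) / D| ≤ 1 := by
  have h0 : (#((Icc 1 L).filter (fun r => D ∣ n + r)) : ℝ) + ((n / D : ℕ) : ℝ)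
      = (((n + L) / D : ℕ) : ℝ) := by
    exact_mod_cast count_eq D n L
  have h1 := div_le_real n D
  have h2 := div_ge_real n D hD
  have h3 := div_le_real (n + L) D
  have h4 := div_ge_real (n + L) D hD
  push_cast at h3 h4
  rw [add_div] at h3 h4
  rw [abs_le]
  constructor <;> linarith

theorem mr_pos {P P' : Finset ℕ} (hP : ∀ p ∈ P, p.Prime) (hP' : ∀ p ∈ P', p.Prime)
    {z : ℕ × ℕ} (hz : z ∈ P ×ˢ P') : 0 < mr z := by
  rw [mem_product] at hz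
  have h1 := (hP _ hz.1).pos
  have h2 := (hP' _ hz.2).pos
  unfold mr
  positivity

/-- The main term. -/
theorem main_eq (Z : Finset (ℕ × ℕ)) (g : ℕ × ℕ → ℝ) (L : ℝ) :
    ∑ x ∈ Z ×ˢ Z, ((L * (1 / (mr x.1 * mr x.2)) : ℝ) : ℂ) * ee (g x.1 - g x.2)
      = ((L * ‖∑ z ∈ Z, ((1 / mr z : ℝ) : ℂ) * ee (g z)‖ ^ 2 : ℝ) : ℂ) := by
  have h1 : ((‖∑ z ∈ Z, ((1 / mr z : ℝ) : ℂ) * ee (g z)‖ ^ 2 : ℝ) : ℂ)
      = (∑ z ∈ Z, ((1 / mr z : ℝ) : ℂ) * ee (g z)) *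
        (starRingEnd ℂ) (∑ z ∈ Z, ((1 / mr z : ℝ) : ℂ) * ee (g z)) := by
    rw [Complex.mul_conj, Complex.normSq_eq_norm_sq]
  rw [Complex.ofReal_mul, h1, map_sum, sum_mul_sum, ← sum_product', mul_sum]
  apply sum_congr rfl
  intro x _
  rw [map_mul, Complex.conj_ofReal, ee_sub]
  push_cast
  rw [mul_comm (mr x.1 : ℂ), ← one_div_mul_one_div]
  ring

theorem error (x y E : ℝ) (A B C M : ℂ) (e₁ e₂ e₃ : ℝ) (hS : ‖(x : ℂ) - A‖ ≤ e₁)
    (hA : ‖A - B‖ ≤ e₂) (hB : B = M - C) (hC : ‖C‖ ≤ e₃) (hM : ‖M‖ ≤ y) (hE : e₁ + e₂ + e₃ + y ≤ E) :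
    x ≤ E := by
  have h1 : x ≤ ‖(x : ℂ)‖ := by
    rw [Complex.norm_real]; exact le_abs_self _
  have h2 : (x : ℂ) = ((x : ℂ) - A) + (A - B) + M - C := by rw [hB]; ring
  have h3 : ‖(x : ℂ)‖ ≤ ‖(x : ℂ) - A‖ + ‖A - B‖ + ‖M‖ + ‖C‖ := by
    calc ‖(x : ℂ)‖ = ‖((x : ℂ) - A) + (A - B) + M - C‖ := by rw [← h2]
      _ ≤ ‖((x : ℂ) - A) + (A - B) + M‖ + ‖C‖ := norm_sub_le _ _
      _ ≤ ‖((x : ℂ) - A) + (A - B)‖ + ‖M‖ + ‖C‖ := by gcongr; exact norm_add_le _ _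
      _ ≤ _ := by gcongr; exact norm_add_le _ _
  linarith

/-- The second moment, when the phases of the pairs do not depend on `r`. -/
theorem moment (hE : EX_stmt) (P P' : Finset ℕ) (hP : ∀ p ∈ P, p.Prime)
    (hP' : ∀ p ∈ P', p.Prime) (hd : Disjoint P P') (g : ℕ × ℕ → ℝ) (L n : ℕ) (y : ℝ)
    (hy : ‖∑ z ∈ P ×ˢ P', ((1 / mr z : ℝ) : ℂ) * ee (g z)‖ ≤ y) :
    ∑ r ∈ Icc 1 L, ‖∑ z ∈ (P ×ˢ P').filter (fun z : ℕ × ℕ => z.1 * z.2 ∣ n + r), ee (g z)‖ ^ 2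
      ≤ 2 * L * (WW P * WW P' ^ 2 + WW P ^ 2 * WW P' + WW P * WW P')
        + 2 * ((#P : ℝ) * #P') ^ 2 + L * y ^ 2 := by
  obtain ⟨h1, h2⟩ := hE P P' hP hP' hd
  have h3 := h1 (fun z _ => g z) L n
  have hy0 : 0 ≤ y := (norm_nonneg _).trans hy
  refine error _ (L * y ^ 2) _ _ (∑ x ∈ ((P ×ˢ P') ×ˢ (P ×ˢ P')).filter (fun x =>
        Nat.Coprime (x.1.1 * x.1.2) (x.2.1 * x.2.2)),
        ((L * (1 / (mr x.1 * mr x.2)) : ℝ) : ℂ) * ee (g x.1 - g x.2))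
    (∑ x ∈ ((P ×ˢ P') ×ˢ (P ×ˢ P')).filter (fun x =>
        ¬ Nat.Coprime (x.1.1 * x.1.2) (x.2.1 * x.2.2)),
        ((L * (1 / (mr x.1 * mr x.2)) : ℝ) : ℂ) * ee (g x.1 - g x.2))
    (∑ x ∈ (P ×ˢ P') ×ˢ (P ×ˢ P'),
        ((L * (1 / (mr x.1 * mr x.2)) : ℝ) : ℂ) * ee (g x.1 - g x.2))
    _ (((#P : ℝ) * #P') ^ 2)
    (L * (WW P * WW P' ^ 2 + WW P ^ 2 * WW P' + WW P * WW P')) h3 ?_ ?_ ?_ ?_ ?_
  · rw [← sum_sub_distrib]
    refine (norm_sum_le _ _).trans ?_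
    have h4 : ∀ x ∈ ((P ×ˢ P') ×ˢ (P ×ˢ P')).filter (fun x =>
        Nat.Coprime (x.1.1 * x.1.2) (x.2.1 * x.2.2)),
        ‖∑ r ∈ (Icc 1 L).filter (fun r => (x.1.1 * x.1.2) * (x.2.1 * x.2.2) ∣ n + r),
          ee (g x.1 - g x.2) - ((L * (1 / (mr x.1 * mr x.2)) : ℝ) : ℂ) * ee (g x.1 - g x.2)‖
        ≤ 1 := by
      intro x hx
      rw [mem_filter, mem_product] at hx
      have p1 := mem_product.1 hx.1.1
      have p2 := mem_product.1 hx.1.2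
      have q1 := (hP _ p1.1).pos
      have q2 := (hP' _ p1.2).pos
      have q3 := (hP _ p2.1).pos
      have q4 := (hP' _ p2.2).pos
      have hc := count_le ((x.1.1 * x.1.2) * (x.2.1 * x.2.2)) n L
        (Nat.mul_pos (Nat.mul_pos q1 q2) (Nat.mul_pos q3 q4))
      rw [sum_const, nsmul_eq_mul, ← sub_mul, norm_mul, norm_ee, mul_one]
      have e : (L : ℝ) / (((x.1.1 * x.1.2) * (x.2.1 * x.2.2) : ℕ) : ℝ)
          = L * (1 / (mr x.1 * mr x.2)) := by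
        unfold mr
        push_cast
        rw [mul_one_div]
      rw [e] at hc
      rw [show ((#((Icc 1 L).filter (fun r => (x.1.1 * x.1.2) * (x.2.1 * x.2.2) ∣ n + r)) : ℕ) : ℂ)
        = (((#((Icc 1 L).filter
          (fun r => (x.1.1 * x.1.2) * (x.2.1 * x.2.2) ∣ n + r)) : ℕ) : ℝ) : ℂ) by push_cast; rfl,
        ← Complex.ofReal_sub, Complex.norm_real]
      exact hc
    refine (sum_le_sum h4).trans ?_
    rw [sum_const, nsmul_eq_mul, mul_one]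
    have h5 := card_filter_le ((P ×ˢ P') ×ˢ (P ×ˢ P')) (fun x =>
        Nat.Coprime (x.1.1 * x.1.2) (x.2.1 * x.2.2))
    rw [card_product, card_product] at h5
    calc ((#(((P ×ˢ P') ×ˢ (P ×ˢ P')).filter (fun x =>
        Nat.Coprime (x.1.1 * x.1.2) (x.2.1 * x.2.2))) : ℕ) : ℝ)
        ≤ ((#P * #P' * (#P * #P') : ℕ) : ℝ) := by exact_mod_cast h5
      _ = _ := by push_cast; ring
  · rw [eq_sub_iff_add_eq, sum_filter_add_sum_filter_not]
  · refine (norm_sum_le _ _).trans ?_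
    calc _ ≤ ∑ x ∈ ((P ×ˢ P') ×ˢ (P ×ˢ P')).filter (fun x =>
        ¬ Nat.Coprime (x.1.1 * x.1.2) (x.2.1 * x.2.2)), (L : ℝ) * (1 / (mr x.1 * mr x.2)) := by
          apply sum_le_sum
          intro x hx
          rw [mem_filter, mem_product] at hx
          have m1 := mr_pos hP hP' hx.1.1
          have m2 := mr_pos hP hP' hx.1.2
          rw [norm_mul, norm_ee, mul_one, Complex.norm_real, Real.norm_eq_abs,
            abs_of_nonneg (by positivity)]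
      _ = L * ∑ x ∈ ((P ×ˢ P') ×ˢ (P ×ˢ P')).filter (fun x =>
        ¬ Nat.Coprime (x.1.1 * x.1.2) (x.2.1 * x.2.2)), 1 / (mr x.1 * mr x.2) := by
          rw [mul_sum]
      _ ≤ _ := by
          gcongr
  · rw [main_eq, Complex.norm_real, Real.norm_eq_abs, abs_of_nonneg (by positivity)]
    gcongr
  · linarith

end SMZx

open SMZx in
theorem smz (hE : EX_stmt) (_hP : PH_stmt) (hB : BL_stmt) : SMZ_stmt := by
  intro t V η ht hη
  obtain ⟨η₁, hη₁⟩ : ∃ η₁ : ℝ, η₁ = min 1 η / 2 := ⟨_, rfl⟩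
  have hm0 : 0 < min 1 η := lt_min one_pos hη
  have hη₁0 : 0 < η₁ := by rw [hη₁]; positivity
  have hη₁1 : η₁ ≤ 1 / 2 := by rw [hη₁]; linarith [min_le_left 1 η]
  have hη₁2 : η₁ ≤ η / 2 := by rw [hη₁]; linarith [min_le_right 1 η]
  obtain ⟨A₀, hA₀⟩ := hB t η₁ ht hη₁0
  refine ⟨A₀, max 1 (16 / η), fun a₀ b₀ ha₀ hab₀ hW₀ => ?_⟩
  have hW1 : 1 ≤ WW (blk a₀ b₀) := (le_max_left _ _).trans hW₀
  have hW2 : 16 / η ≤ WW (blk a₀ b₀) := (le_max_right _ _).trans hW₀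
  obtain ⟨QB, hQB1, hQB⟩ := hA₀ a₀ b₀ ha₀ hab₀ hW1
  have hVm : (1 : ℝ) ≤ max (V : ℝ) 1 := le_max_right _ _
  refine ⟨QB * max (V : ℝ) 1, one_le_mul_of_one_le_of_one_le hQB1 hVm, fun δ hδ hδ1 => ?_⟩
  obtain ⟨A₁, hA₁⟩ := hQB δ hδ hδ1
  refine ⟨max A₁ b₀, fun a₁ b₁ ha₁ hab₁ hW' => ?_⟩
  have hW'1 : 1 ≤ WW (blk a₁ b₁) := (le_max_left _ _).trans hW'
  have hW'2 : 16 / η ≤ WW (blk a₁ b₁) := (le_max_right _ _).trans hW'
  have hP : ∀ p ∈ blk a₀ b₀, p.Prime := fun p hp => (mem_blk.1 hp).2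
  have hP' : ∀ p ∈ blk a₁ b₁, p.Prime := fun p hp => (mem_blk.1 hp).2
  have hd : Disjoint (blk a₀ b₀) (blk a₁ b₁) := by
    rw [disjoint_left]
    intro x hx hx'
    rw [mem_blk] at hx hx'
    have h1 : 4 ^ b₀ ≤ 4 ^ a₁ :=
      Nat.pow_le_pow_right (by norm_num) ((le_max_right _ _).trans ha₁)
    omega
  obtain ⟨K, hK⟩ : ∃ K : ℝ, K = ((#(blk a₀ b₀) : ℝ) * #(blk a₁ b₁)) ^ 2 := ⟨_, rfl⟩
  have hK0 : 0 ≤ K := by rw [hK]; positivity
  refine ⟨⌈8 * K / η⌉₊ + 1, fun L n hL F hF hS w hw hwV => ?_⟩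
  obtain ⟨i₀, hi, hw0, hwi⟩ := hw
  have hLr : 8 * K / η ≤ (L : ℝ) := by
    refine (Nat.le_ceil _).trans ?_
    exact_mod_cast (Nat.le_succ _).trans hL
  rw [div_le_iff₀ hη] at hLr
  -- the coefficient
  obtain ⟨c, hc⟩ : ∃ c : ℝ, c = (w i₀ : ℝ) * F.coeff t := ⟨_, rfl⟩
  have hSc : Sq QB δ c := by
    have hk1 : 1 ≤ (w i₀).natAbs := Int.natAbs_pos.mpr hwi
    have hkV : ((w i₀).natAbs : ℝ) ≤ V := by
      have h1 := hwV i₀
      have h2 : ((w i₀).natAbs : ℤ) ≤ V := by rwa [Int.natCast_natAbs]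
      exact_mod_cast h2
    have h3 : Sq QB δ (((w i₀).natAbs : ℝ) * F.coeff t) :=
      hS.mul (w i₀).natAbs hk1 (by
        apply mul_le_mul_of_nonneg_left (hkV.trans (le_max_left _ _))
        linarith)
    intro q hq1 hq2
    have h4 := h3 q hq1 hq2
    rcases Int.natAbs_eq (w i₀) with h | h
    · have h5 : (w i₀ : ℝ) = ((w i₀).natAbs : ℝ) :=
        (congrArg (Int.cast : ℤ → ℝ) h).trans (Int.cast_natCast _)
      rw [hc, h5]; exact h4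
    · have h5 : (w i₀ : ℝ) = -((w i₀).natAbs : ℝ) :=
        (congrArg (Int.cast : ℤ → ℝ) h).trans (by rw [Int.cast_neg, Int.cast_natCast])
      rw [hc, h5, neg_mul, mul_neg, nd_neg]; exact h4
  have hBL := hA₁ a₁ b₁ ((le_max_left _ _).trans ha₁) hab₁ t ht le_rfl (C c * X ^ t)
    (natDegree_C_mul_X_pow_le _ _) (by rw [coeff_C_mul, coeff_X_pow_self, mul_one]; exact hSc)
  have hmo := moment hE _ _ hP hP' hd (fun z => (C c * X ^ t : ℝ[X]).eval (mr z)) L n _ hBL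
  have e : ∀ r, dsum (blk a₀ b₀) (blk a₁ b₁) w F n r
      = ∑ z ∈ (blk a₀ b₀ ×ˢ blk a₁ b₁).filter (fun z : ℕ × ℕ => z.1 * z.2 ∣ n + r),
        ee ((C c * X ^ t : ℝ[X]).eval (mr z)) := by
    intro r
    unfold dsum
    apply sum_congr rfl
    intro z _
    rw [psi_last w i₀ hi hw0 F hF, ← hc]
    simp
  simp only [e]
  refine hmo.trans ?_
  rw [← hK]
  obtain ⟨W, hWe⟩ : ∃ W : ℝ, W = WW (blk a₀ b₀) := ⟨_, rfl⟩
  obtain ⟨W', hWe'⟩ : ∃ W' : ℝ, W' = WW (blk a₁ b₁) := ⟨_, rfl⟩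
  rw [← hWe] at hW1 hW2 ⊢
  rw [← hWe'] at hW'1 hW'2 ⊢
  rw [div_le_iff₀ hη] at hW2 hW'2
  have hL0 : (0 : ℝ) ≤ L := Nat.cast_nonneg _
  have hWW : 1 ≤ W * W' := one_le_mul_of_one_le_of_one_le hW1 hW'1
  -- the three errors
  have a1 : 16 * (W * W' ^ 2) ≤ η * (W * W') ^ 2 := by
    have : 0 ≤ (W * η - 16) * (W * W' ^ 2) := by
      apply mul_nonneg (by linarith); positivity
    nlinarith
  have a2 : 16 * (W ^ 2 * W') ≤ η * (W * W') ^ 2 := by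
    have : 0 ≤ (W' * η - 16) * (W ^ 2 * W') := by
      apply mul_nonneg (by linarith); positivity
    nlinarith
  have a3 : 16 * (W * W') ≤ η * (W * W') ^ 2 := by
    have : 0 ≤ (W * η - 16) * (W * W') := by
      apply mul_nonneg (by linarith); positivity
    have h' : 0 ≤ η * W * (W * W') * (W' - 1) := by
      apply mul_nonneg (by positivity); linarith
    nlinarith
  have a4 : η₁ ^ 2 ≤ η / 4 := by nlinarith
  have a5 : 8 * K ≤ η * (W * W') ^ 2 * L := by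
    have h' : 1 ≤ (W * W') ^ 2 := one_le_pow₀ hWW
    have h'' : L * η * 1 ≤ L * η * (W * W') ^ 2 := by gcongr
    linarith
  have a6 : L * (η₁ * (W * W')) ^ 2 ≤ η * (W * W') ^ 2 * L / 4 := by
    have h' : 0 ≤ (η / 4 - η₁ ^ 2) * ((W * W') ^ 2 * L) := by
      apply mul_nonneg (by linarith); positivity
    nlinarith
  have a7 : 16 * (L * (W * W' ^ 2 + W ^ 2 * W' + W * W')) ≤ 3 * (η * (W * W') ^ 2 * L) := by
    have h' : 0 ≤ (3 * (η * (W * W') ^ 2) - 16 * (W * W' ^ 2 + W ^ 2 * W' + W * W')) * L := by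
      apply mul_nonneg (by linarith) hL0
    nlinarith
  have a8 : 0 ≤ η * (W * W') ^ 2 * L := by positivity
  linarith

end Pool.Agent.EXS
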