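import Pool.Agent.Lib.EXS.Defs

/-!
# Exceptional sets, row TK: the second moment of the number of pairs
-/

set_option autoImplicit false
open Finset Polynomial

namespace Pool.Agent.EXS

open Pool.Agent.Lib.MP_663568_nt Pool.Agent.Lib.MP_663568_nt.Katai
  Pool.Agent.Lib.MP_663568_nt.Nul Pool.Agent.Lib.MP_663568_nt.Nul.EqA
  Pool.Agent.Lib.MP_663568_nt.H6 Pool.Agent.TU

namespace TKx

/-- the indicator of divisibility -/
noncomputable def ix (m x : ℕ) : ℝ := if m ∣ x then 1 else 0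

lemma sum_window (m n L : ℕ) : ∑ r ∈ Icc 1 L, ix m (n + r) =
    (((n + L) / m : ℕ) : ℝ) - ((n / m : ℕ) : ℝ) := by
  have h1 : ∑ r ∈ Icc 1 L, ix m (n + r) = ∑ j ∈ Ioc n (n + L), ix m j := by
    refine Finset.sum_bij' (fun r _ => n + r) (fun j _ => j - n) ?_ ?_ ?_ ?_ ?_
    · intro r hr
      rw [mem_Icc] at hr
      rw [mem_Ioc]
      omega
    · intro j hj
      rw [mem_Ioc] at hj
      rw [mem_Icc]
      omega
    · intro r hr
      simp
    · intro j hj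
      rw [mem_Ioc] at hj
      omega
    · intro r hr
      rfl
  have h2 : ∑ j ∈ Ioc 0 n, ix m j + ∑ j ∈ Ioc n (n + L), ix m j = ∑ j ∈ Ioc 0 (n + L), ix m j :=
    sum_Ioc_consecutive _ (Nat.zero_le _) (by omega)
  have h3 : ∀ Y : ℕ, ∑ j ∈ Ioc 0 Y, ix m j = ((Y / m : ℕ) : ℝ) := fun Y => sum_dvd m Y
  rw [h3, h3] at h2
  rw [h1]
  linarith

lemma window_le {m : ℕ} (hm : 0 < m) (n L : ℕ) :
    ∑ r ∈ Icc 1 L, ix m (n + r) ≤ (L : ℝ) * (1 / m) + 1 := by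
  have h4 := div_le_real (n + L) m
  have h5 := div_ge_real n m hm
  rw [sum_window]
  push_cast at h4
  rw [add_div] at h4
  have h6 : (L : ℝ) * (1 / m) = L / m := by ring
  rw [h6]
  linarith

lemma window_ge {m : ℕ} (hm : 0 < m) (n L : ℕ) :
    (L : ℝ) * (1 / m) - 1 ≤ ∑ r ∈ Icc 1 L, ix m (n + r) := by
  have h4 := div_ge_real (n + L) m hm
  have h5 := div_le_real n m
  rw [sum_window]
  push_cast at h4
  rw [add_div] at h4
  have h6 : (L : ℝ) * (1 / m) = L / m := by ring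
  rw [h6]
  linarith

lemma cnt_eq (P P' : Finset ℕ) (n r : ℕ) :
    cnt P P' n r = ∑ z ∈ P ×ˢ P', ix (z.1 * z.2) (n + r) := by
  rw [cnt]
  simp only [ix]
  rw [← sum_filter, sum_const, nsmul_eq_mul, mul_one]

/-- the least common multiple of two primes -/
def lc (p q : ℕ) : ℕ := if p = q then p else p * q

lemma lc_dvd {p q x : ℕ} (hp : p.Prime) (hq : q.Prime) (h1 : p ∣ x) (h2 : q ∣ x) : lc p q ∣ x := by
  rw [lc]
  split_ifs with h
  · exact h1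
  · exact ((Nat.coprime_primes hp hq).2 h).mul_dvd_of_dvd_of_dvd h1 h2

lemma lc_coprime {p q p' q' : ℕ} (hp : p.Prime) (hq : q.Prime) (hp' : p'.Prime) (hq' : q'.Prime)
    (h1 : p ≠ p') (h2 : p ≠ q') (h3 : q ≠ p') (h4 : q ≠ q') : Nat.Coprime (lc p q) (lc p' q') := by
  have a1 := (Nat.coprime_primes hp hp').2 h1
  have a2 := (Nat.coprime_primes hp hq').2 h2
  have a3 := (Nat.coprime_primes hq hp').2 h3
  have a4 := (Nat.coprime_primes hq hq').2 h4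
  rw [lc, lc]
  split_ifs
  · exact a1
  · exact Nat.Coprime.mul_right a1 a2
  · exact Nat.Coprime.mul_left a1 a3
  · exact Nat.Coprime.mul_right (Nat.Coprime.mul_left a1 a3) (Nat.Coprime.mul_left a2 a4)

lemma lc_pos {p q : ℕ} (hp : 0 < p) (hq : 0 < q) : 0 < lc p q := by
  rw [lc]
  split_ifs
  · exact hp
  · exact Nat.mul_pos hp hq

lemma ix_nonneg (m x : ℕ) : 0 ≤ ix m x := by
  rw [ix]
  split_ifs <;> norm_num

lemma sum_lc (P : Finset ℕ) : ∑ p ∈ P, ∑ q ∈ P, 1 / ((lc p q : ℕ) : ℝ) ≤ WW P ^ 2 + WW P := by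
  have h1 : ∀ p ∈ P, ∀ q ∈ P, 1 / ((lc p q : ℕ) : ℝ) ≤
      1 / (p : ℝ) * (1 / q) + (if p = q then 1 / (p : ℝ) else 0) := by
    intro p _ q _
    rw [lc]
    split_ifs with h
    · have : 0 ≤ 1 / (p : ℝ) * (1 / q) := by positivity
      linarith
    · push_cast
      rw [add_zero]
      apply le_of_eq
      ring
  refine (sum_le_sum fun p hp => sum_le_sum fun q hq => h1 p hp q hq).trans ?_
  simp only [sum_add_distrib, sum_ite_eq]
  rw [sum_ite_mem, inter_self]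
  apply le_of_eq
  simp only [← mul_sum, WW, ← sum_mul]
  ring

/-- the square of the number of pairs -/
lemma sum_sq {P P' : Finset ℕ} (hP : ∀ p ∈ P, p.Prime) (hP' : ∀ p ∈ P', p.Prime)
    (hd : Disjoint P P') (n L : ℕ) :
    ∑ r ∈ Icc 1 L, cnt P P' n r ^ 2 ≤
      (L : ℝ) * ((WW P ^ 2 + WW P) * (WW P' ^ 2 + WW P')) + ((#P : ℝ) * #P') ^ 2 := by
  have h0 : ∀ z ∈ P ×ˢ P', ∀ z' ∈ P ×ˢ P', ∀ x : ℕ, ix (z.1 * z.2) x * ix (z'.1 * z'.2) x ≤
      ix (lc z.1 z'.1 * lc z.2 z'.2) x := by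
    intro z hz z' hz' x
    rw [mem_product] at hz hz'
    by_cases h : z.1 * z.2 ∣ x
    · by_cases h' : z'.1 * z'.2 ∣ x
      · have h1 : lc z.1 z'.1 ∣ x := lc_dvd (hP _ hz.1) (hP _ hz'.1)
          ((dvd_mul_right _ _).trans h) ((dvd_mul_right _ _).trans h')
        have h2 : lc z.2 z'.2 ∣ x := lc_dvd (hP' _ hz.2) (hP' _ hz'.2)
          ((dvd_mul_left _ _).trans h) ((dvd_mul_left _ _).trans h')
        have hne : ∀ a ∈ P, ∀ b ∈ P', a ≠ b := fun a ha b hb hab =>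
          (disjoint_left.1 hd ha) (hab ▸ hb)
        have h3 := lc_coprime (hP _ hz.1) (hP _ hz'.1) (hP' _ hz.2) (hP' _ hz'.2)
          (hne _ hz.1 _ hz.2) (hne _ hz.1 _ hz'.2) (hne _ hz'.1 _ hz.2) (hne _ hz'.1 _ hz'.2)
        have h4 := h3.mul_dvd_of_dvd_of_dvd h1 h2
        simp only [ix]
        rw [if_pos h, if_pos h', if_pos h4]
        norm_num
      · have : ix (z'.1 * z'.2) x = 0 := by rw [ix, if_neg h']
        rw [this, mul_zero]
        exact ix_nonneg _ _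
    · have : ix (z.1 * z.2) x = 0 := by rw [ix, if_neg h]
      rw [this, zero_mul]
      exact ix_nonneg _ _
  have h1 : ∑ r ∈ Icc 1 L, cnt P P' n r ^ 2 ≤ ∑ z ∈ P ×ˢ P', ∑ z' ∈ P ×ˢ P',
      ∑ r ∈ Icc 1 L, ix (lc z.1 z'.1 * lc z.2 z'.2) (n + r) := by
    calc ∑ r ∈ Icc 1 L, cnt P P' n r ^ 2
        = ∑ r ∈ Icc 1 L, ∑ z ∈ P ×ˢ P', ∑ z' ∈ P ×ˢ P',
          ix (z.1 * z.2) (n + r) * ix (z'.1 * z'.2) (n + r) := by
          refine sum_congr rfl fun r _ => ?_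
          rw [cnt_eq, sq, sum_mul_sum]
      _ ≤ ∑ r ∈ Icc 1 L, ∑ z ∈ P ×ˢ P', ∑ z' ∈ P ×ˢ P',
          ix (lc z.1 z'.1 * lc z.2 z'.2) (n + r) :=
          sum_le_sum fun r _ => sum_le_sum fun z hz => sum_le_sum fun z' hz' => h0 z hz z' hz' _
      _ = _ := by
          rw [sum_comm]
          refine sum_congr rfl fun z _ => ?_
          rw [sum_comm]
  have h2 : ∑ z ∈ P ×ˢ P', ∑ z' ∈ P ×ˢ P',
      ∑ r ∈ Icc 1 L, ix (lc z.1 z'.1 * lc z.2 z'.2) (n + r) ≤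
      ∑ z ∈ P ×ˢ P', ∑ z' ∈ P ×ˢ P', ((L : ℝ) * ((1 / ((lc z.1 z'.1 : ℕ) : ℝ)) *
        (1 / ((lc z.2 z'.2 : ℕ) : ℝ))) + 1) := by
    refine sum_le_sum fun z hz => sum_le_sum fun z' hz' => ?_
    rw [mem_product] at hz hz'
    have h3 := window_le (Nat.mul_pos (lc_pos (hP _ hz.1).pos (hP _ hz'.1).pos)
      (lc_pos (hP' _ hz.2).pos (hP' _ hz'.2).pos)) n L
    refine h3.trans (le_of_eq ?_)
    push_cast
    ring
  refine h1.trans (h2.trans ?_)
  have h3 : ∑ z ∈ P ×ˢ P', ∑ z' ∈ P ×ˢ P', ((L : ℝ) * ((1 / ((lc z.1 z'.1 : ℕ) : ℝ)) *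
        (1 / ((lc z.2 z'.2 : ℕ) : ℝ))) + 1) =
      (L : ℝ) * ((∑ p ∈ P, ∑ q ∈ P, 1 / ((lc p q : ℕ) : ℝ)) *
        (∑ p ∈ P', ∑ q ∈ P', 1 / ((lc p q : ℕ) : ℝ))) + ((#P : ℝ) * #P') ^ 2 := by
    simp only [sum_add_distrib, ← mul_sum]
    congr 1
    · congr 1
      simp only [sum_product]
      rw [sum_mul_sum]
      refine sum_congr rfl fun p _ => ?_
      refine sum_congr rfl fun p' _ => ?_
      rw [sum_mul_sum]
    · simp only [sum_const, nsmul_eq_mul, mul_one, card_product]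
      push_cast
      ring
  rw [h3]
  have h4 := sum_lc P
  have h5 := sum_lc P'
  have h6 : 0 ≤ WW P := WW_nonneg P
  have h7 : 0 ≤ ∑ p ∈ P', ∑ q ∈ P', 1 / ((lc p q : ℕ) : ℝ) :=
    sum_nonneg fun _ _ => sum_nonneg fun _ _ => by positivity
  gcongr

lemma sum_one {P P' : Finset ℕ} (hP : ∀ p ∈ P, p.Prime) (hP' : ∀ p ∈ P', p.Prime) (n L : ℕ) :
    (L : ℝ) * (WW P * WW P') - (#P : ℝ) * #P' ≤ ∑ r ∈ Icc 1 L, cnt P P' n r := by
  have h1 : ∑ r ∈ Icc 1 L, cnt P P' n r = ∑ z ∈ P ×ˢ P', ∑ r ∈ Icc 1 L,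
      ix (z.1 * z.2) (n + r) := by
    rw [sum_comm]
    exact sum_congr rfl fun r _ => cnt_eq P P' n r
  rw [h1]
  have h2 : ∀ z ∈ P ×ˢ P', (L : ℝ) * (1 / (z.1 : ℝ) * (1 / (z.2 : ℝ))) - 1 ≤ ∑ r ∈ Icc 1 L,
      ix (z.1 * z.2) (n + r) := by
    intro z hz
    rw [mem_product] at hz
    refine le_trans (le_of_eq ?_) (window_ge (Nat.mul_pos (hP _ hz.1).pos (hP' _ hz.2).pos) n L)
    push_cast
    ring
  refine le_trans (le_of_eq ?_) (sum_le_sum h2)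
  rw [sum_sub_distrib, ← mul_sum]
  congr 1
  · congr 1
    rw [sum_product, WW, WW, sum_mul_sum]
  · simp only [sum_const, nsmul_eq_mul, mul_one, card_product]
    push_cast
    ring

end TKx

open TKx in
theorem tk : TK_stmt := by
  intro η hη
  refine ⟨max 1 (6 / η), fun P P' hP hP' hd hW hW' => ?_⟩
  have hW1 : 1 ≤ WW P := (le_max_left _ _).trans hW
  have hW1' : 1 ≤ WW P' := (le_max_left _ _).trans hW'
  have hW2 : 6 / η ≤ WW P := (le_max_right _ _).trans hW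
  have hW2' : 6 / η ≤ WW P' := (le_max_right _ _).trans hW'
  obtain ⟨Z, hZ⟩ : ∃ Z : ℝ, Z = (#P : ℝ) * #P' := ⟨_, rfl⟩
  have hZ0 : 0 ≤ Z := by rw [hZ]; positivity
  obtain ⟨H₁, hH₁⟩ := exists_nat_ge ((Z ^ 2 + 2 * (WW P * WW P') * Z) * (2 / η))
  refine ⟨H₁, fun L n hL => ?_⟩
  have hL' : (Z ^ 2 + 2 * (WW P * WW P') * Z) * (2 / η) ≤ L :=
    hH₁.trans (by exact_mod_cast hL)
  have h1 := sum_sq hP hP' hd n L
  have h2 := sum_one hP hP' n L
  rw [← hZ] at h1 h2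
  obtain ⟨w, hw⟩ : ∃ w, w = WW P := ⟨_, rfl⟩
  obtain ⟨w', hw'⟩ : ∃ w', w' = WW P' := ⟨_, rfl⟩
  rw [← hw, ← hw'] at h1 h2 hL'
  rw [← hw] at hW1 hW2
  rw [← hw'] at hW1' hW2'
  rw [← hw, ← hw']
  have h3 : ∑ r ∈ Icc 1 L, |cnt P P' n r - w * w'| ^ 2 = ∑ r ∈ Icc 1 L, cnt P P' n r ^ 2 -
      2 * (w * w') * ∑ r ∈ Icc 1 L, cnt P P' n r + (w * w') ^ 2 * L := by
    have : ∀ r, |cnt P P' n r - w * w'| ^ 2 = cnt P P' n r ^ 2 - 2 * (w * w') * cnt P P' n r +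
        (w * w') ^ 2 := by
      intro r
      rw [sq_abs]
      ring
    simp only [this, sum_add_distrib, sum_sub_distrib, ← mul_sum]
    simp
    ring
  rw [h3]
  have hww : 0 ≤ 2 * (w * w') := by positivity
  have h4 := mul_le_mul_of_nonneg_left h2 hww
  have hL0 : (0 : ℝ) ≤ L := Nat.cast_nonneg _
  -- the main terms
  have hη6 : 6 ≤ η * w := by
    rw [div_le_iff₀ hη] at hW2
    linarith
  have hη6' : 6 ≤ η * w' := by
    rw [div_le_iff₀ hη] at hW2'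
    linarith
  have h5 : w ^ 2 * w' + w * w' ^ 2 + w * w' ≤ η / 2 * (w * w') ^ 2 := by
    have hp : 0 ≤ w * w' := by positivity
    have a1 : 6 * (w * w') * w ≤ η * w' * (w * w') * w := by
      have := mul_le_mul_of_nonneg_right hη6' (mul_nonneg hp (by linarith : (0 : ℝ) ≤ w))
      linarith
    have a2 : 6 * (w * w') * w' ≤ η * w * (w * w') * w' := by
      have := mul_le_mul_of_nonneg_right hη6 (mul_nonneg hp (by linarith : (0 : ℝ) ≤ w'))
      linarith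
    have a3 : w * w' ≤ (w * w') * w' := by
      have := mul_le_mul_of_nonneg_left hW1' hp
      linarith
    nlinarith
  have h6 : Z ^ 2 + 2 * (w * w') * Z ≤ η / 2 * (w * w') ^ 2 * L := by
    have a1 : Z ^ 2 + 2 * (w * w') * Z ≤ η / 2 * L := by
      have := mul_le_mul_of_nonneg_left hL' (by positivity : 0 ≤ η / 2)
      have e : η / 2 * ((Z ^ 2 + 2 * (w * w') * Z) * (2 / η)) = Z ^ 2 + 2 * (w * w') * Z := by
        field_simp
      rw [e] at this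
      exact this
    have a2 : 1 ≤ (w * w') ^ 2 := by
      have : 1 ≤ w * w' := by nlinarith
      nlinarith
    have a3 : η / 2 * L ≤ η / 2 * L * (w * w') ^ 2 := by
      have := mul_le_mul_of_nonneg_left a2 (by positivity : 0 ≤ η / 2 * L)
      linarith
    linarith
  have h7 := mul_le_mul_of_nonneg_left h5 hL0
  nlinarith

end Pool.Agent.EXS
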