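import Mathlib
import Pool.Agent.Lib.EXS.FOU

/-!
# Exceptional sets: row UPK, the mass of the kernel
-/

set_option autoImplicit false
open Finset Polynomial

namespace Pool.Agent.EXS

open Pool.Agent.Lib.MP_663568_nt Pool.Agent.Lib.MP_663568_nt.Katai
  Pool.Agent.Lib.MP_663568_nt.Nul Pool.Agent.Lib.MP_663568_nt.Nul.EqA
  Pool.Agent.Lib.MP_663568_nt.H6 Pool.Agent.TU

open FOUx in
theorem upk : UPK_stmt := by
  intro t H₀ M V P₀ W₀ η Q δ P P' H₁ Λ c K ht hη hK hG hV L n hL F hF hS b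
  obtain ⟨W, hW⟩ : ∃ W : ℝ, W = WW P * WW P' := ⟨_, rfl⟩
  have hW0 : 0 ≤ W := by rw [hW]; exact mul_nonneg (WW_nonneg _) (WW_nonneg _)
  rw [← hW]
  obtain ⟨S, hSd⟩ : ∃ S : ℝ, S = ∑ z ∈ P ×ˢ P', ∑ r ∈ (Icc 1 L).filter
    (fun r => z.1 * z.2 ∣ n + r), K (fun i => zv t F (mr z) (r : ℝ) i - b i) := ⟨_, rfl⟩
  rw [← hSd]
  have hS0 : 0 ≤ S := by
    rw [hSd]; exact sum_nonneg fun z _ => sum_nonneg fun r _ => hK.nonneg _
  obtain ⟨ε, hε⟩ : ∃ ε : (Fin t → ℤ) → ℂ, ε = fun l => ee (-∑ i, (l i : ℝ) * b i) := ⟨_, rfl⟩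
  have hε1 : ∀ l, ‖ε l‖ = 1 := fun l => by rw [hε]; exact norm_ee _
  have hmain : ((S : ℝ) : ℂ) = ∑ l ∈ Λ, ((c l : ℝ) : ℂ) * (ε l *
      ∑ r ∈ Icc 1 L, dsum P P' l F n r) := by
    have h1 : ∀ z ∈ P ×ˢ P', ((∑ r ∈ (Icc 1 L).filter (fun r => z.1 * z.2 ∣ n + r),
      K (fun i => zv t F (mr z) (r : ℝ) i - b i) : ℝ) : ℂ) =
        ∑ l ∈ Λ, ∑ r ∈ Icc 1 L, if z.1 * z.2 ∣ n + r then
          ((c l : ℝ) : ℂ) * (ε l * ee (psi l F (mr z) (r : ℝ))) else 0 := by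
      intro z _
      rw [Complex.ofReal_sum, sum_filter, sum_comm]
      refine sum_congr rfl fun r _ => ?_
      rw [hK.eq]
      split_ifs
      · refine sum_congr rfl fun l _ => ?_
        have e1 : ∑ i, (l i : ℝ) * (zv t F (mr z) (r : ℝ) i - b i) =
            -∑ i, (l i : ℝ) * b i + psi l F (mr z) (r : ℝ) := by
          unfold psi
          rw [← sum_neg_distrib, ← sum_add_distrib]
          exact sum_congr rfl fun i _ => by ring
        rw [e1, ee_add, hε]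
      · simp
    rw [hSd, Complex.ofReal_sum, sum_congr rfl h1, sum_comm]
    refine sum_congr rfl fun l _ => ?_
    rw [sum_comm, mul_sum, mul_sum]
    refine sum_congr rfl fun r _ => ?_
    rw [dsum, sum_filter, mul_sum, mul_sum]
    refine sum_congr rfl fun z _ => ?_
    split_ifs <;> simp
  rw [← add_sum_erase Λ _ hK.zero] at hmain
  have h0 : ‖((c 0 : ℝ) : ℂ) * (ε 0 * ∑ r ∈ Icc 1 L, dsum P P' (0 : Fin t → ℤ) F n r)‖ ≤
      W * L + √η * W * L := by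
    rw [hK.czero, norm_mul, norm_mul, hε1, one_mul, Complex.ofReal_one, norm_one, one_mul]
    have h2 := cnt_dev hη hG L n hL
    rw [← hW] at h2
    have e1 : ∑ r ∈ Icc 1 L, dsum P P' (0 : Fin t → ℤ) F n r =
        ((∑ r ∈ Icc 1 L, cnt P P' n r : ℝ) : ℂ) := by
      rw [Complex.ofReal_sum]
      exact sum_congr rfl fun r _ => dsum_zero _ _ _ _ _
    have h3 : 0 ≤ ∑ r ∈ Icc 1 L, cnt P P' n r :=
      sum_nonneg fun r _ => Nat.cast_nonneg _
    rw [e1, Complex.norm_real, Real.norm_eq_abs, abs_of_nonneg h3]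
    have h4 : ∑ r ∈ Icc 1 L, cnt P P' n r ≤ ∑ r ∈ Icc 1 L, (W + |cnt P P' n r - W|) :=
      sum_le_sum fun r _ => by linarith [le_abs_self (cnt P P' n r - W)]
    rw [sum_add_distrib, sum_const, Nat.card_Icc, Nat.add_sub_cancel, nsmul_eq_mul] at h4
    linarith
  have h1 : ‖∑ l ∈ Λ.erase 0, ((c l : ℝ) : ℂ) *
      (ε l * ∑ r ∈ Icc 1 L, dsum P P' l F n r)‖ ≤ CKn t H₀ M * (√η * W * L) := by
    have hs0 : 0 ≤ √η * W * L := by positivity
    refine (norm_sum_le _ _).trans ?_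
    calc _ ≤ ∑ l ∈ Λ.erase 0, c l * (√η * W * L) := by
          refine sum_le_sum fun l hl => ?_
          rw [mem_erase] at hl
          rw [norm_mul, norm_mul, hε1, one_mul, Complex.norm_real, Real.norm_eq_abs,
            abs_of_nonneg (hK.c0 l)]
          refine mul_le_mul_of_nonneg_left ?_ (hK.c0 l)
          refine (norm_sum_le _ _).trans ?_
          rw [hW]
          exact dsum_small hη hG L n hL F hF hS l hl.1 (hV l hl.2)
      _ = (∑ l ∈ Λ.erase 0, c l) * (√η * W * L) := by rw [sum_mul]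
      _ ≤ (∑ l ∈ Λ, c l) * (√η * W * L) := by
          apply mul_le_mul_of_nonneg_right _ hs0
          exact sum_le_sum_of_subset_of_nonneg (erase_subset _ _) fun l _ _ => hK.c0 l
      _ ≤ _ := mul_le_mul_of_nonneg_right hK.sum hs0
  have h2 : S = ‖((S : ℝ) : ℂ)‖ := by rw [Complex.norm_real, Real.norm_eq_abs, abs_of_nonneg hS0]
  rw [h2, hmain]
  refine (norm_add_le _ _).trans ?_
  calc _ ≤ (W * L + √η * W * L) + CKn t H₀ M * (√η * W * L) := add_le_add h0 h1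
    _ = _ := by ring

end Pool.Agent.EXS
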