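import Pool.Agent.Lib.EXS.SHM
import Pool.Agent.Lib.MP_663568_nul.Scales

/-!
# Exceptional sets, row UPX: from a fixed length to all lengths, with the exact constant
-/

set_option autoImplicit false
open Finset Polynomial

namespace Pool.Agent.EXS

open Pool.Agent.Lib.MP_663568_nt Pool.Agent.Lib.MP_663568_nt.Katai
  Pool.Agent.Lib.MP_663568_nt.Nul Pool.Agent.Lib.MP_663568_nt.Nul.EqA
  Pool.Agent.Lib.MP_663568_nt.H6 Pool.Agent.TU

namespace UPXx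

/-- the sequence of one phase -/
noncomputable def fs (F : ℝ[X]) (n r : ℕ) : ℂ := muC (n + r) * ee (F.eval (r : ℝ))

lemma norm_fs (F : ℝ[X]) (n r : ℕ) : ‖fs F n r‖ ≤ 1 := by
  rw [fs, norm_mul, norm_ee, mul_one]
  exact norm_muC _

lemma term_le (F : ℝ[X]) (L n : ℕ) : ‖∑ r ∈ Icc 1 L, fs F n r‖ ≤ L := by
  refine (norm_sum_le_of_le _ fun r _ => norm_fs F n r).trans ?_
  simp

lemma bdd (S : Set ℝ[X]) (L n : ℕ) : BddAbove (Set.range fun F : S =>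
    ‖∑ r ∈ Icc 1 L, muC (n + r) * ee ((F : ℝ[X]).eval (r : ℝ))‖) :=
  ⟨L, by rintro _ ⟨F, rfl⟩; exact term_le F L n⟩

lemma US_nonneg (S : Set ℝ[X]) (L n : ℕ) : 0 ≤ US S L n :=
  Real.iSup_nonneg fun _ => norm_nonneg _

lemma US_le (S : Set ℝ[X]) (L n : ℕ) : US S L n ≤ L :=
  Real.iSup_le (fun F => term_le F L n) (Nat.cast_nonneg _)

lemma le_US {S : Set ℝ[X]} {F : ℝ[X]} (hF : F ∈ S) (L n : ℕ) :
    ‖∑ r ∈ Icc 1 L, fs F n r‖ ≤ US S L n := le_ciSup (bdd S L n) ⟨F, hF⟩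

/-- the class is invariant under shifts -/
lemma taylor_mem {t : ℕ} {Q δ : ℝ} {F : ℝ[X]} (hF : F ∈ Mn t Q δ) (a : ℝ) :
    taylor a F ∈ Mn t Q δ := by
  obtain ⟨h1, h2⟩ := hF
  refine ⟨by rw [natDegree_taylor]; exact h1, ?_⟩
  have h3 : (taylor a F).coeff t = F.coeff t := by
    rcases h1.lt_or_eq with h | h
    · rw [coeff_eq_zero_of_natDegree_lt (by rw [natDegree_taylor]; exact h),
        coeff_eq_zero_of_natDegree_lt h]
    · have h4 := coeff_taylor_natDegree (r := a) (f := F)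
      rw [h] at h4
      rw [h4, leadingCoeff, h]
  rw [h3]
  exact h2

lemma block_le {t : ℕ} {Q δ : ℝ} {F : ℝ[X]} (hF : F ∈ Mn t Q δ) (L₁ n a : ℕ) :
    ‖∑ r ∈ Icc 1 L₁, fs F n (a + r)‖ ≤ US (Mn t Q δ) L₁ (n + a) := by
  have h1 := le_US (taylor_mem hF (a : ℝ)) L₁ (n + a)
  refine le_trans (le_of_eq ?_) h1
  congr 1
  refine sum_congr rfl fun r _ => ?_
  rw [fs, fs, taylor_eval]
  congr 2
  · ring
  · push_cast
    ring_nf

/-- averaging over the offsets -/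
lemma average {t : ℕ} {Q δ : ℝ} {F : ℝ[X]} (hF : F ∈ Mn t Q δ) (L L₁ n : ℕ) :
    (L₁ : ℝ) * ‖∑ r ∈ Icc 1 L, fs F n r‖ ≤
      2 * (L₁ : ℝ) ^ 2 + ∑ j ∈ range L, US (Mn t Q δ) L₁ (n + j) := by
  obtain ⟨W, hW⟩ : ∃ W : ℂ, W = ∑ r ∈ Ioc 0 L, fs F n r := ⟨_, rfl⟩
  have hW' : ∑ r ∈ Icc 1 L, fs F n r = W := hW.symm
  rw [hW']
  -- the shifted sums
  have h1 : ∀ i ∈ range L₁, ‖∑ j ∈ Ioc 0 L, fs F n (j + i) - W‖ ≤ 2 * L₁ := by
    intro i hi
    rw [mem_range] at hi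
    have h2 := SHMx.shift_diff (a := 0) (b := L) (h := i) (Nat.zero_le _)
      (fun j => norm_fs F n j)
    rw [SHMx.shift_sum 0 L i (fun j => fs F n j), hW]
    refine h2.trans ?_
    have : (i : ℝ) ≤ L₁ := by exact_mod_cast hi.le
    linarith
  have h2 : ‖∑ i ∈ range L₁, ∑ j ∈ Ioc 0 L, fs F n (j + i) - (L₁ : ℂ) * W‖ ≤ 2 * (L₁ : ℝ) ^ 2 := by
    have h3 : ∑ i ∈ range L₁, ∑ j ∈ Ioc 0 L, fs F n (j + i) - (L₁ : ℂ) * W =
        ∑ i ∈ range L₁, (∑ j ∈ Ioc 0 L, fs F n (j + i) - W) := by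
      rw [sum_sub_distrib, sum_const, card_range, nsmul_eq_mul]
    rw [h3]
    refine (norm_sum_le_of_le _ h1).trans ?_
    rw [sum_const, card_range, nsmul_eq_mul]
    apply le_of_eq
    ring
  have h3 : ∑ i ∈ range L₁, ∑ j ∈ Ioc 0 L, fs F n (j + i) =
      ∑ j ∈ range L, ∑ r ∈ Icc 1 L₁, fs F n (j + r) := by
    rw [sum_comm]
    refine Finset.sum_bij' (fun j _ => j - 1) (fun j _ => j + 1) ?_ ?_ ?_ ?_ ?_
    · intro j hj
      rw [mem_Ioc] at hj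
      rw [mem_range]
      omega
    · intro j hj
      rw [mem_range] at hj
      rw [mem_Ioc]
      omega
    · intro j hj
      rw [mem_Ioc] at hj
      omega
    · intro j hj
      simp
    · intro j hj
      rw [mem_Ioc] at hj
      refine Finset.sum_bij' (fun i _ => i + 1) (fun r _ => r - 1) ?_ ?_ ?_ ?_ ?_
      · intro i hi
        rw [mem_range] at hi
        rw [mem_Icc]
        omega
      · intro r hr
        rw [mem_Icc] at hr
        rw [mem_range]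
        omega
      · intro i hi
        simp
      · intro r hr
        rw [mem_Icc] at hr
        omega
      · intro i hi
        congr 1
        omega
  have h4 : ‖∑ j ∈ range L, ∑ r ∈ Icc 1 L₁, fs F n (j + r)‖ ≤
      ∑ j ∈ range L, US (Mn t Q δ) L₁ (n + j) :=
    norm_sum_le_of_le _ fun j _ => block_le hF L₁ n j
  rw [h3] at h2
  obtain ⟨Z, hZ⟩ : ∃ Z : ℂ, Z = ∑ j ∈ range L, ∑ r ∈ Icc 1 L₁, fs F n (j + r) := ⟨_, rfl⟩
  rw [← hZ] at h2 h4
  have h5 : (L₁ : ℝ) * ‖W‖ = ‖(L₁ : ℂ) * W‖ := by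
    rw [norm_mul, Complex.norm_natCast]
  rw [h5]
  calc ‖(L₁ : ℂ) * W‖ = ‖Z - (Z - (L₁ : ℂ) * W)‖ := by congr 1; ring
    _ ≤ ‖Z‖ + ‖Z - (L₁ : ℂ) * W‖ := norm_sub_le _ _
    _ ≤ _ := by linarith

lemma average_US (t : ℕ) (Q δ : ℝ) (L L₁ n : ℕ) (hL₁ : 1 ≤ L₁) :
    US (Mn t Q δ) L n ≤ 2 * (L₁ : ℝ) + 1 / (L₁ : ℝ) * ∑ j ∈ range L, US (Mn t Q δ) L₁ (n + j) := by
  have hL0 : (0 : ℝ) < L₁ := by exact_mod_cast hL₁
  have hS : 0 ≤ ∑ j ∈ range L, US (Mn t Q δ) L₁ (n + j) := sum_nonneg fun _ _ => US_nonneg _ _ _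
  refine Real.iSup_le (fun F => ?_) (by positivity)
  have h1 := average F.2 L L₁ n
  have h2 : ‖∑ r ∈ Icc 1 L, fs F n r‖ ≤
      (2 * (L₁ : ℝ) ^ 2 + ∑ j ∈ range L, US (Mn t Q δ) L₁ (n + j)) / L₁ := by
    rw [le_div_iff₀ hL0]
    linarith
  refine h2.trans (le_of_eq ?_)
  field_simp

/-- Davenport and Hua for the windows near the origin -/
lemma near (t : ℕ) (h : TU.H_stmt) (K : ℕ) (ε : ℝ) (hε : 0 < ε) : ∃ L₀ : ℕ, ∀ L n : ℕ, L₀ ≤ L →
    n ≤ K * L → ∀ F : ℝ[X], F.natDegree ≤ t → ‖∑ r ∈ Icc 1 L, fs F n r‖ ≤ ε * L := by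
  have hε1 : 0 < ε / (2 * (2 * K + 1)) := by positivity
  obtain ⟨X₀, hX₀⟩ := h t (ε / (2 * (2 * K + 1))) hε1
  obtain ⟨L₀, hL₀⟩ := exists_nat_ge (4 * X₀ / ε)
  refine ⟨L₀, fun L n hL hn F hF => ?_⟩
  have hall : ∀ (X : ℕ) (P : ℝ[X]), P.natDegree ≤ t →
      ‖∑ x ∈ Ioc 0 X, muC x * ee (P.eval (x : ℝ))‖ ≤ ε / (2 * (2 * K + 1)) * X + X₀ := by
    intro X P hP
    by_cases hX : X₀ ≤ X
    · have h1 : ‖∑ x ∈ Ioc 0 X, muC x * ee (P.eval (x : ℝ))‖ ≤ ε / (2 * (2 * K + 1)) * X :=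
        hX₀ X hX P hP
      have : (0 : ℝ) ≤ X₀ := Nat.cast_nonneg _
      linarith
    · have h1 : ‖∑ x ∈ Ioc 0 X, muC x * ee (P.eval (x : ℝ))‖ ≤ X := by
        refine (norm_sum_le_of_le _ (n := fun _ => (1 : ℝ)) fun r _ => ?_).trans ?_
        · rw [norm_mul, norm_ee, mul_one]
          exact norm_muC _
        · simp
      have h2 : (X : ℝ) ≤ X₀ := by exact_mod_cast (by omega : X ≤ X₀)
      have h3 : 0 ≤ ε / (2 * (2 * K + 1)) * X := by positivity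
      linarith
  obtain ⟨P, hP⟩ : ∃ P : ℝ[X], P = taylor (-(n : ℝ)) F := ⟨_, rfl⟩
  have hPd : P.natDegree ≤ t := by rw [hP, natDegree_taylor]; exact hF
  have hPe : ∀ r : ℕ, F.eval (r : ℝ) = P.eval (((r + n : ℕ) : ℝ)) := by
    intro r
    rw [hP, taylor_eval]
    congr 1
    push_cast
    ring
  have h1 : ∑ r ∈ Icc 1 L, fs F n r = ∑ x ∈ Ioc n (L + n), muC x * ee (P.eval (x : ℝ)) := by
    have h2 := SHMx.shift_sum 0 L n (fun x => muC x * ee (P.eval (x : ℝ)))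
    rw [zero_add] at h2
    rw [← h2]
    have h3 : Icc 1 L = Ioc 0 L := rfl
    rw [h3]
    refine sum_congr rfl fun r _ => ?_
    rw [fs, hPe r, add_comm n r]
  have h2 : ∑ x ∈ Ioc 0 n, muC x * ee (P.eval (x : ℝ)) +
      ∑ x ∈ Ioc n (L + n), muC x * ee (P.eval (x : ℝ)) =
      ∑ x ∈ Ioc 0 (L + n), muC x * ee (P.eval (x : ℝ)) :=
    sum_Ioc_consecutive _ (Nat.zero_le _) (by omega)
  have h3 : ∑ r ∈ Icc 1 L, fs F n r = ∑ x ∈ Ioc 0 (L + n), muC x * ee (P.eval (x : ℝ)) -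
      ∑ x ∈ Ioc 0 n, muC x * ee (P.eval (x : ℝ)) := by
    rw [h1]
    linear_combination h2
  rw [h3]
  have h4 := hall (L + n) P hPd
  have h5 := hall n P hPd
  refine (norm_sub_le _ _).trans ?_
  have hnr : (n : ℝ) ≤ K * L := by exact_mod_cast hn
  have hLr : 4 * X₀ / ε ≤ L := hL₀.trans (by exact_mod_cast hL)
  have h6 : 2 * (X₀ : ℝ) ≤ ε / 2 * L := by
    rw [div_le_iff₀ hε] at hLr
    linarith
  have h7 : ε / (2 * (2 * K + 1)) * (((L + n : ℕ) : ℝ) + n) ≤ ε / 2 * L := by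
    have h8 : ((L + n : ℕ) : ℝ) + n ≤ (2 * K + 1) * L := by
      push_cast
      linarith
    calc ε / (2 * (2 * K + 1)) * (((L + n : ℕ) : ℝ) + n)
        ≤ ε / (2 * (2 * K + 1)) * ((2 * K + 1) * L) := mul_le_mul_of_nonneg_left h8 hε1.le
      _ = ε / 2 * L := by
        have : (2 * (K : ℝ) + 1) ≠ 0 := by positivity
        field_simp
  have h9 : ε / (2 * (2 * K + 1)) * (((L + n : ℕ) : ℝ) + n) =
      ε / (2 * (2 * K + 1)) * ((L + n : ℕ) : ℝ) + ε / (2 * (2 * K + 1)) * n := by ring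
  linarith

/-- the terms which are far from the origin, for one shift -/
lemma far_shift (g : ℕ → ℝ) (h0 : ∀ n, 0 ≤ g n) {G : ℝ} (hG : ∀ n, g n ≤ G) {K L N k : ℕ}
    (hK : 1 ≤ K) (hL : 1 ≤ L) (hLN : L ≤ N) (hk : k ≤ L) :
    ∑ n ∈ Ioc (K * L) N, (1 / (n : ℝ)) * g (n + k) ≤
      (1 + 1 / (K : ℝ)) * (∑ m ∈ Icc 1 N, (1 / (m : ℝ)) * g m + G) := by
  have hKr : (0 : ℝ) < K := by exact_mod_cast hK
  have hNr : (0 : ℝ) < N := by exact_mod_cast (by omega : 0 < N)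
  have hG0 : 0 ≤ G := (h0 0).trans (hG 0)
  have h1 : ∀ n ∈ Ioc (K * L) N, (1 / (n : ℝ)) * g (n + k) ≤
      (1 + 1 / (K : ℝ)) * ((1 / ((n + k : ℕ) : ℝ)) * g (n + k)) := by
    intro n hn
    rw [mem_Ioc] at hn
    have hn0 : (0 : ℝ) < n := by exact_mod_cast (by omega : 0 < n)
    rw [← mul_assoc]
    refine mul_le_mul_of_nonneg_right ?_ (h0 _)
    have h2 : (0 : ℝ) < ((n + k : ℕ) : ℝ) := by exact_mod_cast (by omega : 0 < n + k)
    have h3 : ((n + k : ℕ) : ℝ) ≤ (1 + 1 / (K : ℝ)) * n := by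
      push_cast
      have h4 : (K : ℝ) * L ≤ n := by exact_mod_cast hn.1.le
      have h5 : (k : ℝ) ≤ L := by exact_mod_cast hk
      have h6 : (L : ℝ) ≤ n / K := by
        rw [le_div_iff₀ hKr]
        linarith
      have h7 : (1 + 1 / (K : ℝ)) * n = n + n / K := by ring
      rw [h7]
      linarith
    rw [mul_one_div, div_le_div_iff₀ hn0 h2]
    linarith
  refine (sum_le_sum h1).trans ?_
  rw [← mul_sum]
  refine mul_le_mul_of_nonneg_left ?_ (by positivity)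
  refine (ScalesAux.shift_le g h0 (K * L) N k).trans ?_
  have h2 : ∑ m ∈ Ioc 0 N, (1 / (m : ℝ)) * g m + ∑ m ∈ Ioc N (N + k), (1 / (m : ℝ)) * g m =
      ∑ m ∈ Ioc 0 (N + k), (1 / (m : ℝ)) * g m :=
    sum_Ioc_consecutive _ (Nat.zero_le _) (by omega)
  have h3 : ∑ m ∈ Ioc N (N + k), (1 / (m : ℝ)) * g m ≤ G := by
    have h4 : ∀ m ∈ Ioc N (N + k), (1 / (m : ℝ)) * g m ≤ 1 / (N : ℝ) * G := by
      intro m hm
      rw [mem_Ioc] at hm
      have h5 : (N : ℝ) ≤ m := by exact_mod_cast hm.1.le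
      exact mul_le_mul (one_div_le_one_div_of_le hNr h5) (hG m) (h0 m) (by positivity)
    refine (sum_le_sum h4).trans ?_
    rw [sum_const, Nat.card_Ioc, Nat.add_sub_cancel_left, nsmul_eq_mul]
    have h6 : (k : ℝ) ≤ N := by exact_mod_cast hk.trans hLN
    calc (k : ℝ) * (1 / (N : ℝ) * G) ≤ N * (1 / (N : ℝ) * G) :=
          mul_le_mul_of_nonneg_right h6 (by positivity)
      _ = G := by field_simp
  have h5 : ∑ m ∈ Icc 1 (N + k), (1 / (m : ℝ)) * g m = ∑ m ∈ Ioc 0 (N + k), (1 / (m : ℝ)) * g m :=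
    rfl
  have h6 : ∑ m ∈ Icc 1 N, (1 / (m : ℝ)) * g m = ∑ m ∈ Ioc 0 N, (1 / (m : ℝ)) * g m := rfl
  rw [h5, h6, ← h2]
  linarith

end UPXx

open UPXx in
theorem upx (h : TU.H_stmt) : UPX_stmt := by
  intro t Q δ L₁ ε hL₁ hε
  obtain ⟨K, hK⟩ := exists_nat_ge (max 1 (8 / ε))
  have hK1 : (1 : ℝ) ≤ K := (le_max_left _ _).trans hK
  have hK8 : 8 / ε ≤ K := (le_max_right _ _).trans hK
  have hKn : 1 ≤ K := by exact_mod_cast hK1
  obtain ⟨L₀, hL₀⟩ := near t h K (ε / 8) (by positivity)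
  obtain ⟨A, hA⟩ := exists_nat_ge (16 * (L₁ : ℝ) / ε)
  obtain ⟨B, hB⟩ := exists_nat_ge (Real.exp (1 + 8 / ε))
  refine ⟨L₀ + A + B + 1, fun L N hL hLN => ?_⟩
  have hL0 : (0 : ℝ) < L := by exact_mod_cast (by omega : 0 < L)
  have hL1r : (0 : ℝ) < L₁ := by exact_mod_cast hL₁
  have hN0 : (0 : ℝ) < N := by exact_mod_cast (by omega : 0 < N)
  have hKr : (0 : ℝ) < K := by linarith
  obtain ⟨l, hl⟩ : ∃ l : ℝ, l = Real.log N := ⟨_, rfl⟩
  have hlog : 1 + 8 / ε ≤ l := by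
    rw [hl, Real.le_log_iff_exp_le hN0]
    refine hB.trans ?_
    exact_mod_cast (by omega : B ≤ N)
  have hε8 : 0 < 8 / ε := by positivity
  have hl1 : 1 ≤ l := by linarith
  have hLA : 16 * (L₁ : ℝ) ≤ ε * L := by
    have h1 : 16 * (L₁ : ℝ) / ε ≤ L := hA.trans (by exact_mod_cast (by omega : A ≤ L))
    rw [div_le_iff₀ hε] at h1
    linarith
  have hsum : ∑ n ∈ Icc 1 N, (1 / (n : ℝ)) ≤ 1 + l := by rw [hl]; exact sum_inv_le_log N
  obtain ⟨g, hg⟩ : ∃ g : ℕ → ℕ → ℝ, g = fun L n => US (Mn t Q δ) L n := ⟨_, rfl⟩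
  have hg0 : ∀ L n, 0 ≤ g L n := fun L n => by rw [hg]; exact US_nonneg _ _ _
  have hg1 : ∀ L n, g L n ≤ L := fun L n => by rw [hg]; exact US_le _ _ _
  obtain ⟨S, hS⟩ : ∃ S : ℝ, S = ∑ n ∈ Icc 1 N, (1 / (n : ℝ)) * g L₁ n := ⟨_, rfl⟩
  have hS0 : 0 ≤ S := by
    rw [hS]
    exact sum_nonneg fun n _ => mul_nonneg (by positivity) (hg0 _ _)
  have hS1 : S ≤ L₁ * (1 + l) := by
    calc S ≤ ∑ n ∈ Icc 1 N, (1 / (n : ℝ)) * L₁ := by
          rw [hS]
          exact sum_le_sum fun n _ => mul_le_mul_of_nonneg_left (hg1 _ _) (by positivity)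
      _ = (∑ n ∈ Icc 1 N, (1 / (n : ℝ))) * L₁ := by rw [sum_mul]
      _ ≤ (1 + l) * L₁ := mul_le_mul_of_nonneg_right hsum hL1r.le
      _ = _ := by ring
  have goal' : ∑ n ∈ Icc 1 N, (1 / (n : ℝ)) * g L n ≤ (L : ℝ) / L₁ * S + ε * L * l := by
    rw [← sum_filter_add_sum_filter_not (Icc 1 N) (fun n => n ≤ K * L)]
    -- near the origin
    have h1 : ∑ n ∈ (Icc 1 N).filter (fun n => n ≤ K * L), (1 / (n : ℝ)) * g L n ≤
        ε / 8 * L * (1 + l) := by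
      calc ∑ n ∈ (Icc 1 N).filter (fun n => n ≤ K * L), (1 / (n : ℝ)) * g L n
          ≤ ∑ n ∈ (Icc 1 N).filter (fun n => n ≤ K * L), (1 / (n : ℝ)) * (ε / 8 * L) := by
            refine sum_le_sum fun n hn => mul_le_mul_of_nonneg_left ?_ (by positivity)
            rw [mem_filter] at hn
            rw [hg]
            exact Real.iSup_le (fun F => hL₀ L n (by omega) hn.2 F F.2.1) (by positivity)
        _ ≤ ∑ n ∈ Icc 1 N, (1 / (n : ℝ)) * (ε / 8 * L) :=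
            sum_le_sum_of_subset_of_nonneg (filter_subset _ _) fun n _ _ => by positivity
        _ = (∑ n ∈ Icc 1 N, (1 / (n : ℝ))) * (ε / 8 * L) := by rw [sum_mul]
        _ ≤ (1 + l) * (ε / 8 * L) := mul_le_mul_of_nonneg_right hsum (by positivity)
        _ = _ := by ring
    -- far from the origin
    have hfil : (Icc 1 N).filter (fun n => ¬ n ≤ K * L) = Ioc (K * L) N := by
      ext n
      rw [mem_filter, mem_Icc, mem_Ioc]
      omega
    have h2 : ∑ n ∈ Ioc (K * L) N, (1 / (n : ℝ)) ≤ 1 + l := by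
      refine le_trans (sum_le_sum_of_subset_of_nonneg ?_ fun n _ _ => by positivity) hsum
      intro n hn
      rw [mem_Ioc] at hn
      rw [mem_Icc]
      omega
    have h3 : ∑ n ∈ Ioc (K * L) N, (1 / (n : ℝ)) * g L n ≤
        2 * L₁ * (1 + l) + (L : ℝ) / L₁ * ((1 + 1 / (K : ℝ)) * (S + L₁)) := by
      calc ∑ n ∈ Ioc (K * L) N, (1 / (n : ℝ)) * g L n
          ≤ ∑ n ∈ Ioc (K * L) N, ((1 / (n : ℝ)) * (2 * L₁) +
            1 / (L₁ : ℝ) * ∑ j ∈ range L, (1 / (n : ℝ)) * g L₁ (n + j)) := by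
            refine sum_le_sum fun n _ => ?_
            have h4 := mul_le_mul_of_nonneg_left (average_US t Q δ L L₁ n hL₁)
              (by positivity : (0 : ℝ) ≤ 1 / (n : ℝ))
            have h5 : (1 / (n : ℝ)) * (2 * L₁) +
                1 / (L₁ : ℝ) * ∑ j ∈ range L, (1 / (n : ℝ)) * g L₁ (n + j) =
                (1 / (n : ℝ)) * (2 * (L₁ : ℝ) + 1 / (L₁ : ℝ) *
                  ∑ j ∈ range L, US (Mn t Q δ) L₁ (n + j)) := by
              rw [← mul_sum, hg]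
              ring
            rw [h5, hg]
            exact h4
        _ = (∑ n ∈ Ioc (K * L) N, (1 / (n : ℝ))) * (2 * L₁) +
            1 / (L₁ : ℝ) * ∑ j ∈ range L, ∑ n ∈ Ioc (K * L) N, (1 / (n : ℝ)) * g L₁ (n + j) := by
            rw [sum_add_distrib, ← sum_mul, ← mul_sum, sum_comm]
        _ ≤ (1 + l) * (2 * L₁) + 1 / (L₁ : ℝ) * ∑ j ∈ range L, (1 + 1 / (K : ℝ)) * (S + L₁) := by
            have h6 : ∑ j ∈ range L, ∑ n ∈ Ioc (K * L) N, (1 / (n : ℝ)) * g L₁ (n + j) ≤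
                ∑ j ∈ range L, (1 + 1 / (K : ℝ)) * (S + L₁) := by
              refine sum_le_sum fun j hj => ?_
              rw [mem_range] at hj
              rw [hS]
              exact far_shift (g L₁) (hg0 L₁) (hg1 L₁) hKn (by omega) hLN hj.le
            gcongr
        _ = _ := by
            rw [sum_const, card_range, nsmul_eq_mul]
            ring
    rw [hfil]
    have h4 : (L : ℝ) / L₁ * ((1 + 1 / (K : ℝ)) * (S + L₁)) ≤
        (L : ℝ) / L₁ * S + L / K * (1 + l) + 2 * L := by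
      have h5 : (L : ℝ) / L₁ * ((1 + 1 / (K : ℝ)) * (S + L₁)) =
          (L : ℝ) / L₁ * S + (L : ℝ) / (L₁ * K) * S + (1 + 1 / (K : ℝ)) * L := by
        field_simp
      have h6 : (L : ℝ) / (L₁ * K) * S ≤ (L : ℝ) / (L₁ * K) * (L₁ * (1 + l)) :=
        mul_le_mul_of_nonneg_left hS1 (by positivity)
      have h7 : (L : ℝ) / (L₁ * K) * (L₁ * (1 + l)) = L / K * (1 + l) := by
        field_simp
      have h8 : 1 / (K : ℝ) ≤ 1 := by
        rw [div_le_one hKr]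
        exact hK1
      have h9 : (1 + 1 / (K : ℝ)) * L ≤ 2 * L :=
        mul_le_mul_of_nonneg_right (by linarith) hL0.le
      rw [h5]
      linarith
    have h5 : (L : ℝ) / K ≤ ε / 8 * L := by
      rw [div_le_iff₀ hKr]
      rw [div_le_iff₀ hε] at hK8
      nlinarith
    have h6 : (L : ℝ) / K * (1 + l) ≤ ε / 8 * L * (1 + l) :=
      mul_le_mul_of_nonneg_right h5 (by linarith)
    have h7 : 2 * (L₁ : ℝ) * (1 + l) ≤ ε / 8 * L * (1 + l) :=
      mul_le_mul_of_nonneg_right (by linarith) (by linarith)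
    have h8 : 2 * (L : ℝ) ≤ ε / 4 * L * l := by
      have h9 : 8 ≤ ε * l := by
        have h10 : 8 / ε ≤ l := by linarith
        rw [div_le_iff₀ hε] at h10
        linarith
      nlinarith
    have h9 : ε / 8 * L * (1 + l) ≤ ε / 8 * L * (2 * l) :=
      mul_le_mul_of_nonneg_left (by linarith) (by positivity)
    have h10 : ε / 8 * L * (2 * l) = ε / 4 * L * l := by ring
    have h11 : ε / 4 * L * l + ε / 4 * L * l + ε / 4 * L * l + ε / 4 * L * l = ε * L * l := by ring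
    linarith
  rw [hS, hg, hl] at goal'
  exact goal'

end Pool.Agent.EXS
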