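import Pool.Agent.Lib.EXS.Defs

/-!
# Row WE: Weyl sums over a residue class

helper13.
-/

set_option autoImplicit false
open Finset Polynomial

namespace Pool.Agent.EXS

open Pool.Agent.Lib.MP_663568_nt Pool.Agent.Lib.MP_663568_nt.Katai
  Pool.Agent.Lib.MP_663568_nt.Nul Pool.Agent.Lib.MP_663568_nt.Nul.EqA
  Pool.Agent.Lib.MP_663568_nt.H6 Pool.Agent.TU

namespace WEx

/-- One exponent for all degrees. -/
lemma exists_C (t : ℕ) : ∃ C : ℕ, 1 ≤ C ∧ ∀ u : ℕ, 1 ≤ u → u ≤ t →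
    ∀ (ρ : ℝ) (M : ℕ) (P : ℝ[X]), 0 < ρ → ρ ≤ 1 / 2 → (1 / ρ) ^ C ≤ (M : ℝ) →
    P.natDegree ≤ u → ρ * M ≤ ‖∑ m ∈ Icc 1 M, ee (P.eval (m : ℝ))‖ →
    ∃ q : ℕ, 1 ≤ q ∧ (q : ℝ) ≤ (1 / ρ) ^ C ∧
      nd ((q : ℝ) * P.coeff u) ≤ (1 / ρ) ^ C / (M : ℝ) ^ u := by
  induction t with
  | zero => exact ⟨1, le_rfl, fun u h1 h2 => by omega⟩
  | succ t ih =>
    obtain ⟨C₁, hC₁, h₁⟩ := ih
    obtain ⟨C₂, hC₂, h₂⟩ := weyl_inverse (t + 1) (Nat.succ_pos t)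
    refine ⟨max C₁ C₂, hC₁.trans (le_max_left _ _), fun u hu1 hu2 ρ M P hρ hρ2 hM hP hS => ?_⟩
    have h1 : (1 : ℝ) ≤ 1 / ρ := by
      rw [le_div_iff₀ hρ]; linarith
    have hp1 : (1 / ρ) ^ C₁ ≤ (1 / ρ) ^ (max C₁ C₂) := pow_le_pow_right₀ h1 (le_max_left _ _)
    have hp2 : (1 / ρ) ^ C₂ ≤ (1 / ρ) ^ (max C₁ C₂) := pow_le_pow_right₀ h1 (le_max_right _ _)
    rcases Nat.lt_or_ge t u with h | h
    · have hu : u = t + 1 := by omega
      subst hu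
      obtain ⟨q, hq1, hq2, hq3⟩ := h₂ ρ M P hρ hρ2 (hp2.trans hM) hP hS
      exact ⟨q, hq1, hq2.trans hp2, hq3.trans (by gcongr)⟩
    · obtain ⟨q, hq1, hq2, hq3⟩ := h₁ u hu1 h ρ M P hρ hρ2 (hp1.trans hM) hP hS
      exact ⟨q, hq1, hq2.trans hp1, hq3.trans (by gcongr)⟩

/-- The residue class is an arithmetic progression. -/
lemma resid (D : ℕ) (hD : 1 ≤ D) (L n : ℕ) (g : ℝ → ℝ) (G : ℝ[X])
    (hG : ∀ x : ℝ, g (((D : ℝ) * (n / D : ℕ) - n) + D * x) = G.eval x) :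
    ∑ r ∈ (Icc 1 L).filter (fun r => D ∣ n + r), ee (g (r : ℝ)) =
      ∑ x ∈ Icc 1 ((n + L) / D - n / D), ee (G.eval (x : ℝ)) := by
  have hmod : D * (n / D) + n % D = n := Nat.div_add_mod n D
  have hmod2 : n % D < D := Nat.mod_lt _ hD
  refine sum_bij' (fun r _ => (n + r) / D - n / D) (fun x _ => D * (n / D + x) - n)
    ?_ ?_ ?_ ?_ ?_
  · intro r hr
    rw [mem_filter, mem_Icc] at hr
    obtain ⟨⟨h1, h2⟩, j, hj⟩ := hr
    rw [hj, Nat.mul_div_cancel_left j hD, mem_Icc]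
    constructor
    · have : n / D < j := (Nat.div_lt_iff_lt_mul hD).2 (by rw [Nat.mul_comm]; omega)
      omega
    · have : j ≤ (n + L) / D := (Nat.le_div_iff_mul_le hD).2 (by rw [Nat.mul_comm]; omega)
      omega
  · intro x hx
    rw [mem_Icc] at hx
    have h1 : n / D + x ≤ (n + L) / D := by omega
    have h2 : D * (n / D + x) ≤ n + L := by
      rw [Nat.mul_comm]
      exact (Nat.le_div_iff_mul_le hD).1 h1
    have h3 : n + 1 ≤ D * (n / D + x) := by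
      have : D * (n / D) + D * 1 ≤ D * (n / D + x) := by
        rw [← Nat.mul_add]
        exact Nat.mul_le_mul le_rfl (by omega)
      omega
    rw [mem_filter, mem_Icc]
    refine ⟨⟨by omega, by omega⟩, n / D + x, by omega⟩
  · intro r hr
    rw [mem_filter, mem_Icc] at hr
    obtain ⟨⟨h1, h2⟩, j, hj⟩ := hr
    rw [hj, Nat.mul_div_cancel_left j hD]
    have : n / D ≤ j := ((Nat.div_lt_iff_lt_mul hD).2 (by rw [Nat.mul_comm]; omega)).le
    rw [Nat.add_sub_cancel' this, ← hj]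
    omega
  · intro x hx
    rw [mem_Icc] at hx
    have h3 : n ≤ D * (n / D + x) := by
      have : D * (n / D) + D * 1 ≤ D * (n / D + x) := by
        rw [← Nat.mul_add]
        exact Nat.mul_le_mul le_rfl (by omega)
      omega
    rw [Nat.add_sub_cancel' h3, Nat.mul_div_cancel_left _ hD]
    omega
  · intro r hr
    rw [mem_filter, mem_Icc] at hr
    obtain ⟨⟨h1, h2⟩, j, hj⟩ := hr
    rw [hj, Nat.mul_div_cancel_left j hD]
    have h4 : n / D ≤ j := ((Nat.div_lt_iff_lt_mul hD).2 (by rw [Nat.mul_comm]; omega)).le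
    rw [← hG, Nat.cast_sub h4]
    congr 2
    have : (n : ℝ) + r = D * j := by exact_mod_cast hj
    linarith

end WEx

open WEx in
/-- Row WE. -/
theorem we : WE_stmt := by
  intro t ρ hρ hρ2
  obtain ⟨C, hC1, hC⟩ := exists_C t
  have hone : (1 : ℝ) ≤ 1 / ρ := by
    rw [le_div_iff₀ hρ]; linarith
  have hpow : (1 : ℝ) ≤ (1 / ρ) ^ C := one_le_pow₀ hone
  refine ⟨⌈(1 / ρ) ^ C⌉₊, Nat.one_le_ceil_iff.2 (by positivity), fun τ D hτ hD => ?_⟩
  refine ⟨D * ⌈(1 / ρ) ^ C * (1 + 1 / τ)⌉₊, fun L n hL u hu1 hu2 γ g hg => ?_⟩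
  obtain ⟨G, hG1, hG2, hG3⟩ := hg ((D : ℝ) * (n / D : ℕ) - n)
  rw [resid D hD L n g G hG3]
  set S := (n + L) / D - n / D with hS
  have hD0 : (0 : ℝ) < D := by exact_mod_cast hD
  have hSlow : L / D ≤ S := by
    have := @Nat.div_add_div_le_add_div n L D
    omega
  have hLD : ⌈(1 / ρ) ^ C * (1 + 1 / τ)⌉₊ ≤ L / D :=
    (Nat.le_div_iff_mul_le hD).2 (by rw [Nat.mul_comm]; exact hL)
  have hS1 : (1 / ρ) ^ C * (1 + 1 / τ) ≤ (S : ℝ) :=
    (Nat.le_ceil _).trans (by exact_mod_cast hLD.trans hSlow)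
  have hτ' : 0 < 1 / τ := by positivity
  have hS2 : (1 / ρ) ^ C ≤ (S : ℝ) := by nlinarith
  have hS3 : (1 / ρ) ^ C / τ ≤ (S : ℝ) := by
    have : (1 / ρ) ^ C / τ = (1 / ρ) ^ C * (1 / τ) := by ring
    nlinarith
  have hSup : (S : ℝ) ≤ (L : ℝ) / D + 1 := by
    have h1 : D * ((n + L) / D) ≤ n + L := Nat.mul_div_le _ _
    have h2 : n < D * (n / D + 1) := by
      have := Nat.div_add_mod n D
      have := Nat.mod_lt n hD
      rw [Nat.mul_add]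
      omega
    have h3 : (n + L) / D ≤ S + n / D := by omega
    have h4 : n / D ≤ (n + L) / D := Nat.div_le_div_right (Nat.le_add_right n L)
    have h5 : (S : ℝ) = ((n + L) / D : ℕ) - ((n / D : ℕ) : ℝ) := by
      rw [hS, Nat.cast_sub h4]
    have h6 : (D : ℝ) * ((n + L) / D : ℕ) ≤ n + L := by exact_mod_cast h1
    have h7 : (n : ℝ) < D * (((n / D : ℕ) : ℝ) + 1) := by exact_mod_cast h2
    have h8 : (D : ℝ) * S ≤ L + D := by
      rw [h5]; nlinarith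
    rw [← sub_le_iff_le_add, le_div_iff₀ hD0]
    nlinarith
  by_cases h : ρ * S ≤ ‖∑ x ∈ Icc 1 S, ee (G.eval (x : ℝ))‖
  · right
    obtain ⟨q, hq1, hq2, hq3⟩ := hC u hu1 hu2 ρ S G hρ hρ2 hS2 hG1 h
    refine ⟨q, hq1, ?_, ?_⟩
    · exact_mod_cast hq2.trans (Nat.le_ceil _)
    · rw [← hG2]
      refine hq3.trans ?_
      have hS0 : (1 : ℝ) ≤ S := hpow.trans hS2
      have hSp : (S : ℝ) ≤ (S : ℝ) ^ u := le_self_pow₀ hS0 (by omega)
      rw [div_le_iff₀ (by positivity)]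
      rw [div_le_iff₀ hτ] at hS3
      calc (1 / ρ) ^ C ≤ S * τ := hS3
        _ ≤ (S : ℝ) ^ u * τ := by gcongr
        _ = τ * (S : ℝ) ^ u := mul_comm _ _
  · left
    push Not at h
    exact h.le.trans (by gcongr)

end Pool.Agent.EXS
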