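import Mathlib
import Pool.Agent.Lib.EXS.FOU

/-!
# Exceptional sets: row WIN, the window inequality
-/

set_option autoImplicit false
open Finset Polynomial

namespace Pool.Agent.EXS

open Pool.Agent.Lib.MP_663568_nt Pool.Agent.Lib.MP_663568_nt.Katai
  Pool.Agent.Lib.MP_663568_nt.Nul Pool.Agent.Lib.MP_663568_nt.Nul.EqA
  Pool.Agent.Lib.MP_663568_nt.H6 Pool.Agent.TU

namespace WINx

open FOUx

/-- the two descriptions of the multiples of `m` in a window -/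
lemma reidx (m n L : ℕ) (hm : 0 < m) (G : ℝ → ℝ) :
    ∑ j ∈ Ioc (n / m) ((n + L) / m), G ((m : ℝ) * j - n) =
      ∑ r ∈ (Icc 1 L).filter (fun r => m ∣ n + r), G (r : ℝ) := by
  refine sum_bij' (fun j _ => m * j - n) (fun r _ => (n + r) / m) ?_ ?_ ?_ ?_ ?_
  · intro j hj
    rw [mem_Ioc] at hj
    have h1 : n < m * j := by
      have := (Nat.div_lt_iff_lt_mul hm).mp hj.1
      rwa [mul_comm]
    have h2 : m * j ≤ n + L := by
      have := (Nat.le_div_iff_mul_le hm).mp hj.2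
      rwa [mul_comm]
    rw [mem_filter, mem_Icc]
    refine ⟨⟨by omega, by omega⟩, ⟨j, by omega⟩⟩
  · intro r hr
    rw [mem_filter, mem_Icc] at hr
    obtain ⟨⟨h1, h2⟩, k, hk⟩ := hr
    rw [mem_Ioc, hk, Nat.mul_div_cancel_left _ hm]
    constructor
    · rw [Nat.div_lt_iff_lt_mul hm, mul_comm]; omega
    · rw [Nat.le_div_iff_mul_le hm, mul_comm]; omega
  · intro j hj
    rw [mem_Ioc] at hj
    have h1 : n < m * j := by
      have := (Nat.div_lt_iff_lt_mul hm).mp hj.1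
      rwa [mul_comm]
    have e : n + (m * j - n) = m * j := by omega
    rw [e, Nat.mul_div_cancel_left _ hm]
  · intro r hr
    rw [mem_filter, mem_Icc] at hr
    obtain ⟨⟨h1, h2⟩, k, hk⟩ := hr
    rw [hk, Nat.mul_div_cancel_left _ hm]
    omega
  · intro j hj
    rw [mem_Ioc] at hj
    have h1 : n < m * j := by
      have := (Nat.div_lt_iff_lt_mul hm).mp hj.1
      rwa [mul_comm]
    congr 1
    rw [Nat.cast_sub h1.le]
    push_cast
    ring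

lemma mr_pos {P P' : Finset ℕ} (hP : ∀ p ∈ P, p.Prime) (hP' : ∀ p ∈ P', p.Prime) (z : ℕ × ℕ)
    (hz : z ∈ P ×ˢ P') : 0 < z.1 * z.2 := by
  rw [mem_product] at hz
  exact Nat.mul_pos (hP _ hz.1).pos (hP' _ hz.2).pos

lemma sum_mr (P P' : Finset ℕ) : ∑ z ∈ P ×ˢ P', 1 / mr z = WW P * WW P' := by
  rw [WW, WW, sum_mul_sum, ← sum_product']
  exact sum_congr rfl fun z _ => by rw [mr, one_div_mul_one_div]

lemma Ab_le {t : ℕ} (b : Fin t → ℝ) (H₀ j : ℕ) : ‖Ab b H₀ j‖ ≤ H₀ := by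
  unfold Ab
  refine (norm_sum_le _ _).trans ?_
  calc _ ≤ ∑ h ∈ Icc 1 H₀, (1 : ℝ) := sum_le_sum fun h _ => by
        rw [norm_mul, norm_ee, mul_one]; exact muC_norm _
    _ = H₀ := by simp

lemma S_le (n L : ℕ) (f : ℕ → ℝ) : ‖∑ r ∈ Icc 1 L, muC (n + r) * ee (f r)‖ ≤ L := by
  refine (norm_sum_le _ _).trans ?_
  calc _ ≤ ∑ r ∈ Icc 1 L, (1 : ℝ) := sum_le_sum fun h _ => by
        rw [norm_mul, norm_ee, mul_one]; exact muC_norm _
    _ = L := by simp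

/-- numerical end -/
lemma numw (κ ε M C W S L B X H E : ℝ) (_hκ0 : 0 ≤ κ) (hκ : κ ≤ 1) (hε : 0 < ε) (_hε1 : ε ≤ 1)
    (hM : 8 / ε ≤ M) (hH : 0 < H) (hW : 0 ≤ W) (hL : 0 ≤ L) (hB : 0 ≤ B) (hC : 0 ≤ C)
    (hS0 : 0 ≤ S) (hS : S ≤ L)
    (h1 : H * (1 - 1 / M) * (W * S) ≤ X + H * (E + ε / 16 * (W * L)))
    (hE : E ≤ ε / 8 * (W * L))
    (h2 : X ≤ κ * H * ((1 + ε / 16) * (W * L)) + H * C * B) :
    W * S ≤ (κ + ε) * W * L + 2 * C * B := by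
  have hM0 : 0 < M := lt_of_lt_of_le (by positivity) hM
  have hMi : 1 / M ≤ ε / 8 := by
    rw [div_le_iff₀ hM0]
    rw [div_le_iff₀ hε] at hM
    linarith
  have hWL : 0 ≤ W * L := mul_nonneg hW hL
  have hWS : 0 ≤ W * S := mul_nonneg hW hS0
  have hWSL : W * S ≤ W * L := mul_le_mul_of_nonneg_left hS hW
  have h3 : H * ((1 - 1 / M) * (W * S)) ≤
      H * (κ * ((1 + ε / 16) * (W * L)) + C * B + (ε / 8 * (W * L) + ε / 16 * (W * L))) := by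
    have : H * (E + ε / 16 * (W * L)) ≤ H * (ε / 8 * (W * L) + ε / 16 * (W * L)) :=
      mul_le_mul_of_nonneg_left (by linarith) hH.le
    linarith
  have h4 := le_of_mul_le_mul_left h3 hH
  have h5 : 1 / M * (W * S) ≤ ε / 8 * (W * L) := mul_le_mul hMi hWSL hWS (by positivity)
  have h6 : κ * (ε / 16 * (W * L)) ≤ 1 * (ε / 16 * (W * L)) :=
    mul_le_mul_of_nonneg_right hκ (by positivity)
  have h7 : 0 ≤ C * B := mul_nonneg hC hB
  have h8 : 0 ≤ ε * (W * L) := by positivity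
  nlinarith

end WINx

open FOUx WINx in
theorem win (hK : KER_stmt) (hA : ALG_stmt) (hS : SHM_stmt) (hF : FOU_stmt) (hU : UPK_stmt) :
    WIN_stmt := by
  classical
  intro t H₀ ε ht hH₀ hε hε1
  obtain ⟨M, hM⟩ : ∃ M : ℕ, M = ⌈8 / ε⌉₊ := ⟨_, rfl⟩
  have hM8 : 8 / ε ≤ M := by rw [hM]; exact Nat.le_ceil _
  have hM0 : (0 : ℝ) < M := lt_of_lt_of_le (by positivity) hM8
  have hM1 : 1 ≤ M := by exact_mod_cast hM0
  rw [← hM]
  obtain ⟨Λ, c, K, hKer⟩ := hK t H₀ M ht hH₀ hM1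
  obtain ⟨C, hC⟩ : ∃ C : ℝ, C = CKn t H₀ M := ⟨_, rfl⟩
  have hH₀r : (1 : ℝ) ≤ H₀ := by exact_mod_cast hH₀
  have hC0 : 0 ≤ C := by
    rw [hC, CKn]; positivity
  -- the size of the frequencies
  obtain ⟨N, hN⟩ : ∃ N : ℕ, ∀ l ∈ Λ, ∀ i, |l i| ≤ (N : ℤ) := by
    refine ⟨∑ l ∈ Λ, ∑ i, (l i).natAbs, fun l hl i => ?_⟩
    have h1 : (l i).natAbs ≤ ∑ i, (l i).natAbs :=
      single_le_sum (f := fun i => (l i).natAbs) (fun _ _ => Nat.zero_le _) (mem_univ i)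
    have h2 : ∑ i, (l i).natAbs ≤ ∑ l ∈ Λ, ∑ i, (l i).natAbs :=
      single_le_sum (f := fun l : Fin t → ℤ => ∑ i, (l i).natAbs) (fun _ _ => Nat.zero_le _) hl
    rw [Int.abs_eq_natAbs]
    exact_mod_cast h1.trans h2
  obtain ⟨V, hV⟩ := (hA t).2.2.2 H₀ N
  have hw0 := (hA t).2.2.1
  have hVw : ∀ l ∈ Λ, ∀ h : ℕ, h ≤ H₀ → ∀ i, |wv h l i| ≤ (V : ℤ) :=
    fun l hl h hh => hV h hh l (hN l hl)
  have hVl : ∀ l ∈ Λ, ∀ i, |l i| ≤ (V : ℤ) := by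
    intro l hl i
    have := hVw l hl 0 (Nat.zero_le _) i
    rwa [hw0] at this
  -- the constants
  obtain ⟨P₀, hP₀⟩ : ∃ P₀ : ℕ, P₀ = ⌈32 * C / ε⌉₊ + 1 := ⟨_, rfl⟩
  obtain ⟨η, hη⟩ : ∃ η : ℝ, η = (ε / (16 * (1 + C))) ^ 2 := ⟨_, rfl⟩
  have hη0 : 0 < η := by rw [hη]; positivity
  have hηs : (1 + C) * √η = ε / 16 := by
    rw [hη, Real.sqrt_sq (by positivity)]
    field_simp
  refine ⟨V, P₀, η, hη0, fun Q δ P P' H₁ hG => ?_⟩
  obtain ⟨Zc, hZc⟩ : ∃ Zc : ℕ, Zc = (P ×ˢ P').card := ⟨_, rfl⟩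
  refine ⟨H₁ + ⌈16 * (C * (Zc * (2 * H₀ + 4))) / ε⌉₊, fun L n hL F hFd hFS b κ hκ => ?_⟩
  obtain ⟨W, hW⟩ : ∃ W : ℝ, W = WW P * WW P' := ⟨_, rfl⟩
  have hW1 : 1 ≤ W := by
    rw [hW]
    have h1 := hG.hW
    have h2 := hG.hW'
    nlinarith
  rw [← hW, ← hC]
  have hLH : H₁ ≤ L := by omega
  have hLr : 16 * (C * (Zc * (2 * H₀ + 4))) / ε ≤ L := by
    refine (Nat.le_ceil _).trans ?_
    exact_mod_cast (by omega : ⌈16 * (C * (Zc * (2 * H₀ + 4))) / ε⌉₊ ≤ L)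
  have hL0 : (0 : ℝ) ≤ L := Nat.cast_nonneg _
  obtain ⟨B, hB⟩ : ∃ B : ℝ, B = ∑ z ∈ P ×ˢ P',
      (((Ioc (n / (z.1 * z.2)) ((n + L) / (z.1 * z.2))).filter
        (fun j => κ * H₀ ≤ ‖Ab b H₀ j‖)).card : ℝ) := ⟨_, rfl⟩
  have hB0 : 0 ≤ B := by rw [hB]; exact sum_nonneg fun z _ => Nat.cast_nonneg _
  rw [← hB]
  obtain ⟨S, hSd⟩ : ∃ S : ℂ, S = ∑ r ∈ Icc 1 L, muC (n + r) * ee (F.eval (r : ℝ)) := ⟨_, rfl⟩
  have hSL : ‖S‖ ≤ L := by rw [hSd]; exact S_le n L _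
  rw [← hSd]
  have hWL : 0 ≤ W * L := by positivity
  rcases le_or_gt 1 κ with hκ1 | hκ1
  · have h1 : W * ‖S‖ ≤ W * L := mul_le_mul_of_nonneg_left hSL (by linarith)
    have h2 : 1 * (W * L) ≤ (κ + ε) * (W * L) := mul_le_mul_of_nonneg_right (by linarith) hWL
    have h3 : 0 ≤ C * B := mul_nonneg hC0 hB0
    nlinarith
  -- the mixed sum
  obtain ⟨g, hg⟩ : ∃ g : ℕ × ℕ → ℝ → ℂ, g = fun z x => ee (F.eval x) *
    ((K (fun i => zv t F (mr z) x i - b i) : ℝ) : ℂ) := ⟨_, rfl⟩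
  have hg1 : ∀ z x, ‖g z x‖ = K (fun i => zv t F (mr z) x i - b i) := by
    intro z x
    rw [hg]
    simp only [norm_mul, norm_ee, one_mul, Complex.norm_real, Real.norm_eq_abs]
    exact abs_of_nonneg (hKer.nonneg _)
  obtain ⟨X, hX⟩ : ∃ X : ℂ, X = ∑ z ∈ P ×ˢ P', ∑ j ∈ Ioc (n / (z.1 * z.2))
    ((n + L) / (z.1 * z.2)), Ab b H₀ j * g z ((z.1 : ℝ) * z.2 * j - n) := ⟨_, rfl⟩
  have hprime := hG.prime
  have hprime' := hG.prime'
  -- upper bound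
  have hup : ‖X‖ ≤ κ * H₀ * ((1 + ε / 16) * (W * L)) + H₀ * C * B := by
    have h1 : ∀ z ∈ P ×ˢ P', ‖∑ j ∈ Ioc (n / (z.1 * z.2)) ((n + L) / (z.1 * z.2)),
        Ab b H₀ j * g z ((z.1 : ℝ) * z.2 * j - n)‖ ≤
        κ * H₀ * ∑ r ∈ (Icc 1 L).filter (fun r => z.1 * z.2 ∣ n + r),
          K (fun i => zv t F (mr z) (r : ℝ) i - b i) +
        H₀ * C * (((Ioc (n / (z.1 * z.2)) ((n + L) / (z.1 * z.2))).filter
          (fun j => κ * H₀ ≤ ‖Ab b H₀ j‖)).card : ℝ) := by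
      intro z hz
      have hz0 := mr_pos hprime hprime' z hz
      have e1 := reidx (z.1 * z.2) n L hz0 (fun x => K (fun i => zv t F (mr z) x i - b i))
      have e1' : ∑ j ∈ Ioc (n / (z.1 * z.2)) ((n + L) / (z.1 * z.2)),
          K (fun i => zv t F (mr z) ((z.1 : ℝ) * z.2 * j - n) i - b i) =
          ∑ r ∈ (Icc 1 L).filter (fun r => z.1 * z.2 ∣ n + r),
            K (fun i => zv t F (mr z) (r : ℝ) i - b i) := by
        rw [← e1]
        refine sum_congr rfl fun j _ => ?_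
        push_cast
        rfl
      rw [← e1', card_filter, Nat.cast_sum, mul_sum, mul_sum, ← sum_add_distrib]
      refine (norm_sum_le _ _).trans (sum_le_sum fun j _ => ?_)
      rw [norm_mul, hg1]
      have hK0 := hKer.nonneg (fun i => zv t F (mr z) ((z.1 : ℝ) * z.2 * j - n) i - b i)
      have hKC := hKer.le (fun i => zv t F (mr z) ((z.1 : ℝ) * z.2 * j - n) i - b i)
      rw [← hC] at hKC
      split_ifs with hj
      · have h2 := Ab_le b H₀ j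
        have h3 : ‖Ab b H₀ j‖ * K (fun i => zv t F (mr z) ((z.1 : ℝ) * z.2 * j - n) i - b i) ≤
            H₀ * C := mul_le_mul h2 hKC hK0 (by linarith)
        have h4 : 0 ≤ κ * H₀ * K (fun i => zv t F (mr z) ((z.1 : ℝ) * z.2 * j - n) i - b i) := by
          positivity
        push_cast
        linarith
      · push Not at hj
        have h3 := mul_le_mul_of_nonneg_right hj.le hK0
        push_cast
        linarith
    have h2 := hU t H₀ M V P₀ 1 η Q δ P P' H₁ Λ c K ht hη0 hKer hG hVl L n hLH F hFd hFS b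
    rw [← hW, ← hC, hηs] at h2
    rw [hX]
    refine (norm_sum_le _ _).trans ((sum_le_sum h1).trans ?_)
    rw [sum_add_distrib, ← mul_sum, ← mul_sum, ← hB]
    refine add_le_add ?_ le_rfl
    apply mul_le_mul_of_nonneg_left _ (by positivity)
    linarith
  -- lower bound: the shifts
  have hexp : X = ∑ h ∈ Icc 1 H₀, ∑ z ∈ P ×ˢ P', ∑ j ∈ Ioc (n / (z.1 * z.2))
      ((n + L) / (z.1 * z.2)), muC (j + h) * (ee (ph b (h : ℝ)) *
        g z ((z.1 : ℝ) * z.2 * j - n)) := by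
    rw [hX, sum_comm]
    refine sum_congr rfl fun z _ => ?_
    rw [sum_comm]
    refine sum_congr rfl fun j _ => ?_
    rw [Ab, sum_mul]
    exact sum_congr rfl fun h _ => by ring
  have hP₀1 : 1 ≤ P₀ := by omega
  have hshift : ∀ h ∈ Icc 1 H₀, ‖∑ z ∈ P ×ˢ P', ∑ j ∈ Ioc (n / (z.1 * z.2))
      ((n + L) / (z.1 * z.2)), muC (j + h) * (ee (ph b (h : ℝ)) *
        g z ((z.1 : ℝ) * z.2 * j - n)) -
      ∑ z ∈ P ×ˢ P', ∑ r ∈ (Icc 1 L).filter (fun r => z.1 * z.2 ∣ n + r),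
        muC (n + r) * (ee (ph b (h : ℝ)) * (ee (F.eval ((r : ℝ) - mr z * h)) *
          ((K (fun i => zv t F (mr z) ((r : ℝ) - mr z * h) i - b i) : ℝ) : ℂ)))‖ ≤
      C * (Zc * (2 * H₀ + 4)) + C * (2 * (L : ℝ) / P₀) * W := by
    intro h hh
    rw [mem_Icc] at hh
    rw [← sum_sub_distrib]
    refine (norm_sum_le _ _).trans ?_
    have h1 : ∀ z ∈ P ×ˢ P', ‖∑ j ∈ Ioc (n / (z.1 * z.2))
      ((n + L) / (z.1 * z.2)), muC (j + h) * (ee (ph b (h : ℝ)) *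
        g z ((z.1 : ℝ) * z.2 * j - n)) -
      ∑ r ∈ (Icc 1 L).filter (fun r => z.1 * z.2 ∣ n + r),
        muC (n + r) * (ee (ph b (h : ℝ)) * (ee (F.eval ((r : ℝ) - mr z * h)) *
          ((K (fun i => zv t F (mr z) ((r : ℝ) - mr z * h) i - b i) : ℝ) : ℂ)))‖ ≤
        C * (2 * H₀ + 4) + C * (2 * (L : ℝ) / P₀) * (1 / mr z) := by
      intro z hz
      have hz' := hz
      rw [mem_product] at hz'
      have h2 := hS z.1 z.2 P₀ (hprime _ hz'.1) (hprime' _ hz'.2) (fun hcon => by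
        have := disjoint_left.mp hG.disj hz'.1
        rw [hcon] at this
        exact this hz'.2) hP₀1 (hG.large _ hz'.1) (hG.large' _ hz'.2) n L h
        (fun x => ee (ph b (h : ℝ)) * g z x) C (fun x => by
          rw [norm_mul, norm_ee, one_mul, hg1, hC]
          exact hKer.le _)
      rw [hg] at h2 ⊢
      refine h2.trans ?_
      have h3 : (h : ℝ) ≤ H₀ := by exact_mod_cast hh.2
      have hz0 := mr_pos hprime hprime' z hz
      have e1 : 2 * (L : ℝ) / ((z.1 : ℝ) * z.2 * P₀) = 2 * (L : ℝ) / P₀ * (1 / mr z) := by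
        rw [mr, mul_one_div, div_div, mul_comm (P₀ : ℝ)]
      rw [e1]
      calc C * (2 * h + 4 + 2 * (L : ℝ) / P₀ * (1 / mr z)) =
            C * (2 * h + 4) + C * (2 * (L : ℝ) / P₀) * (1 / mr z) := by ring
        _ ≤ _ := by
            refine add_le_add ?_ le_rfl
            exact mul_le_mul_of_nonneg_left (by linarith) hC0
    refine (sum_le_sum h1).trans (le_of_eq ?_)
    rw [sum_add_distrib, sum_const, ← mul_sum, sum_mr, ← hW, ← hZc, nsmul_eq_mul]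
    ring
  have hmain : ∀ h ∈ Icc 1 H₀, ‖∑ z ∈ P ×ˢ P', ∑ j ∈ Ioc (n / (z.1 * z.2))
      ((n + L) / (z.1 * z.2)), muC (j + h) * (ee (ph b (h : ℝ)) *
        g z ((z.1 : ℝ) * z.2 * j - n)) - ((c (hv t h) * W : ℝ) : ℂ) * S‖ ≤
      ε / 8 * (W * L) + ε / 16 * (W * L) := by
    intro h hh
    have h1 := hshift h hh
    rw [mem_Icc] at hh
    have h2 := hF t H₀ M V P₀ 1 η Q δ P P' H₁ Λ c K ht hη0 hKer hG hVw L n hLH F hFd hFS b h hh.1
      hh.2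
    rw [← hW, ← hSd, ← hC, hηs] at h2
    have h3 : C * (Zc * (2 * H₀ + 4)) ≤ ε / 16 * (W * L) := by
      rw [div_le_iff₀ hε] at hLr
      have h4 : (L : ℝ) ≤ W * L := le_mul_of_one_le_left hL0 hW1
      nlinarith
    have h4 : C * (2 * (L : ℝ) / P₀) * W ≤ ε / 16 * (W * L) := by
      have h5 : 32 * C / ε ≤ P₀ := by
        rw [hP₀]; push_cast
        have := Nat.le_ceil (32 * C / ε)
        linarith
      have hP₀r : (0 : ℝ) < P₀ := by exact_mod_cast hP₀1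
      rw [div_le_iff₀ hε] at h5
      have e2 : C * (2 * (L : ℝ) / P₀) * W = 2 * C * (W * L) / P₀ := by ring
      rw [e2, div_le_iff₀ hP₀r]
      nlinarith [mul_le_mul_of_nonneg_right h5 hWL]
    have e3 : ∀ x y w : ℂ, x - w = (x - y) + (y - w) := fun x y w => by ring
    rw [e3 _ (∑ z ∈ P ×ˢ P', ∑ r ∈ (Icc 1 L).filter (fun r => z.1 * z.2 ∣ n + r),
        muC (n + r) * (ee (ph b (h : ℝ)) * (ee (F.eval ((r : ℝ) - mr z * h)) *
          ((K (fun i => zv t F (mr z) ((r : ℝ) - mr z * h) i - b i) : ℝ) : ℂ)))) _]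
    refine (norm_add_le _ _).trans ?_
    linarith
  have hlow : H₀ * (1 - 1 / (M : ℝ)) * (W * ‖S‖) ≤ ‖X‖ +
      H₀ * (ε / 8 * (W * L) + ε / 16 * (W * L)) := by
    have h1 : ‖X - ((∑ h ∈ Icc 1 H₀, c (hv t h) * W : ℝ) : ℂ) * S‖ ≤
        H₀ * (ε / 8 * (W * L) + ε / 16 * (W * L)) := by
      rw [hexp, Complex.ofReal_sum, sum_mul, ← sum_sub_distrib]
      refine (norm_sum_le _ _).trans ((sum_le_sum hmain).trans (le_of_eq ?_))
      rw [sum_const, Nat.card_Icc, Nat.add_sub_cancel, nsmul_eq_mul]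
    have h2 : H₀ * (1 - 1 / (M : ℝ)) * W ≤ ∑ h ∈ Icc 1 H₀, c (hv t h) * W := by
      rw [← sum_mul]
      apply mul_le_mul_of_nonneg_right _ (by linarith)
      have h3 : ∑ h ∈ Icc 1 H₀, (1 - 1 / (M : ℝ)) ≤ ∑ h ∈ Icc 1 H₀, c (hv t h) :=
        sum_le_sum fun h hh => by
          rw [mem_Icc] at hh
          exact hKer.hv_ge h hh.1 hh.2
      rw [sum_const, Nat.card_Icc, Nat.add_sub_cancel, nsmul_eq_mul] at h3
      exact h3
    have h3 : 0 ≤ ∑ h ∈ Icc 1 H₀, c (hv t h) * W :=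
      sum_nonneg fun h _ => mul_nonneg (hKer.c0 _) (by linarith)
    have h4 : ‖((∑ h ∈ Icc 1 H₀, c (hv t h) * W : ℝ) : ℂ) * S‖ =
        (∑ h ∈ Icc 1 H₀, c (hv t h) * W) * ‖S‖ := by
      rw [norm_mul, Complex.norm_real, Real.norm_eq_abs, abs_of_nonneg h3]
    have h5 : ‖((∑ h ∈ Icc 1 H₀, c (hv t h) * W : ℝ) : ℂ) * S‖ ≤ ‖X‖ +
        ‖X - ((∑ h ∈ Icc 1 H₀, c (hv t h) * W : ℝ) : ℂ) * S‖ := by
      have : ((∑ h ∈ Icc 1 H₀, c (hv t h) * W : ℝ) : ℂ) * S =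
          X - (X - ((∑ h ∈ Icc 1 H₀, c (hv t h) * W : ℝ) : ℂ) * S) := by ring
      calc _ = ‖X - (X - ((∑ h ∈ Icc 1 H₀, c (hv t h) * W : ℝ) : ℂ) * S)‖ := by rw [← this]
        _ ≤ _ := norm_sub_le _ _
    rw [h4] at h5
    have h6 := mul_le_mul_of_nonneg_right h2 (norm_nonneg S)
    linarith
  exact numw κ ε M C W ‖S‖ L B ‖X‖ H₀ (ε / 8 * (W * L)) hκ hκ1.le hε hε1 hM8 (by linarith)
    (by linarith) hL0 hB0 hC0 (norm_nonneg _) hSL hlow le_rfl hup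

end Pool.Agent.EXS
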