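import Mathlib
import Pool.Agent.Lib.EXS.BL
import Pool.Agent.Lib.EXS.PR
import Pool.Agent.Lib.EXS.EX
import Pool.Agent.Lib.EXS.PH
import Pool.Agent.Lib.EXS.WE
import Pool.Agent.Lib.EXS.TK
import Pool.Agent.Lib.EXS.SMU
import Pool.Agent.Lib.EXS.SMZ
import Pool.Agent.Lib.EXS.GD
import Pool.Agent.Lib.EXS.ALG
import Pool.Agent.Lib.EXS.KER
import Pool.Agent.Lib.EXS.SHM
import Pool.Agent.Lib.EXS.FOU
import Pool.Agent.Lib.EXS.UPK
import Pool.Agent.Lib.EXS.WIN
import Pool.Agent.Lib.EXS.AVG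
import Pool.Agent.Lib.EXS.FIX
import Pool.Agent.Lib.EXS.UPX
import Pool.Agent.Lib.EXS.X1
import Pool.Agent.Lib.EXS.CL
import Pool.Agent.Lib.TU.H
import Pool.Agent.Lib.TU.RowA

/-! # Exceptional sets: assembly of the rows -/

set_option autoImplicit false

namespace Pool.Agent.EXS

theorem fin_top : FIN_stmt :=
  fin (x1 (fix_len (gd tk (smu ex ph_diff we (pr bl)) (smz ex ph_diff bl))
    (win ker alg shm (fou alg) upk) avg) (upx (TU.rowH TU.rowA))) cl

end Pool.Agent.EXS
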