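import Mathlib
import Pool.Agent.Lib.EXS.Top
import Pool.Agent.Lib.EXS.EQV2
import Pool.Agent.Lib.EXS.Crit

/-! # Exceptional sets: assembly for every set of phases -/

set_option autoImplicit false
open Finset

namespace Pool.Agent.EXS

theorem x1_top : X1_stmt :=
  x1 (fix_len (gd tk (smu ex ph_diff we (pr bl)) (smz ex ph_diff bl))
    (win ker alg shm (fou alg) upk) avg) (upx (TU.rowH TU.rowA))

lemma SB_univ (t N H : ℕ) : SB (Set.univ : Set (Fin t → ℝ)) N H = SS t N H := by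
  unfold SB SS
  refine sum_congr rfl fun n _ => ?_
  congr 1
  exact (Equiv.Set.univ (Fin t → ℝ)).iSup_comp (g := fun α : Fin t → ℝ =>
    ‖∑ h ∈ Icc 1 H, Pool.Agent.Lib.MP_663568_nt.muC (n + h) *
      Pool.Agent.Lib.MP_663568_nt.Katai.ee (TU.ph α (h : ℝ))‖)

theorem conv_minB (t : ℕ) (ht : 1 ≤ t) (c : ℝ) (hc : 0 < c) : ∃ C : ℝ, ∀ H N : ℕ, 1 ≤ H →
    ∃ b : Fin t → ℝ, (H : ℝ) ^ (t * (t + 1) / 2) * EB b c H N ≤
      C * (SB (Set.univ : Set (Fin t → ℝ)) N H / H) := by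
  obtain ⟨C, h⟩ := conv_min t ht c hc
  refine ⟨C, fun H N hH => ?_⟩
  rw [SB_univ]
  exact h H N hH

theorem ineq_oneB (ε : ℝ) (hε : 0 < ε) (H : ℕ) (hH : 1 ≤ H) :
    ∃ H₀ : ℕ, ∀ N K : ℕ, H₀ ≤ K → K ≤ N → ∀ (b : Fin 1 → ℝ) (κ : ℝ), 0 ≤ κ →
      SB (Set.univ : Set (Fin 1 → ℝ)) N K ≤
        (κ + √(Real.pi * H * (EB b κ H N / Real.log N)) + ε) * K * Real.log N := by
  obtain ⟨H₀, h⟩ := ineq_one ε hε H hH
  refine ⟨H₀, fun N K h1 h2 b κ hκ => ?_⟩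
  rw [SB_univ]
  exact h N K h1 h2 b κ hκ

end Pool.Agent.EXS
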